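import Pool.Agent.Lib.MP_14152d_al.Device

/-! Quantitative estimates: the gain of a full reservoir, the cost of clearing a light box. -/

namespace Pool.Agent.Lamp79

instance (p : V) (N : ℕ) : DecidablePred (InBox p N) := fun u => by unfold InBox; infer_instance

def cut (X : Finset V) (p : V) (N : ℕ) : Finset V := X.filter fun v => ¬ InBox p N (blk v)

lemma mem_cut {X : Finset V} {p v : V} {N : ℕ} : v ∈ cut X p N ↔ v ∈ X ∧ ¬ InBox p N (blk v) :=
  Finset.mem_filter

lemma cut_subset (X : Finset V) (p : V) (N : ℕ) : cut X p N ⊆ X := Finset.filter_subset _ _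

lemma cut_zero (X : Finset V) (p : V) : cut X p 0 = X := by
  ext v; simp only [mem_cut, InBox]; constructor
  · exact fun h => h.1
  · exact fun h => ⟨h, by omega⟩

lemma free_cut (X : Finset V) (p : V) (N : ℕ) : Free (cut X p N) p N :=
  fun _ hv => (mem_cut.1 hv).2

lemma inE_iff (p : V) (N : ℕ) (v : V) :
    inE (65536 * p.1) (65536 * p.2) (65536 * N) v ↔ InBox p N (blk v) := by
  simp only [inE, InBox, blk]; push_cast; omega

lemma mem_full {p u : V} {N : ℕ} : u ∈ pre (fp p N) (N * N) ↔ InBox p N u := by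
  rw [mem_pre]
  exact ⟨fun ⟨j, hj, h⟩ => h ▸ fp_inBox p hj, exists_fp⟩

lemma gain (y p : V) (N : ℕ) (X : Finset V) (h : Free X p N) :
    lv y X + (65536 * N) * (65536 * N)
      ≤ lv y (dev X (pre (fp p N) (N * N))) + 14 * (65536 * N + 1) + 4 := by
  let g : ℕ × ℕ → V := fun ij => (65536 * p.1 + 2 * ij.1 + (ij.2 % 2 : ℕ), 65536 * p.2 + ij.2)
  let S : Finset V := (Finset.range (32768 * N) ×ˢ Finset.range (65536 * N)).image g
  have hcard : S.card = (32768 * N) * (65536 * N) := by
    rw [Finset.card_image_of_injective, Finset.card_product, Finset.card_range, Finset.card_range]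
    rintro ⟨a, b⟩ ⟨c, d⟩ hh
    simp only [g, Prod.mk.injEq] at hh ⊢
    omega
  have := lv_gain (65536 * p.1) (65536 * p.2) (65536 * N) y (dev X (pre (fp p N) (N * N))) X S
    (fun v hv => ⟨mem_dev.2 (Or.inl ⟨fun h' => h v hv (mem_full.1 h'), hv⟩),
      fun h' => h v hv ((inE_iff p N v).1 h')⟩)
    (fun v hv => by
      obtain ⟨⟨a, b⟩, hab, rfl⟩ := Finset.mem_image.1 hv
      simp only [Finset.mem_product, Finset.mem_range] at hab
      have h1 : inE (65536 * p.1) (65536 * p.2) (65536 * N) (g (a, b)) := by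
        simp only [inE, g]; push_cast; omega
      have h2 : black (g (a, b)) := by simp only [black, g]; omega
      exact ⟨mem_dev.2 (Or.inr ⟨mem_full.2 ((inE_iff p N _).1 h1), h2⟩), h1, h2⟩)
  rw [hcard] at this
  nlinarith

lemma fp_parent (p : V) {N n : ℕ} (hN : 0 < N) (hn : 0 < n) :
    ∃ j < n, d1 (fp p N j) (fp p N n) = 1 := by
  obtain ⟨i, j, hi, rfl⟩ := exists_idx (n := n) hN
  rcases Nat.eq_zero_or_pos i with h0 | h0
  · subst h0
    obtain ⟨j', rfl⟩ : ∃ j', j = j' + 1 := ⟨j - 1, by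
      have : j ≠ 0 := fun h => by simp [h] at hn
      omega⟩
    refine ⟨j' * N + 0, by nlinarith, ?_⟩
    rw [fp_idx p hN, fp_idx p hN]; simp [d1]
  · refine ⟨j * N + (i - 1), by omega, ?_⟩
    rw [fp_idx p hi, fp_idx p (by omega)]
    simp only [d1]; omega

/-- the cost of putting back the lamps of a light box -/
def rd (s : ℕ) : ℕ := 8 * bb + 64 * ((2048 * s) * (2048 * s)) + 128 * (15 * bb * (s * s) + 3)

lemma rd_mono {s s' : ℕ} (h : s ≤ s') : rd s ≤ rd s' := by
  unfold rd
  have := Nat.mul_le_mul h h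
  have : 15 * bb * (s * s) ≤ 15 * bb * (s' * s') := Nat.mul_le_mul_left _ this
  nlinarith

lemma readd (y p : V) (N : ℕ) (X : Finset V) (hy : Close (blk y) p)
    (hm : (X.filter fun v => InBox p N (blk v)).card ≤ 15 * bb * (N * N) + 3) :
    lv y X ≤ lv y (cut X p N) + rd N := by
  let sk : ℕ → V := fun n => (65536 * p.1 + 32 * (fp 0 (2048 * N) n).1,
    65536 * p.2 + 32 * (fp 0 (2048 * N) n).2)
  have h1 : lv y (insert (corner p) (cut X p N)) ≤ lv y (cut X p N) + 2 * d1 y (corner p) :=
    lv_insert (Or.inr rfl) _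
  have h2 := d1_corner hy
  rw [d1_comm] at h2
  have h3 := lv_union_chain y (insert (corner p) (cut X p N)) sk 32 ((2048 * N) * (2048 * N))
    (fun i hi => by
      rcases Nat.eq_zero_or_pos i with h0 | h0
      · refine ⟨corner p, Or.inl (by simp), ?_⟩
        subst h0
        simp [sk, fp, corner, d1]
      · have hN : 0 < 2048 * N := Nat.pos_of_ne_zero fun h => by simp [h] at hi
        obtain ⟨j, hj, hd⟩ := fp_parent 0 hN h0
        refine ⟨sk j, Or.inr (Or.inr ⟨j, hj, rfl⟩), ?_⟩
        simp only [sk, d1] at hd ⊢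
        omega)
  have h4 := lv_union_near y (insert (corner p) (cut X p N) ∪
      (Finset.range ((2048 * N) * (2048 * N))).image sk) (X.filter fun v => InBox p N (blk v)) 64
    (fun v hv => by
      have hb := (inE_iff p N v).2 (Finset.mem_filter.1 hv).2
      simp only [inE] at hb
      push_cast at hb
      obtain ⟨n, hn, hu⟩ := exists_fp (p := 0) (N := 2048 * N)
        (u := ((v.1 - 65536 * p.1) / 32, (v.2 - 65536 * p.2) / 32)) (by
          simp only [InBox, Prod.fst_zero, Prod.snd_zero]; push_cast; omega)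
      refine ⟨sk n, Or.inl (Finset.mem_union_right _
        (Finset.mem_image_of_mem _ (Finset.mem_range.2 hn))), ?_⟩
      simp only [sk, ← hu, d1]
      omega)
  have h5 : X ⊆ insert (corner p) (cut X p N) ∪
      (Finset.range ((2048 * N) * (2048 * N))).image sk ∪ X.filter fun v => InBox p N (blk v) := by
    intro v hv
    by_cases h : InBox p N (blk v)
    · exact Finset.mem_union_right _ (Finset.mem_filter.2 ⟨hv, h⟩)
    · exact Finset.mem_union_left _ (Finset.mem_union_left _
        (Finset.mem_insert_of_mem (mem_cut.2 ⟨hv, h⟩)))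
  have h6 := lv_mono y h5
  unfold rd
  omega

def Heavy (A : Finset V) (e : V) : Prop := 15 * bb ≤ (A.filter fun v => blk v = e).card

lemma heavy_drop (x e p : V) (A X' : Finset V) (h : Heavy A e) (hp : p ∈ A) (hpe : blk p = e)
    (hX' : ∀ v ∈ X', (v ∈ A ∧ blk v ≠ e) ∨ v = p) : lv x X' + 1 ≤ lv x A := by
  have key : ∀ v, inE (65536 * e.1) (65536 * e.2) bb v ↔ blk v = e := by
    intro v
    simp only [inE, blk, bb_val, Prod.ext_iff]; push_cast; omega
  have := lv_heavy (65536 * e.1) (65536 * e.2) bb x A X' (A.filter fun v => blk v = e) p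
    ((key p).2 hpe) hp (fun v hv => (hX' v hv).imp_left fun h => ⟨h.1, fun h' => h.2 ((key v).1 h')⟩)
    (fun v hv => ⟨(Finset.mem_filter.1 hv).1, (key v).2 (Finset.mem_filter.1 hv).2⟩)
  unfold Heavy at h
  have := bb_val
  omega

lemma light_count (A : Finset V) (p : V) (N : ℕ) (h : ∀ e, InBox p N e → ¬ Heavy A e) :
    (A.filter fun v => InBox p N (blk v)).card ≤ 15 * bb * (N * N) := by
  have h1 := Finset.card_le_mul_card_image_of_maps_to (f := blk)
    (s := A.filter fun v => InBox p N (blk v)) (t := pre (fp p N) (N * N))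
    (fun v hv => mem_full.2 (Finset.mem_filter.1 hv).2) (15 * bb) (fun e he => by
      have h2 := h e (mem_full.1 he)
      unfold Heavy at h2
      have h3 : ((A.filter fun v => InBox p N (blk v)).filter fun v => blk v = e).card
          ≤ (A.filter fun v => blk v = e).card :=
        Finset.card_le_card (Finset.filter_subset_filter _ (Finset.filter_subset _ _))
      omega)
  have h2 : (pre (fp p N) (N * N)).card ≤ N * N := by
    simpa [pre] using Finset.card_image_le (s := Finset.range (N * N)) (f := fp p N)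
  exact h1.trans (Nat.mul_le_mul_left _ h2)

/-- side (in blocks) of the reservoir used at depth `m` -/
def nb (m1 m : ℕ) : ℕ := if m ≤ m1 then 0 else Nat.sqrt m + 1

def sg (m : ℕ) : ℕ := Nat.sqrt (m + 1) + 1

lemma nb_le {m1 m m' : ℕ} (h : m' ≤ m + 1) : nb m1 m' ≤ sg m := by
  have := Nat.sqrt_le_sqrt h
  unfold nb sg; split_ifs <;> omega

structure Arith (C D m1 r : ℕ) : Prop where
  up : ∀ m, m1 ≤ m → C * (2 * sg m + 3) + 2 * C + 1 ≤ m
  down : ∀ m n, m1 ≤ n → m ≤ n + 1 → m + D + 2 * rd (sg m) + C * (2 * sg m + 3) + 2 * C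
    + 14 * (65536 * nb m1 n + 1) + 4 ≤ r + (65536 * nb m1 n) * (65536 * nb m1 n)
  gap : 5 * C + 1 ≤ r
  raw : m1 + D + C ≤ r
  pos : 1 ≤ m1

theorem exists_arith (C D : ℕ) : ∃ m1 r, Arith C D m1 r := by
  let m1 := (4 * C + 8) * (4 * C + 8)
  refine ⟨m1, m1 + 1 + D + 2 * rd (sg (m1 + 1)) + C * (2 * sg (m1 + 1) + 3) + C * C + 7 * C
    + 2000000, ?_, ?_, by omega, by omega, by simp only [m1]; nlinarith⟩
  · intro m hm
    have h1 : 4 * C + 8 ≤ Nat.sqrt (m + 1) := Nat.le_sqrt.2 (by simp only [m1] at hm; omega)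
    have h2 := Nat.sqrt_le (m + 1)
    unfold sg
    generalize Nat.sqrt (m + 1) = t at *
    nlinarith
  · intro m n hn hmn
    by_cases h : n ≤ m1
    · have h1 : sg m ≤ sg (m1 + 1) := by
        have := Nat.sqrt_le_sqrt (show m + 1 ≤ m1 + 1 + 1 by omega)
        unfold sg; omega
      have h2 := rd_mono h1
      have h3 : C * (2 * sg m + 3) ≤ C * (2 * sg (m1 + 1) + 3) := Nat.mul_le_mul_left _ (by omega)
      simp only [nb, h, if_true]
      omega
    · simp only [nb, h, if_false]
      have h1 := Nat.lt_succ_sqrt n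
      have h2 : sg m ≤ Nat.sqrt n + 2 := by
        have : Nat.sqrt (m + 1) < Nat.sqrt n + 2 := Nat.sqrt_lt.2 (by
          simp only [Nat.succ_eq_add_one] at h1; nlinarith)
        unfold sg; omega
      have h3 := rd_mono h2
      have h4 : C * (2 * sg m + 3) ≤ C * (2 * (Nat.sqrt n + 2) + 3) :=
        Nat.mul_le_mul_left _ (by omega)
      simp only [Nat.succ_eq_add_one] at h1
      generalize Nat.sqrt n = t at *
      have h5 : rd (t + 2) = 8 * 65536 + 64 * ((2048 * (t + 2)) * (2048 * (t + 2)))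
          + 128 * (15 * 65536 * ((t + 2) * (t + 2)) + 3) := by unfold rd; rw [bb_val]
      have h6 : 2 * (C * t) ≤ C * C + t * t := by nlinarith [sq_nonneg ((C : ℤ) - t)]
      nlinarith

end Pool.Agent.Lamp79
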