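import Pool.Agent.Lib.MP_14152d_al.Near

/-! The ballast: half-lit blocks that keep the level inside a window. -/

namespace Pool.Agent.Lamp79

noncomputable def cells (q : V) : Finset V :=
  Finset.Ico (bb * q.1) (bb * q.1 + bb) ×ˢ Finset.Ico (bb * q.2) (bb * q.2 + bb)

lemma mem_cells {q v : V} : v ∈ cells q ↔ blk v = q := by
  simp only [cells, Finset.mem_product, Finset.mem_Ico, blk, bb_val, Prod.ext_iff]
  push_cast
  omega

/-- the lamps `X` with the blocks of `P` made half-lit -/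
noncomputable def dev (X P : Finset V) : Finset V :=
  X.filter (fun v => blk v ∉ P) ∪ (P.biUnion cells).filter black

lemma mem_dev {X P : Finset V} {v : V} :
    v ∈ dev X P ↔ (blk v ∉ P ∧ v ∈ X) ∨ (blk v ∈ P ∧ black v) := by
  simp only [dev, Finset.mem_union, Finset.mem_filter, Finset.mem_biUnion, mem_cells]
  constructor
  · rintro (h | ⟨⟨q, hq, rfl⟩, h⟩)
    · exact Or.inl ⟨h.2, h.1⟩
    · exact Or.inr ⟨hq, h⟩
  · rintro (h | h)
    · exact Or.inl ⟨h.2, h.1⟩
    · exact Or.inr ⟨⟨_, h.1, rfl⟩, h.2⟩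

lemma dev_empty (X : Finset V) : dev X ∅ = X := by
  ext v; simp [mem_dev]

lemma halfLit_dev {X P : Finset V} {u : V} (hu : u ∈ P) : HalfLit (dev X P) u := by
  intro v hv
  rw [mem_dev, hv]; simp [hu]

lemma dev_mono {X X' : Finset V} (h : X ⊆ X') (P : Finset V) : dev X P ⊆ dev X' P := by
  intro v hv
  rw [mem_dev] at hv ⊢
  exact hv.imp_left fun h' => ⟨h'.1, h h'.2⟩

lemma dev_mono_right {X P P' : Finset V} (h : P ⊆ P') (hX : ∀ v ∈ X, blk v ∈ P' → blk v ∈ P) :
    dev X P ⊆ dev X P' := by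
  intro v hv
  rw [mem_dev] at hv ⊢
  rcases hv with hv | hv
  · exact Or.inl ⟨fun h' => hv.1 (hX v hv.2 h'), hv.2⟩
  · exact Or.inr ⟨h hv.1, hv.2⟩

def IsChain (p : V) (c : ℕ → V) (n : ℕ) : Prop :=
  c 0 = p ∧ ∀ a, 0 < a → a < n → ∃ q, Close (c a) q ∧ p.1 ≤ q.1 ∧ p.2 ≤ q.2 ∧
    ∀ u, Route p q u → ∃ j < a, u = c j

def pre (c : ℕ → V) (a : ℕ) : Finset V := (Finset.range a).image c

lemma mem_pre {c : ℕ → V} {a : ℕ} {u : V} : u ∈ pre c a ↔ ∃ j < a, u = c j := by
  simp only [pre, Finset.mem_image, Finset.mem_range]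
  exact ⟨fun ⟨j, h1, h2⟩ => ⟨j, h1, h2.symm⟩, fun ⟨j, h1, h2⟩ => ⟨j, h1, h2.symm⟩⟩

lemma pre_zero (c : ℕ → V) : pre c 0 = ∅ := by simp [pre]

lemma pre_mono (c : ℕ → V) {a a' : ℕ} (h : a ≤ a') : pre c a ⊆ pre c a' := by
  intro u hu
  obtain ⟨j, h1, h2⟩ := mem_pre.1 hu
  exact mem_pre.2 ⟨j, by omega, h2⟩

lemma near_chain {C : ℕ} (hC : DevNear C) {y p : V} (hy : Close (blk y) p) {c : ℕ → V} {n : ℕ}
    (hc : IsChain p c n) (X U : Finset V) {a : ℕ} (ha : a < n) :
    Near C (y, dev X (pre c a ∪ U)) (y, dev X (pre c (a + 1) ∪ U)) := by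
  have key : ∀ v, blk v ≠ c a → (v ∈ dev X (pre c a ∪ U) ↔ v ∈ dev X (pre c (a + 1) ∪ U)) := by
    intro v hv
    have : blk v ∈ pre c a ∪ U ↔ blk v ∈ pre c (a + 1) ∪ U := by
      simp only [Finset.mem_union, mem_pre]
      refine or_congr_left ⟨fun ⟨j, h1, h2⟩ => ⟨j, by omega, h2⟩, fun ⟨j, h1, h2⟩ => ⟨j, ?_, h2⟩⟩
      have : j ≠ a := fun h => hv (h ▸ h2)
      omega
    simp only [mem_dev, this]
  rcases Nat.eq_zero_or_pos a with h0 | h0
  · refine hC y p p _ _ hy (Or.inl rfl) fun v hv => key v fun h => hv ?_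
    rw [h, h0, hc.1]; unfold Close; omega
  · obtain ⟨q, h1, h2, h3, h4⟩ := hc.2 a h0 ha
    refine hC y p q _ _ hy (Or.inr ⟨h2, h3, fun u hu => ?_⟩) fun v hv => key v fun h => hv (h ▸ h1)
    obtain ⟨j, hj, hu'⟩ := h4 u hu
    exact ⟨halfLit_dev (Finset.mem_union_left _ (mem_pre.2 ⟨j, hj, hu'⟩)),
      halfLit_dev (Finset.mem_union_left _ (mem_pre.2 ⟨j, by omega, hu'⟩))⟩

/-- row by row filling of a square of blocks -/
def fp (p : V) (N n : ℕ) : V := (p.1 + (n % N : ℕ), p.2 + (n / N : ℕ))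

def InBox (p : V) (N : ℕ) (u : V) : Prop :=
  p.1 ≤ u.1 ∧ u.1 < p.1 + N ∧ p.2 ≤ u.2 ∧ u.2 < p.2 + N

lemma fp_idx (p : V) {N i : ℕ} (hi : i < N) (j : ℕ) : fp p N (j * N + i) = (p.1 + i, p.2 + j) := by
  unfold fp
  rw [show j * N + i = i + N * j by ring, Nat.add_mul_mod_self_left, Nat.mod_eq_of_lt hi,
    Nat.add_mul_div_left _ _ (by omega), Nat.div_eq_of_lt hi, zero_add]

lemma exists_idx {N n : ℕ} (hN : 0 < N) : ∃ i j, i < N ∧ n = j * N + i :=
  ⟨n % N, n / N, Nat.mod_lt _ hN, by rw [mul_comm]; exact (Nat.div_add_mod n N).symm⟩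

lemma fp_inBox (p : V) {N n : ℕ} (hn : n < N * N) : InBox p N (fp p N n) := by
  have hN : 0 < N := Nat.pos_of_ne_zero fun h => by simp [h] at hn
  obtain ⟨i, j, hi, rfl⟩ := exists_idx (n := n) hN
  have hj : j < N := by
    by_contra h
    have : N * N ≤ j * N := Nat.mul_le_mul_right N (by omega)
    omega
  rw [fp_idx p hi]
  simp only [InBox]; omega

lemma exists_fp {p u : V} {N : ℕ} (h : InBox p N u) : ∃ n < N * N, u = fp p N n := by
  unfold InBox at h
  refine ⟨(u.2 - p.2).toNat * N + (u.1 - p.1).toNat, ?_, ?_⟩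
  · have : ((u.2 - p.2).toNat + 1) * N ≤ N * N := Nat.mul_le_mul_right N (by omega)
    have h2 : (u.1 - p.1).toNat < N := by omega
    nlinarith
  · rw [fp_idx p (by omega)]
    apply Prod.ext <;> simp only <;> omega

lemma isChain_fp (p : V) (N : ℕ) : IsChain p (fp p N) (N * N) := by
  refine ⟨by simp [fp], fun a h0 ha => ?_⟩
  have hN : 0 < N := Nat.pos_of_ne_zero fun h => by simp [h] at ha
  obtain ⟨i, j, hi, rfl⟩ := exists_idx (n := a) hN
  rw [fp_idx p hi]
  have idx : ∀ (u : V) (i' j' : ℕ), i' < N → u = (p.1 + i', p.2 + j') → j' * N + i' < j * N + i →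
      ∃ k < j * N + i, u = fp p N k := fun u i' j' h1 h2 h3 => ⟨_, h3, by rw [fp_idx p h1, h2]⟩
  rcases Nat.eq_zero_or_pos i with hi0 | hi0
  · subst hi0
    have hj : 0 < j := Nat.pos_of_ne_zero fun h => by simp [h] at h0
    refine ⟨(p.1, p.2 + j - 1), by simp only [Close]; omega, le_rfl, by simp only; omega, ?_⟩
    intro u hu
    simp only [Route] at hu
    refine idx u 0 (u.2 - p.2).toNat hN (by apply Prod.ext <;> simp only <;> omega) ?_
    have : (u.2 - p.2).toNat * N < j * N := Nat.mul_lt_mul_of_pos_right (by omega) hN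
    omega
  · refine ⟨(p.1 + i - 1, p.2 + j), by simp only [Close]; omega, by simp only; omega,
      by simp only; omega, ?_⟩
    intro u hu
    simp only [Route] at hu
    rcases hu with hu | hu
    · refine idx u 0 (u.2 - p.2).toNat hN (by apply Prod.ext <;> simp only <;> omega) ?_
      have : (u.2 - p.2).toNat * N ≤ j * N := Nat.mul_le_mul_right N (by omega)
      omega
    · exact idx u (u.1 - p.1).toNat j (by omega) (by apply Prod.ext <;> simp only <;> omega)
        (by omega)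

/-- a tentacle: first up, then to the right -/
def tp (p e : V) (n : ℕ) : V :=
  if (n : ℤ) ≤ e.2 - p.2 then (p.1, p.2 + n) else (p.1 + n - (e.2 - p.2), e.2)

def tlen (p e : V) : ℕ := (e.2 - p.2).toNat + (e.1 - p.1).toNat + 1

lemma isChain_tp (p e : V) (h2 : p.2 ≤ e.2) (n : ℕ) : IsChain p (tp p e) n := by
  refine ⟨by simp [tp, h2], fun a h0 _ => ⟨tp p e (a - 1), ?_, ?_, ?_, ?_⟩⟩
  · simp only [tp, Close]; split_ifs <;> simp only <;> omega
  · simp only [tp]; split_ifs <;> simp only <;> omega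
  · simp only [tp]; split_ifs <;> simp only <;> omega
  · intro u hu
    refine ⟨(u.2 - p.2).toNat + (u.1 - p.1).toNat, ?_, ?_⟩
    · simp only [tp, Route] at hu; split_ifs at hu <;> simp only at hu <;> omega
    · simp only [tp, Route] at hu ⊢
      split_ifs at hu ⊢ <;> simp only at hu <;> apply Prod.ext <;> simp only <;> omega

lemma mem_tent {p e : V} (h1 : p.1 ≤ e.1) (h2 : p.2 ≤ e.2) : e ∈ pre (tp p e) (tlen p e) := by
  refine mem_pre.2 ⟨(e.2 - p.2).toNat + (e.1 - p.1).toNat, by simp [tlen], ?_⟩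
  simp only [tp]
  split_ifs <;> apply Prod.ext <;> simp only <;> omega

section control
variable {C : ℕ} {lo hi : ℤ}

def Band (lo hi : ℤ) (s : St) : Prop := lo ≤ L s ∧ (L s : ℤ) ≤ hi

lemma Near.con {s t : St} (h : Near C s t) (hs : Band lo hi s) : Con (Band (lo - C) (hi + C)) s t :=
  Con.mono (fun u hu => by unfold Band at *; omega) h

lemma ivt (g : ℕ → St) (F : ℕ) (hA : ∀ a < F, Near C (g a) (g (a + 1)))
    (low : (L (g 0) : ℤ) ≤ hi - C) (high : lo + C ≤ L (g F)) (gap : lo + 3 * C ≤ hi) :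
    ∃ a ≤ F, Band (lo + C) (hi - C) (g a) := by
  classical
  have hex : ∃ a, lo + C ≤ L (g a) := ⟨F, high⟩
  have h1 := Nat.find_spec hex
  have h2 : Nat.find hex ≤ F := Nat.find_min' hex high
  refine ⟨Nat.find hex, h2, h1, ?_⟩
  rcases h3 : Nat.find hex with _ | a
  · exact low
  · have h4 := Nat.find_min hex (show a < Nat.find hex by omega)
    have h5 := (hA a (by omega)).bound
    omega

lemma column (g : ℕ → St) (F : ℕ) (hA : ∀ a < F, Near C (g a) (g (a + 1)))
    (mono : ∀ a < F, L (g a) ≤ L (g (a + 1))) {a a' : ℕ} (ha : a ≤ F) (ha' : a' ≤ F)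
    (hb : Band lo hi (g a)) (hb' : Band lo hi (g a')) : Con (Band (lo - C) (hi + C)) (g a) (g a') := by
  have m2 : ∀ a k, a + k ≤ F → L (g a) ≤ L (g (a + k)) := by
    intro a k
    induction k with
    | zero => intro _; exact le_rfl
    | succ k ih => intro h; exact (ih (by omega)).trans (mono (a + k) (by omega))
  have key : ∀ a k, a + k ≤ F → Band lo hi (g a) → Band lo hi (g (a + k)) →
      Con (Band (lo - C) (hi + C)) (g a) (g (a + k)) := by
    intro a k
    induction k with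
    | zero => intro _ _ _; exact Con.refl _ _
    | succ k ih =>
      intro h h1 h2
      have h3 : Band lo hi (g (a + k)) := by
        have := m2 a k (by omega)
        have := mono (a + k) (by omega)
        rw [← add_assoc] at h2
        unfold Band at *; omega
      exact (ih (by omega) h1 h3).trans ((hA (a + k) (by omega)).con h3)
  rcases le_total a a' with h | h
  · obtain ⟨k, rfl⟩ := Nat.exists_eq_add_of_le h
    exact key a k ha' hb hb'
  · obtain ⟨k, rfl⟩ := Nat.exists_eq_add_of_le h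
    exact (key a' k ha hb' hb).symm

lemma control (f : ℕ → ℕ → St) (T F : ℕ)
    (hA : ∀ t ≤ T, ∀ a < F, Near C (f t a) (f t (a + 1)))
    (hS : ∀ t < T, ∀ a ≤ F, Near C (f t a) (f (t + 1) a))
    (mono : ∀ t ≤ T, ∀ a < F, L (f t a) ≤ L (f t (a + 1)))
    (low : ∀ t ≤ T, (L (f t 0) : ℤ) ≤ hi - C) (high : ∀ t ≤ T, lo + C ≤ L (f t F))
    (gap : lo + 3 * C ≤ hi) : ∀ t ≤ T, ∀ a ≤ F, ∀ a' ≤ F, Band lo hi (f 0 a) → Band lo hi (f t a') →
      Con (Band (lo - C) (hi + C)) (f 0 a) (f t a') := by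
  intro t
  induction t with
  | zero =>
    intro _ a ha a' ha' h1 h2
    exact column (f 0) F (hA 0 (by omega)) (mono 0 (by omega)) ha ha' h1 h2
  | succ t ih =>
    intro ht a ha a' ha' h1 h2
    obtain ⟨b, hb, h3⟩ := ivt (f t) F (hA t (by omega)) (low t (by omega)) (high t (by omega)) gap
    have h4 : Band lo hi (f t b) := by unfold Band at *; omega
    have h5 := hS t (by omega) b hb
    have h6 : Band lo hi (f (t + 1) b) := by
      have := h5.bound
      unfold Band at *; omega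
    exact ((ih (by omega) a ha b hb h1 h4).trans (h5.con h4)).trans
      (column (f (t + 1)) F (hA _ ht) (mono _ ht) hb ha' h6 h2)

/-- the state with ballast -/
noncomputable def Dv (y : V) (X : Finset V) (p : V) (N a : ℕ) : St := (y, dev X (pre (fp p N) a))

def Lk (C : ℕ) (lo hi : ℤ) (y : V) (X : Finset V) (p : V) (N : ℕ)
    (y' : V) (X' : Finset V) (p' : V) (N' : ℕ) : Prop :=
  ∀ a ≤ N * N, ∀ a' ≤ N' * N', Band lo hi (Dv y X p N a) → Band lo hi (Dv y' X' p' N' a') →
    Con (Band (lo - C) (hi + C)) (Dv y X p N a) (Dv y' X' p' N' a')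

def Free (X : Finset V) (p : V) (N : ℕ) : Prop := ∀ v ∈ X, ¬ InBox p N (blk v)

structure Valid (C : ℕ) (lo hi : ℤ) (s : ℕ) (y : V) (X : Finset V) (p : V) (N : ℕ) : Prop where
  free : Free X p N
  close : Close (blk y) p
  up : (lv y X : ℤ) + s ≤ hi - C
  down : lo + C + s ≤ lv y (dev X (pre (fp p N) (N * N)))

lemma Valid.weaken {s s' : ℕ} {y p : V} {X : Finset V} {N : ℕ} (h : Valid C lo hi s y X p N)
    (hs : s' ≤ s) : Valid C lo hi s' y X p N :=
  ⟨h.free, h.close, by have := h.up; omega, by have := h.down; omega⟩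

lemma fill_mono {X : Finset V} {p : V} {N : ℕ} (h : Free X p N) (U : Finset V) {a a' : ℕ}
    (ha : a ≤ a') (ha' : a' ≤ N * N) :
    dev X (pre (fp p N) a ∪ U) ⊆ dev X (pre (fp p N) a' ∪ U) := by
  refine dev_mono_right (Finset.union_subset_union_left (pre_mono _ ha)) fun v hv h1 => ?_
  rcases Finset.mem_union.1 h1 with h1 | h1
  · obtain ⟨j, hj, h2⟩ := mem_pre.1 h1
    exact absurd (h2 ▸ fp_inBox p (by omega)) (h v hv)
  · exact Finset.mem_union_right _ h1

lemma Valid.near (hC : DevNear C) {s : ℕ} {y p : V} {X : Finset V} {N : ℕ}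
    (h : Valid C lo hi s y X p N) : ∀ a < N * N, Near C (Dv y X p N a) (Dv y X p N (a + 1)) := by
  intro a ha
  simpa only [Finset.union_empty, Dv] using near_chain hC h.close (isChain_fp p N) X ∅ ha

lemma Valid.mono {s : ℕ} {y p : V} {X : Finset V} {N : ℕ} (h : Valid C lo hi s y X p N) :
    ∀ a < N * N, L (Dv y X p N a) ≤ L (Dv y X p N (a + 1)) := by
  intro a ha
  apply lv_mono
  simpa only [Finset.union_empty, Dv] using fill_mono h.free ∅ (show a ≤ a + 1 by omega) ha

lemma Valid.exists_band (hC : DevNear C) (gap : lo + 3 * C ≤ hi) {s : ℕ} {y p : V} {X : Finset V}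
    {N : ℕ} (h : Valid C lo hi s y X p N) : ∃ a ≤ N * N, Band (lo + C) (hi - C) (Dv y X p N a) := by
  refine ivt _ _ (h.near hC) ?_ ?_ gap
  · have := h.up
    simp only [Dv, pre_zero, dev_empty, L]; omega
  · have := h.down
    simp only [Dv, L]; omega

lemma Valid.lk_self (hC : DevNear C) {s : ℕ} {y p : V} {X : Finset V}
    {N : ℕ} (h : Valid C lo hi s y X p N) : Lk C lo hi y X p N y X p N :=
  fun _ ha _ ha' h1 h2 => column _ _ (h.near hC) h.mono ha ha' h1 h2

lemma Lk.trans (hC : DevNear C) (gap : lo + 3 * C ≤ hi) {s : ℕ} {y p y' p' y'' p'' : V}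
    {X X' X'' : Finset V} {N N' N'' : ℕ} (h : Valid C lo hi s y' X' p' N')
    (h1 : Lk C lo hi y X p N y' X' p' N') (h2 : Lk C lo hi y' X' p' N' y'' X'' p'' N'') :
    Lk C lo hi y X p N y'' X'' p'' N'' := by
  intro a ha a'' ha'' b1 b2
  obtain ⟨a', ha', b3⟩ := h.exists_band hC gap
  have b4 : Band lo hi (Dv y' X' p' N' a') := by unfold Band at *; omega
  exact (h1 a ha a' ha' b1 b4).trans (h2 a' ha' a'' ha'' b4 b2)

lemma drift (g : ℕ → St) (T : ℕ) (h : ∀ t < T, Near C (g t) (g (t + 1))) :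
    ∀ t ≤ T, L (g t) ≤ L (g 0) + C * t ∧ L (g 0) ≤ L (g t) + C * t := by
  intro t
  induction t with
  | zero => intro _; simp
  | succ t ih =>
    intro ht
    have := ih (by omega)
    have := (h t (by omega)).bound
    rw [mul_add]; omega

lemma tent_control (hC : DevNear C) (gap : lo + 3 * C ≤ hi) {s : ℕ} {y p q e : V} {X : Finset V}
    {N : ℕ} (h : Valid C lo hi s y X p N) (hq : Close (blk y) q) (h2 : q.2 ≤ e.2)
    (hs : C * tlen q e ≤ s) :
    (∃ b ≤ N * N, Band lo hi (y, dev X (pre (fp p N) b ∪ pre (tp q e) (tlen q e)))) ∧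
    ∀ a ≤ N * N, ∀ b ≤ N * N, Band lo hi (Dv y X p N a) →
      Band lo hi (y, dev X (pre (fp p N) b ∪ pre (tp q e) (tlen q e))) →
      Con (Band (lo - C) (hi + C)) (Dv y X p N a)
        (y, dev X (pre (fp p N) b ∪ pre (tp q e) (tlen q e))) := by
  let f : ℕ → ℕ → St := fun t a => (y, dev X (pre (fp p N) a ∪ pre (tp q e) t))
  have hA : ∀ t, ∀ a < N * N, Near C (f t a) (f t (a + 1)) := fun t a ha =>
    near_chain hC h.close (isChain_fp p N) X _ ha
  have hS : ∀ t a, Near C (f t a) (f (t + 1) a) := fun t a => by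
    simp only [f, Finset.union_comm (pre (fp p N) a)]
    exact near_chain hC hq (isChain_tp q e h2 (t + 1)) X _ (by omega)
  have f0 : ∀ a, f 0 a = Dv y X p N a := fun a => by simp only [f, Dv, pre_zero, Finset.union_empty]
  have low : ∀ t ≤ tlen q e, (L (f t 0) : ℤ) ≤ hi - C := by
    intro t ht
    have h3 := (drift (fun t => f t 0) (tlen q e) (fun t _ => hS t 0) t ht).1
    have h4 := h.up
    have h5 : C * t ≤ C * tlen q e := Nat.mul_le_mul_left _ ht
    simp only [f0, Dv, pre_zero, dev_empty] at h3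
    simp only [L] at h3 ⊢
    omega
  have high : ∀ t ≤ tlen q e, lo + C ≤ L (f t (N * N)) := by
    intro t ht
    have h3 := (drift (fun t => f t (N * N)) (tlen q e) (fun t _ => hS t _) t ht).2
    have h4 := h.down
    have h5 : C * t ≤ C * tlen q e := Nat.mul_le_mul_left _ ht
    simp only [f0, Dv] at h3
    simp only [L] at h3 ⊢
    omega
  constructor
  · obtain ⟨b, hb, h3⟩ := ivt (f (tlen q e)) (N * N) (hA _) (low _ le_rfl) (high _ le_rfl) gap
    exact ⟨b, hb, by unfold Band at *; simp only [f] at h3; omega⟩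
  · intro a ha b hb b1 b2
    rw [← f0] at b1 ⊢
    exact control f (tlen q e) (N * N) (fun t _ => hA t) (fun t _ a _ => hS t a)
      (fun t _ a ha => lv_mono y (fill_mono h.free _ (by omega) ha)) low high gap _ le_rfl a ha b hb
      b1 b2

lemma lk_toggle (hC : DevNear C) (gap : lo + 3 * C ≤ hi) {s : ℕ} {y p q e : V} {X X' : Finset V}
    {N : ℕ} (h : Valid C lo hi s y X p N) (h' : Valid C lo hi s y X' p N) (hq : Close (blk y) q)
    (h1 : q.1 ≤ e.1) (h2 : q.2 ≤ e.2) (hs : C * tlen q e ≤ s)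
    (hX : ∀ v, blk v ≠ e → (v ∈ X ↔ v ∈ X')) : Lk C lo hi y X p N y X' p N := by
  obtain ⟨⟨b, hb, b0⟩, k1⟩ := tent_control hC gap h hq h2 hs
  obtain ⟨-, k2⟩ := tent_control hC gap h' hq h2 hs
  have heq : dev X (pre (fp p N) b ∪ pre (tp q e) (tlen q e))
      = dev X' (pre (fp p N) b ∪ pre (tp q e) (tlen q e)) := by
    ext v
    rw [mem_dev, mem_dev]
    refine or_congr_left (and_congr_right fun hv => hX v fun h3 => hv ?_)
    rw [h3]; exact Finset.mem_union_right _ (mem_tent h1 h2)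
  intro a ha a' ha' b1 b2
  exact (k1 a ha b hb b1 b0).trans (heq ▸ (k2 a' ha' b hb b2 (heq ▸ b0)).symm)

lemma valid_between {s : ℕ} {y p : V} {X X0 X1 : Finset V} {N : ℕ} (hc : Close (blk y) p)
    (up : (lv y X1 : ℤ) + s ≤ hi - C) (down : lo + C + s ≤ lv y (dev X0 (pre (fp p N) (N * N))))
    (h0 : X0 ⊆ X) (h1 : X ⊆ X1) (hf : Free X p N) : Valid C lo hi s y X p N :=
  ⟨hf, hc, by have := lv_mono y h1; omega,
    by have := lv_mono y (dev_mono h0 (pre (fp p N) (N * N))); omega⟩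

lemma lk_multi (hC : DevNear C) (gap : lo + 3 * C ≤ hi) {s : ℕ} {y p q : V} {X0 X1 : Finset V}
    {N : ℕ} (hc : Close (blk y) p) (hq : Close (blk y) q)
    (up : (lv y X1 : ℤ) + s ≤ hi - C) (down : lo + C + s ≤ lv y (dev X0 (pre (fp p N) (N * N))))
    (U : Finset V) (hU : ∀ e ∈ U, q.1 ≤ e.1 ∧ q.2 ≤ e.2 ∧ C * tlen q e ≤ s)
    (X X' : Finset V) (h0 : X0 ⊆ X) (h1 : X ⊆ X1) (hf : Free X p N)
    (h0' : X0 ⊆ X') (h1' : X' ⊆ X1) (hf' : Free X' p N)
    (hX : ∀ v, blk v ∉ U → (v ∈ X ↔ v ∈ X')) : Lk C lo hi y X p N y X' p N := by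
  induction U using Finset.induction_on generalizing X with
  | empty =>
    have : X = X' := by ext v; exact hX v (by simp)
    subst this
    exact (valid_between hc up down h0 h1 hf).lk_self hC
  | insert e U he ih =>
    let Y : Finset V := X.filter (fun v => blk v ≠ e) ∪ X'.filter fun v => blk v = e
    have hY : ∀ v, v ∈ Y ↔ (v ∈ X ∧ blk v ≠ e) ∨ (v ∈ X' ∧ blk v = e) := by
      intro v; simp only [Y, Finset.mem_union, Finset.mem_filter]
    have y0 : X0 ⊆ Y := by
      intro v hv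
      rw [hY]
      by_cases h : blk v = e
      · exact Or.inr ⟨h0' hv, h⟩
      · exact Or.inl ⟨h0 hv, h⟩
    have y1 : Y ⊆ X1 := by
      intro v hv
      rcases (hY v).1 hv with h | h
      · exact h1 h.1
      · exact h1' h.1
    have yf : Free Y p N := by
      intro v hv
      rcases (hY v).1 hv with h | h
      · exact hf v h.1
      · exact hf' v h.1
    have v1 := valid_between hc up down h0 h1 hf
    have v2 := valid_between hc up down y0 y1 yf
    obtain ⟨a1, a2, a3⟩ := hU e (by simp)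
    refine Lk.trans hC gap v2 (lk_toggle hC gap v1 v2 hq a1 a2 a3 fun v hv => ?_)
      (ih (fun e' he' => hU e' (Finset.mem_insert_of_mem he')) Y y0 y1 yf fun v hv => ?_)
    · rw [hY]; simp [hv]
    · rw [hY]
      by_cases h : blk v = e
      · simp [h]
      · rw [← hX v (by simp [h, hv])]; simp [h]

lemma lk_hop (hC : DevNear C) (gap : lo + 3 * C ≤ hi) {s : ℕ} {y p p' : V} {X : Finset V}
    {N N' : ℕ} (h : Valid C lo hi s y X p N) (h' : Valid C lo hi s y X p' N') :
    Lk C lo hi y X p N y X p' N' := by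
  obtain ⟨b, hb, b0⟩ := h'.exists_band hC gap
  let f : ℕ → ℕ → St := fun t a => (y, dev X (pre (fp p N) a ∪ pre (fp p' N') t))
  have f0 : ∀ a, f 0 a = Dv y X p N a := fun a => by simp only [f, Dv, pre_zero, Finset.union_empty]
  have f1 : ∀ t, f t 0 = Dv y X p' N' t := fun a => by simp only [f, Dv, pre_zero, Finset.empty_union]
  have m2 : ∀ a t t', t ≤ t' → t' ≤ N' * N' → L (f t a) ≤ L (f t' a) := by
    intro a t t' h1 h2
    simp only [f, Finset.union_comm (pre (fp p N) a)]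
    exact lv_mono y (fill_mono h'.free _ h1 h2)
  intro a ha a' ha' b1 b2
  have b3 : Band lo hi (Dv y X p' N' b) := by unfold Band at *; omega
  refine Con.trans ?_ (h'.lk_self hC b hb a' ha' b3 b2)
  rw [← f0] at b1 ⊢
  rw [← f1] at b3 b0 ⊢
  refine control f b (N * N) (fun t _ a ha => near_chain hC h.close (isChain_fp p N) X _ ha)
    (fun t ht a _ => ?_) (fun t _ a ha => lv_mono y (fill_mono h.free _ (by omega) ha))
    (fun t ht => ?_) (fun t ht => ?_) gap b le_rfl a ha 0 (by omega) b1 b3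
  · simp only [f, Finset.union_comm (pre (fp p N) a)]
    exact near_chain hC h'.close (isChain_fp p' N') X _ (by omega)
  · have := m2 0 t b ht hb
    unfold Band at b0; omega
  · have h1 := m2 (N * N) 0 t (by omega) (by omega)
    have h2 := h.down
    rw [f0] at h1
    simp only [Dv, L] at h1 ⊢; omega

lemma lk_step (hC : DevNear C) (hC1 : 1 ≤ C) (gap : lo + 3 * C ≤ hi) {s : ℕ} {y y' p : V}
    {X X' : Finset V} {N : ℕ} (h : Valid C lo hi s y X p N) (h' : Valid C lo hi s y' X' p N)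
    (hs : Step (y, X) (y', X')) : Lk C lo hi y X p N y' X' p N := by
  obtain ⟨b, hb, b0⟩ := h.exists_band hC gap
  have st : Near C (Dv y X p N b) (Dv y' X' p N b) := by
    refine Near.mono hC1 (Step.near ⟨hs.1, fun v a1 a2 => ?_⟩)
    simp only [Dv, mem_dev]
    rw [hs.2 v a1 a2]
  have b3 : Band lo hi (Dv y X p N b) := by unfold Band at *; omega
  have b4 : Band lo hi (Dv y' X' p N b) := by
    have := st.bound
    unfold Band at *; omega
  intro a ha a' ha' b1 b2
  exact ((h.lk_self hC a ha b hb b1 b3).trans (st.con b3)).trans (h'.lk_self hC b hb a' ha' b4 b2)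

end control

end Pool.Agent.Lamp79
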