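import Pool.Agent.Lib.MP_14152d_al.Walk

/-! Finite multigraphs on the square lattice, Euler trails and parity joins. -/

namespace Pool.Agent.Lamp79
open Finsupp

abbrev E := V × Bool

def src (e : E) : V := e.1
def dst (e : E) : V := if e.2 then (e.1.1, e.1.2 + 1) else (e.1.1 + 1, e.1.2)

def deg (m : E →₀ ℕ) (v : V) : ℕ :=
  m (v, false) + m ((v.1 - 1, v.2), false) + m (v, true) + m ((v.1, v.2 - 1), true)

def sz (m : E →₀ ℕ) : ℕ := m.sum fun _ n => n

def ind (s v : V) : ℕ := if v = s then 1 else 0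

def Par (m : E →₀ ℕ) (s t : V) : Prop := ∀ v, (deg m v + ind s v + ind t v) % 2 = 0

def Link (m : E →₀ ℕ) (u v : V) : Prop :=
  ∃ e, 0 < m e ∧ ((src e = u ∧ dst e = v) ∨ (src e = v ∧ dst e = u))

def Conn (m : E →₀ ℕ) : V → V → Prop := Relation.ReflTransGen (Link m)

lemma d1_src_dst (e : E) : d1 (src e) (dst e) = 1 := by
  obtain ⟨⟨a, b⟩, c⟩ := e
  cases c <;> simp [src, dst, d1]

lemma exists_edge {u v : V} (h : d1 u v = 1) :
    ∃ e, (src e = u ∧ dst e = v) ∨ (src e = v ∧ dst e = u) := by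
  obtain ⟨a, b⟩ := u
  obtain ⟨c, d⟩ := v
  unfold d1 at h
  simp only at h
  by_cases h1 : c = a + 1
  · exact ⟨((a, b), false), Or.inl ⟨rfl, by simp [dst]; omega⟩⟩
  by_cases h2 : a = c + 1
  · exact ⟨((c, d), false), Or.inr ⟨rfl, by simp [dst]; omega⟩⟩
  by_cases h3 : d = b + 1
  · exact ⟨((a, b), true), Or.inl ⟨rfl, by simp [dst]; omega⟩⟩
  · exact ⟨((c, d), true), Or.inr ⟨rfl, by simp [dst]; omega⟩⟩

lemma deg_add (m m' : E →₀ ℕ) (v : V) : deg (m + m') v = deg m v + deg m' v := by
  simp only [deg, Finsupp.add_apply]; omega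

lemma deg_zero (v : V) : deg 0 v = 0 := by simp [deg]

lemma deg_single (e : E) (n : ℕ) (v : V) :
    deg (single e n) v = (if src e = v then n else 0) + (if dst e = v then n else 0) := by
  obtain ⟨⟨a, b⟩, c⟩ := e
  obtain ⟨x, y⟩ := v
  cases c
  · simp only [deg, Finsupp.single_apply, src, dst, Prod.mk.injEq, Bool.false_eq_true, if_false,
      and_true, and_false]
    have : (a = x - 1 ∧ b = y) ↔ (a + 1 = x ∧ b = y) := by omega
    simp only [this]; omega
  · simp only [deg, Finsupp.single_apply, src, dst, Prod.mk.injEq, if_true, and_true,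
      Bool.true_eq_false, and_false, if_false]
    have : (a = x ∧ b = y - 1) ↔ (a = x ∧ b + 1 = y) := by omega
    simp only [this]; omega

lemma sz_add (m m' : E →₀ ℕ) : sz (m + m') = sz m + sz m' := by
  unfold sz; rw [Finsupp.sum_add_index'] <;> simp

lemma sz_single (e : E) (n : ℕ) : sz (single e n) = n := by simp [sz]

lemma sz_zero : sz 0 = 0 := by simp [sz]

lemma sz_mono {m m' : E →₀ ℕ} (h : ∀ e, m e ≤ m' e) : sz m ≤ sz m' := by
  have : m' = m + (m' - m) := by
    ext e; simp only [Finsupp.add_apply, Finsupp.tsub_apply]; have := h e; omega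
  rw [this, sz_add]; omega

lemma sum_deg (m : E →₀ ℕ) (S : Finset V) :
    ∑ v ∈ S, deg m v
      = m.sum fun e n => n * ((if src e ∈ S then 1 else 0) + (if dst e ∈ S then 1 else 0)) := by
  induction m using Finsupp.induction_linear with
  | zero => simp [deg_zero]
  | add f g hf hg =>
    rw [Finsupp.sum_add_index' (by simp) (by intro a b c; ring), ← hf, ← hg,
      ← Finset.sum_add_distrib]
    exact Finset.sum_congr rfl fun v _ => deg_add f g v
  | single e n =>
    rw [Finsupp.sum_single_index (by simp)]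
    simp only [deg_single, Finset.sum_add_distrib, Finset.sum_ite_eq]
    split_ifs <;> ring

lemma sum_ind (s : V) (S : Finset V) (h : s ∈ S) : ∑ v ∈ S, ind s v = 1 := by
  simp [ind, h]

lemma handshake {m : E →₀ ℕ} {s t z : V}
    (h : ∀ v, v ≠ z → (deg m v + ind s v + ind t v) % 2 = 0) : Par m s t := by
  intro v
  by_cases hv : v ≠ z
  · exact h v hv
  have hv : v = z := by simpa using hv
  subst hv
  set S : Finset V := insert v (insert s (insert t (m.support.image src ∪ m.support.image dst)))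
    with hS
  have h1 : ∑ w ∈ S, deg m w = 2 * sz m := by
    rw [sum_deg, sz, Finsupp.sum, Finsupp.sum, Finset.mul_sum]
    refine Finset.sum_congr rfl fun e he => ?_
    have h1 : src e ∈ S := by
      simp only [hS, Finset.mem_insert, Finset.mem_union, Finset.mem_image]
      exact Or.inr (Or.inr (Or.inr (Or.inl ⟨e, he, rfl⟩)))
    have h2 : dst e ∈ S := by
      simp only [hS, Finset.mem_insert, Finset.mem_union, Finset.mem_image]
      exact Or.inr (Or.inr (Or.inr (Or.inr ⟨e, he, rfl⟩)))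
    simp [h1, h2]; ring
  have h2 : ∑ w ∈ S, (deg m w + ind s w + ind t w) = 2 * sz m + 2 := by
    rw [Finset.sum_add_distrib, Finset.sum_add_distrib, h1, sum_ind s S (by simp [hS]),
      sum_ind t S (by simp [hS])]
  have hvS : v ∈ S := by simp [hS]
  rw [← Finset.add_sum_erase S _ hvS] at h2
  have h3 : 2 ∣ ∑ w ∈ S.erase v, (deg m w + ind s w + ind t w) :=
    Finset.dvd_sum fun w hw => Nat.dvd_of_mod_eq_zero (h w (Finset.ne_of_mem_erase hw))
  omega

lemma Link.symm {m : E →₀ ℕ} {u v : V} (h : Link m u v) : Link m v u := by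
  obtain ⟨e, he, h⟩ := h
  exact ⟨e, he, h.symm⟩

lemma Link.d1 {m : E →₀ ℕ} {u v : V} (h : Link m u v) : d1 u v = 1 := by
  obtain ⟨e, -, ⟨h1, h2⟩ | ⟨h1, h2⟩⟩ := h
  · rw [← h1, ← h2]; exact d1_src_dst e
  · rw [← h1, ← h2, d1_comm]; exact d1_src_dst e

lemma Conn.refl (m : E →₀ ℕ) (v : V) : Conn m v v := Relation.ReflTransGen.refl

lemma Conn.trans {m : E →₀ ℕ} {u v w : V} (h : Conn m u v) (h' : Conn m v w) : Conn m u w :=
  Relation.ReflTransGen.trans h h'

lemma Link.conn {m : E →₀ ℕ} {u v : V} (h : Link m u v) : Conn m u v :=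
  Relation.ReflTransGen.single h

lemma Conn.symm {m : E →₀ ℕ} {u v : V} (h : Conn m u v) : Conn m v u := by
  induction h with
  | refl => exact Conn.refl _ _
  | tail _ hl ih => exact hl.symm.conn.trans ih

lemma conn_edge {m : E →₀ ℕ} {e : E} (h : 0 < m e) : Conn m (src e) (dst e) :=
  Link.conn ⟨e, h, Or.inl ⟨rfl, rfl⟩⟩

lemma Conn.transfer {m m' : E →₀ ℕ} (φ : V → V)
    (h : ∀ e, 0 < m e → Conn m' (φ (src e)) (φ (dst e))) {a b : V} (hab : Conn m a b) :
    Conn m' (φ a) (φ b) := by
  induction hab with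
  | refl => exact Conn.refl _ _
  | tail _ hl ih =>
    obtain ⟨e, he, ⟨h1, h2⟩ | ⟨h1, h2⟩⟩ := hl
    · exact ih.trans (h1 ▸ h2 ▸ h e he)
    · exact ih.trans (h1 ▸ h2 ▸ (h e he).symm)

lemma Conn.mono {m m' : E →₀ ℕ} (h : ∀ e, 0 < m e → 0 < m' e) {a b : V} (hab : Conn m a b) :
    Conn m' a b :=
  Conn.transfer id (fun e he => conn_edge (h e he)) hab

lemma le_deg_src (m : E →₀ ℕ) (e : E) : m e ≤ deg m (src e) := by
  obtain ⟨⟨a, b⟩, c⟩ := e
  cases c <;> simp only [deg, src] <;> omega

lemma le_deg_dst (m : E →₀ ℕ) (e : E) : m e ≤ deg m (dst e) := by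
  obtain ⟨⟨a, b⟩, c⟩ := e
  cases c <;> simp [deg, dst] <;> omega

lemma Link.deg_pos {m : E →₀ ℕ} {u v : V} (h : Link m u v) : 0 < deg m v := by
  obtain ⟨e, he, ⟨-, h2⟩ | ⟨h1, -⟩⟩ := h
  · rw [← h2]; exact lt_of_lt_of_le he (le_deg_dst m e)
  · rw [← h1]; exact lt_of_lt_of_le he (le_deg_src m e)

lemma two_le_deg {m : E →₀ ℕ} {s t v : V} (hp : Par m s t) (hc : Conn m s v) (hs : v ≠ s)
    (ht : v ≠ t) : 2 ≤ deg m v := by
  have h1 := hp v
  simp only [ind, hs, ht, if_false] at h1
  rcases Relation.ReflTransGen.cases_tail hc with h | ⟨w, -, hl⟩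
  · exact absurd h hs
  · have := hl.deg_pos; omega

open Classical in
lemma deg_filter_not {m : E →₀ ℕ} {u v : V} :
    deg (m.filter fun e => ¬ Conn m u (src e)) v = if Conn m u v then 0 else deg m v := by
  have key : ∀ e : E, (src e = v ∨ dst e = v) →
      (m.filter fun e => ¬ Conn m u (src e)) e = if Conn m u v then 0 else m e := by
    intro e he
    rw [Finsupp.filter_apply]
    rcases Nat.eq_zero_or_pos (m e) with h0 | h0
    · simp [h0]
    · have : Conn m u (src e) ↔ Conn m u v := by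
        rcases he with he | he
        · rw [he]
        · rw [← he]
          exact ⟨fun h => h.trans (conn_edge h0), fun h => h.trans (conn_edge h0).symm⟩
      rw [this]; split_ifs <;> rfl
  obtain ⟨x, y⟩ := v
  simp only [deg]
  rw [key _ (Or.inl rfl), key _ (Or.inr (by simp [dst])), key _ (Or.inl rfl),
    key _ (Or.inr (by simp [dst]))]
  split_ifs <;> rfl

theorem euler (n : ℕ) : ∀ (m : E →₀ ℕ) (s t : V), sz m = n → Par m s t →
    (∀ e, 0 < m e → Conn m s (src e)) → ∃ S, Tr s t n S ∧ ∀ v, Conn m s v → v ∈ S := by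
  classical
  induction n using Nat.strong_induction_on with
  | _ n ih =>
  intro m s t hn hp hc
  by_cases hm : m = 0
  · subst hm
    have h1 := hp s
    have hst : s = t := by
      by_contra hne
      simp [deg_zero, ind, hne] at h1
    subst hst
    rw [sz_zero] at hn
    subst hn
    refine ⟨{s}, Tr.nil, fun v hv => ?_⟩
    rcases Relation.ReflTransGen.cases_tail hv with h | ⟨w, -, ⟨e, he, -⟩⟩
    · simp [h]
    · simp at he
  obtain ⟨e0, he0⟩ : ∃ e, 0 < m e := by
    by_contra hne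
    apply hm
    ext e
    have : ¬ 0 < m e := fun h => hne ⟨e, h⟩
    simp only [Finsupp.coe_zero, Pi.zero_apply]; omega
  obtain ⟨u, hsu⟩ : ∃ u, Link m s u := by
    rcases Relation.ReflTransGen.cases_head (hc e0 he0) with h | ⟨w, hl, -⟩
    · exact ⟨dst e0, e0, he0, Or.inl ⟨h.symm, rfl⟩⟩
    · exact ⟨w, hl⟩
  have hd := hsu.d1
  obtain ⟨e, he, hends⟩ := hsu
  set m' : E →₀ ℕ := m - single e 1 with hm'
  have hmm : m = m' + single e 1 := by
    ext f
    simp only [hm', Finsupp.add_apply, Finsupp.tsub_apply, Finsupp.single_apply]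
    split_ifs with h
    · subst h; omega
    · omega
  have hp' : Par m' u t := by
    intro v
    have h1 := hp v
    rw [hmm, deg_add, deg_single] at h1
    rcases hends with ⟨h2, h3⟩ | ⟨h2, h3⟩ <;> rw [h2, h3] at h1 <;>
      simp only [ind, eq_comm (a := v)] at h1 ⊢ <;> split_ifs at h1 ⊢ <;> omega
  have hsplit : ∀ v, Conn m s v → Conn m' s v ∨ Conn m' u v := by
    intro v hv
    induction hv with
    | refl => exact Or.inl (Conn.refl _ _)
    | @tail a b _ hl ih =>
      obtain ⟨f, hf, hfe⟩ := hl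
      by_cases hfe' : f = e
      · subst hfe'
        rcases hends with ⟨h2, h3⟩ | ⟨h2, h3⟩ <;> rcases hfe with ⟨h4, h5⟩ | ⟨h4, h5⟩
        · exact Or.inr (h5 ▸ h3 ▸ Conn.refl _ _)
        · exact Or.inl (h4 ▸ h2 ▸ Conn.refl _ _)
        · exact Or.inl (h5 ▸ h3 ▸ Conn.refl _ _)
        · exact Or.inr (h4 ▸ h2 ▸ Conn.refl _ _)
      · have hf' : 0 < m' f := by
          simp only [hm', Finsupp.tsub_apply, Finsupp.single_apply, Ne.symm hfe', if_false]
          omega
        have hl' : Link m' a b := ⟨f, hf', hfe⟩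
        exact ih.imp (fun h => h.trans hl'.conn) (fun h => h.trans hl'.conn)
  set m1 : E →₀ ℕ := m'.filter fun e => ¬ Conn m' u (src e) with hm1
  set m2 : E →₀ ℕ := m'.filter fun e => Conn m' u (src e) with hm2
  have h12 : m' = m2 + m1 := by
    rw [hm1, hm2]; exact (Finsupp.filter_add_filter_not m' _).symm
  have hc1 : ∀ v, Conn m' s v → ¬ Conn m' u v → Conn m1 s v := by
    intro v hv
    induction hv with
    | refl => intro _; exact Conn.refl _ _
    | @tail a b _ hl ih =>
      intro hb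
      have ha : ¬ Conn m' u a := fun h => hb (h.trans hl.conn)
      obtain ⟨f, hf, hfe⟩ := hl
      refine (ih ha).trans (Link.conn ⟨f, ?_, hfe⟩)
      rw [hm1, Finsupp.filter_apply, if_pos]
      · exact hf
      · rcases hfe with ⟨h, -⟩ | ⟨h, -⟩ <;> rw [h] <;> assumption
  have hc2 : ∀ v, Conn m' u v → Conn m2 u v := by
    intro v hv
    induction hv with
    | refl => exact Conn.refl _ _
    | @tail a b ha hl ih =>
      have hb : Conn m' u b := Conn.trans ha hl.conn
      obtain ⟨f, hf, hfe⟩ := hl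
      refine ih.trans (Link.conn ⟨f, ?_, hfe⟩)
      rw [hm2, Finsupp.filter_apply, if_pos]
      · exact hf
      · rcases hfe with ⟨h, -⟩ | ⟨h, -⟩ <;> rw [h] <;> assumption
  have hp1 : Par m1 s s := by
    apply handshake (z := t)
    intro v hv
    have h1 := hp' v
    rw [hm1, deg_filter_not]
    split_ifs with h
    · omega
    · have hvu : v ≠ u := fun h' => h (h' ▸ Conn.refl _ _)
      simp only [ind, hv, hvu, if_false] at h1
      omega
  have hp2 : Par m2 u t := by
    intro v
    have h1 := hp' v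
    have h2 := hp1 v
    rw [h12, deg_add] at h1
    omega
  have hsz : sz m1 + 1 + sz m2 = n := by
    rw [← hn, hmm, sz_add, sz_single, h12, sz_add]; omega
  have hm'm : ∀ f, 0 < m' f → 0 < m f := by
    intro f hf; rw [hmm, Finsupp.add_apply]; omega
  obtain ⟨S1, hS1, hv1⟩ := ih (sz m1) (by omega) m1 s s rfl hp1 (by
    intro f hf
    rw [hm1, Finsupp.filter_apply] at hf
    split_ifs at hf with h
    · omega
    · exact hc1 _ ((hsplit _ (hc f (hm'm f hf))).resolve_right h) h)
  obtain ⟨S2, hS2, hv2⟩ := ih (sz m2) (by omega) m2 u t rfl hp2 (by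
    intro f hf
    rw [hm2, Finsupp.filter_apply] at hf
    split_ifs at hf with h
    · exact hc2 _ h
    · omega)
  refine ⟨_, hsz ▸ (Tr.step hS1 hd).trans hS2, fun v hv => ?_⟩
  by_cases h : Conn m' u v
  · exact Finset.mem_union_right _ (hv2 v (hc2 v h))
  · exact Finset.mem_union_left _ (Finset.mem_insert_of_mem
      (hv1 v (hc1 v ((hsplit v hv).resolve_right h) h)))

lemma Tr.multi {s t : V} {n : ℕ} {S : Finset V} (h : Tr s t n S) :
    ∃ m : E →₀ ℕ, sz m = n ∧ Par m s t ∧ (∀ v ∈ S, Conn m s v) ∧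
      ∀ e, 0 < m e → Conn m s (src e) := by
  induction h with
  | nil =>
    refine ⟨0, sz_zero, fun v => by rw [deg_zero]; omega, fun v hv => ?_, fun e he => by simp at he⟩
    rw [Finset.mem_singleton.1 hv]; exact Conn.refl _ _
  | @step a b k T hT hab ih =>
    obtain ⟨m, h1, h2, h3, h4⟩ := ih
    obtain ⟨e, he⟩ := exists_edge hab
    have hmono : ∀ f, 0 < m f → 0 < (m + single e 1 : E →₀ ℕ) f := by
      intro f hf; rw [Finsupp.add_apply]; omega
    have hl : Link (m + single e 1) a b := ⟨e, by simp, he⟩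
    have ha : Conn (m + single e 1) s a := (h3 a hT.end_mem).mono hmono
    refine ⟨m + single e 1, by rw [sz_add, sz_single, h1], fun v => ?_, fun v hv => ?_,
      fun f hf => ?_⟩
    · have h5 := h2 v
      rw [deg_add, deg_single]
      rcases he with ⟨h6, h7⟩ | ⟨h6, h7⟩ <;> rw [h6, h7] <;>
        simp only [ind, eq_comm (a := v)] at h5 ⊢ <;> split_ifs at h5 ⊢ <;> omega
    · rcases Finset.mem_insert.1 hv with rfl | hv
      · exact ha.trans hl.conn
      · exact (h3 v hv).mono hmono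
    · by_cases hfe : f = e
      · subst hfe
        rcases he with ⟨h6, -⟩ | ⟨h6, -⟩ <;> rw [h6]
        · exact ha
        · exact ha.trans hl.conn
      · have : 0 < m f := by
          simpa [Finsupp.single_apply, Ne.symm hfe] using hf
        exact (h4 f this).mono hmono

lemma exists_multi (y : V) (X : Finset V) : ∃ m : E →₀ ℕ, sz m = lv y X ∧ Par m 0 y ∧
    (∀ v ∈ X, Conn m 0 v) ∧ ∀ e, 0 < m e → Conn m 0 (src e) := by
  obtain ⟨S, hS, hX⟩ := lv_spec y X
  obtain ⟨m, h1, h2, h3, h4⟩ := hS.multi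
  exact ⟨m, h1, h2, fun v hv => h3 v (hX hv), h4⟩

lemma lv_le_multi {y : V} {X : Finset V} {m : E →₀ ℕ} (hp : Par m 0 y)
    (hX : ∀ v ∈ X, Conn m 0 v) (hc : ∀ e, 0 < m e → Conn m 0 (src e)) : lv y X ≤ sz m := by
  obtain ⟨S, hS, hv⟩ := euler _ m 0 y rfl hp hc
  exact lv_le hS fun v h => hv v (hX v h)

lemma join_one {Y : E →₀ ℕ} {z v : V} (h : Conn Y z v) :
    ∃ c : E →₀ ℕ, (∀ e, 0 < c e → 0 < Y e) ∧ Par c z v := by
  induction h with
  | refl => exact ⟨0, fun e he => by simp at he, fun v => by rw [deg_zero]; omega⟩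
  | @tail a b _ hl ih =>
    obtain ⟨c, h1, h2⟩ := ih
    obtain ⟨e, he, hends⟩ := hl
    refine ⟨c + single e 1, fun f hf => ?_, fun v => ?_⟩
    · by_cases hfe : f = e
      · rw [hfe]; exact he
      · apply h1; simpa [Finsupp.single_apply, Ne.symm hfe] using hf
    · have h5 := h2 v
      rw [deg_add, deg_single]
      rcases hends with ⟨h6, h7⟩ | ⟨h6, h7⟩ <;> rw [h6, h7] <;>
        simp only [ind, eq_comm (a := v)] at h5 ⊢ <;> split_ifs at h5 ⊢ <;> omega

/-- a parity join inside a connected multigraph -/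
lemma join {Y : E →₀ ℕ} {z : V} (J : Finset V) (hJ : ∀ v ∈ J, Conn Y z v) :
    ∃ c : E →₀ ℕ, (∀ e, c e ≤ Y e) ∧
      ∀ u, u ≠ z → (deg c u + if u ∈ J then 1 else 0) % 2 = 0 := by
  have : ∃ c : E →₀ ℕ, (∀ e, 0 < c e → 0 < Y e) ∧
      ∀ u, u ≠ z → (deg c u + if u ∈ J then 1 else 0) % 2 = 0 := by
    induction J using Finset.induction_on with
    | empty => exact ⟨0, fun e he => by simp at he, fun u _ => by simp [deg_zero]⟩
    | insert v J hv ih =>
      obtain ⟨c, h1, h2⟩ := ih fun w hw => hJ w (Finset.mem_insert_of_mem hw)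
      obtain ⟨c', h3, h4⟩ := join_one (hJ v (by simp))
      refine ⟨c + c', fun e he => ?_, fun u hu => ?_⟩
      · rw [Finsupp.add_apply] at he
        rcases Nat.eq_zero_or_pos (c e) with h | h
        · exact h3 e (by omega)
        · exact h1 e h
      · have h5 := h2 u hu
        have h6 := h4 u
        rw [deg_add]
        simp only [ind, hu, if_false, Finset.mem_insert] at h6 ⊢
        by_cases huv : u = v
        · subst huv
          simp only [hv, if_false, if_true, true_or] at h5 h6 ⊢; omega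
        · simp only [huv, if_false, false_or] at h6 ⊢; omega
  obtain ⟨c, h1, h2⟩ := this
  refine ⟨c.mapRange (· % 2) (by simp), fun e => ?_, fun u hu => ?_⟩
  · rw [Finsupp.mapRange_apply]
    rcases Nat.eq_zero_or_pos (c e) with h | h
    · simp [h]
    · have := h1 e h; omega
  · have := h2 u hu
    simp only [deg, Finsupp.mapRange_apply] at this ⊢
    omega

end Pool.Agent.Lamp79
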