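import Pool.Agent.Lib.MP_14152d_al.Strip

/-! The tour length changes by a bounded amount when the end point moves in a half-lit strip. -/

namespace Pool.Agent.Lamp79
open Finsupp

lemma sum_deg_black (m : E →₀ ℕ) (S : Finset V) (hS : ∀ v ∈ S, black v)
    (h : ∀ e, 0 < m e → (black (src e) → src e ∈ S) ∧ (black (dst e) → dst e ∈ S)) :
    ∑ v ∈ S, deg m v = sz m := by
  rw [sum_deg, sz, Finsupp.sum, Finsupp.sum]
  refine Finset.sum_congr rfl fun e he => ?_
  have h1 := h e (Nat.pos_of_ne_zero (Finsupp.mem_support_iff.1 he))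
  have h2 := d1_src_dst e
  by_cases hb : black (src e)
  · have hd : ¬ black (dst e) := by unfold black d1 at *; omega
    rw [if_pos (h1.1 hb), if_neg (fun h' => hd (hS _ h'))]; simp
  · have hd : black (dst e) := by unfold black d1 at *; omega
    rw [if_neg (fun h' => hb (hS _ h')), if_pos (h1.2 hd)]; simp

lemma sz_le_of_black (m m' : E →₀ ℕ) (Z : Finset V) (x : ℕ)
    (h : ∀ v, black v → deg m' v ≤ deg m v + if v ∈ Z then x else 0) :
    sz m' ≤ sz m + x * Z.card := by
  classical
  set S : Finset V := ((m.support ∪ m'.support).image src ∪ (m.support ∪ m'.support).image dst).filter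
    black with hS
  have hb : ∀ v ∈ S, black v := fun v hv => (Finset.mem_filter.1 hv).2
  have hmem : ∀ e, e ∈ m.support ∪ m'.support →
      (black (src e) → src e ∈ S) ∧ (black (dst e) → dst e ∈ S) := by
    intro e he
    exact ⟨fun h => Finset.mem_filter.2 ⟨Finset.mem_union_left _ (Finset.mem_image_of_mem _ he), h⟩,
      fun h => Finset.mem_filter.2 ⟨Finset.mem_union_right _ (Finset.mem_image_of_mem _ he), h⟩⟩
  rw [← sum_deg_black m S hb fun e he => hmem e
      (Finset.mem_union_left _ (Finsupp.mem_support_iff.2 (by omega))),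
    ← sum_deg_black m' S hb fun e he => hmem e
      (Finset.mem_union_right _ (Finsupp.mem_support_iff.2 (by omega)))]
  calc ∑ v ∈ S, deg m' v ≤ ∑ v ∈ S, (deg m v + if v ∈ Z then x else 0) :=
        Finset.sum_le_sum fun v hv => h v (hb v hv)
    _ = ∑ v ∈ S, deg m v + x * (S.filter (· ∈ Z)).card := by
        rw [Finset.sum_add_distrib, ← Finset.sum_filter, Finset.sum_const, smul_eq_mul, mul_comm]
    _ ≤ _ := by
        have : (S.filter (· ∈ Z)).card ≤ Z.card :=
          Finset.card_le_card fun v hv => (Finset.mem_filter.1 hv).2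
        have := Nat.mul_le_mul_left x this
        omega

lemma deg_filter_zero {m : E →₀ ℕ} (p : E → Prop) [DecidablePred p] {v : V}
    (h : ∀ e, (src e = v ∨ dst e = v) → ¬ p e) : deg (m.filter p) v = 0 := by
  by_contra h3
  obtain ⟨e, he, hv⟩ := exists_edge_of_deg (Nat.pos_of_ne_zero h3)
  rw [Finsupp.filter_apply, if_neg (h e hv)] at he
  omega

theorem lv_strip (c0 c1 r : ℤ) (h0 : (c0 + r) % 2 = 1) (h1 : (c1 + r) % 2 = 1)
    (hr : 0 < r ∨ r + 4 < 0) (X : Finset V) (hX : ∀ v, inS c0 c1 r v → (v ∈ X ↔ black v))
    (a a' : ℤ) (ha : c0 ≤ a ∧ a ≤ c1 ∧ (a + r) % 2 = 1) (ha' : c0 ≤ a' ∧ a' ≤ c1 ∧ (a' + r) % 2 = 1) :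
    lv (a', r + 4) X ≤ lv (a, r + 4) X + 16 := by
  classical
  by_cases h01 : ¬ c0 < c1
  · have : a' = a := by omega
    rw [this]; omega
  have h01 : c0 < c1 := by simpa using h01
  set y : V := (a, r + 4) with hy
  set y' : V := (a', r + 4) with hy'
  obtain ⟨m, hsz, hpar, hXc, hc⟩ := exists_multi y X
  let inner : E → Prop := fun e => inS c0 c1 r (src e) ∧ inS c0 c1 r (dst e)
  set mi := m.filter inner with hmi
  let pend : V → Prop := fun v =>
    inS c0 c1 r v ∧ black v ∧ (v.2 = r ∨ v.2 = r + 4) ∧ deg mi v = 0
  set mo := m.filter fun e => ¬ inner e ∧ ¬ pend (src e) ∧ ¬ pend (dst e) with hmo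
  set mp := m.filter fun e => ¬ inner e ∧ (pend (src e) ∨ pend (dst e)) with hmp
  have hm : m = mi + mo + mp := by
    ext e
    simp only [hmi, hmo, hmp, Finsupp.add_apply, Finsupp.filter_apply]
    by_cases a1 : inner e <;> by_cases a2 : pend (src e) <;> by_cases a3 : pend (dst e) <;>
      simp [a1, a2, a3]
  have hdeg : ∀ v, deg m v = deg mi v + deg mo v + deg mp v := by
    intro v; conv_lhs => rw [hm]
    rw [deg_add, deg_add]
  have h0S : ¬ inS c0 c1 r 0 := by
    simp only [inS, Prod.fst_zero, Prod.snd_zero]; omega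
  have hblk : ∀ v, inS c0 c1 r v → black v → 2 ≤ deg m v ∧ deg m v % 2 = 0 := by
    intro v hv hb
    have n0 : v ≠ 0 := fun h => h0S (h ▸ hv)
    have n1 : v ≠ y := by
      intro h; rw [h] at hb; simp only [black, hy] at hb; omega
    refine ⟨two_le_deg hpar (hXc v ((hX v hv).2 hb)) n0 n1, ?_⟩
    have := hpar v
    simpa only [ind, n0, n1, if_false, add_zero] using this
  let o : V → V := fun v => (v.1, if v.2 = r then r - 1 else r + 5)
  have hpe : ∀ e v, ¬ inner e → pend v → (src e = v ∨ dst e = v) →
      m e = deg m v ∧ ((src e = v ∧ dst e = o v) ∨ (dst e = v ∧ src e = o v)) := by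
    rintro ⟨⟨p, q⟩, b⟩ ⟨i, j⟩ hn ⟨hS, hb, hj, hd⟩ he
    simp only [inS, black] at hS hb hj
    have d0 : deg mi (i, j) = mi ((i, j), false) + mi ((i - 1, j), false) + mi ((i, j), true)
      + mi ((i, j - 1), true) := rfl
    have d1' : deg m (i, j) = m ((i, j), false) + m ((i - 1, j), false) + m ((i, j), true)
      + m ((i, j - 1), true) := rfl
    have e1 : mi ((i, j), false) = m ((i, j), false) := by
      rw [hmi, Finsupp.filter_apply, if_pos]
      simp only [inner, inS, src, dst, Bool.false_eq_true, if_false]; omega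
    have e2 : mi ((i - 1, j), false) = m ((i - 1, j), false) := by
      rw [hmi, Finsupp.filter_apply, if_pos]
      simp only [inner, inS, src, dst, Bool.false_eq_true, if_false]; omega
    cases b
    · exfalso
      apply hn
      simp only [inner, inS, src, dst, Bool.false_eq_true, if_false, Prod.mk.injEq] at he ⊢
      omega
    · simp only [inner, inS, src, dst, if_true, Prod.mk.injEq, o] at he hn ⊢
      rcases hj with hj | hj
      · have e3 : mi ((i, j), true) = m ((i, j), true) := by
          rw [hmi, Finsupp.filter_apply, if_pos]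
          simp only [inner, inS, src, dst, if_true]; omega
        have : p = i ∧ q = j - 1 := by omega
        obtain ⟨rfl, rfl⟩ := this
        refine ⟨by omega, Or.inr ?_⟩
        rw [if_pos hj]; omega
      · have e3 : mi ((i, j - 1), true) = m ((i, j - 1), true) := by
          rw [hmi, Finsupp.filter_apply, if_pos]
          simp only [inner, inS, src, dst, if_true]; omega
        have : p = i ∧ q = j := by omega
        obtain ⟨rfl, rfl⟩ := this
        refine ⟨by omega, Or.inl ?_⟩
        rw [if_neg (by omega)]; omega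
  have hmp2 : ∀ e, mp e % 2 = 0 := by
    intro e
    rw [hmp, Finsupp.filter_apply]
    split_ifs with h
    · rcases h.2 with h2 | h2
      · rw [(hpe e _ h.1 h2 (Or.inl rfl)).1]; exact (hblk _ h2.1 h2.2.1).2
      · rw [(hpe e _ h.1 h2 (Or.inr rfl)).1]; exact (hblk _ h2.1 h2.2.1).2
    · rfl
  have hdp : ∀ v, deg mp v % 2 = 0 := by
    intro v
    have := hmp2 (v, false); have := hmp2 ((v.1 - 1, v.2), false); have := hmp2 (v, true)
    have := hmp2 ((v.1, v.2 - 1), true)
    unfold deg; omega
  obtain ⟨G, G1, G2, G3, G4, G5⟩ := exists_backbone c0 c1 r h01 h0 h1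
    (fun v => deg mo v + ind y' v) (by
      intro i j a1 a2 a3 a4
      have : deg mo (i, j) = 0 := by
        rw [hmo]
        apply deg_filter_zero
        intro e he h
        apply h.1
        have := d1_src_dst e
        rcases he with he | he <;> simp only [inner, inS] <;> rw [he] at this ⊢ <;>
          unfold d1 at this <;> simp only at this ⊢ <;> omega
      have h2 : ind y' (i, j) = 0 := by
        simp only [ind, hy', Prod.mk.injEq]; rw [if_neg (by omega)]
      simp only [this, h2])
  set z0 : V := (c0, r + 2) with hz0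
  set m' : E →₀ ℕ := mo + G with hm'
  have hG : ∀ e, 0 < G e → 0 < m' e := by
    intro e he; simp only [hm', Finsupp.add_apply]; omega
  have hGout : ∀ v, ¬ inS c0 c1 r v → deg G v = 0 := by
    intro v hv
    by_contra h3
    obtain ⟨e, he, h⟩ := exists_edge_of_deg (Nat.pos_of_ne_zero h3)
    rcases h with h | h
    · exact hv (h ▸ (G1 e he).1)
    · exact hv (h ▸ (G1 e he).2.1)
  have hiout : ∀ v, ¬ inS c0 c1 r v → deg mi v = 0 := by
    intro v hv
    rw [hmi]
    apply deg_filter_zero
    rintro e (he | he) h
    · exact hv (he ▸ h.1)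
    · exact hv (he ▸ h.2)
  have hpar' : Par m' 0 y' := by
    apply handshake (z := (c1, r + 4))
    intro v hv
    rw [hm', deg_add]
    by_cases hS : inS c0 c1 r v
    · have := G2 v hS hv
      have n0 : v ≠ 0 := fun h => h0S (h ▸ hS)
      simp only [ind, n0, if_false] at this ⊢
      omega
    · have n1 : v ≠ y := by
        intro h; apply hS; rw [h]; simp only [inS, hy]; omega
      have n2 : v ≠ y' := by
        intro h; apply hS; rw [h]; simp only [inS, hy']; omega
      have a1 := hpar v
      have a2 := hdeg v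
      have a3 := hdp v
      have a4 := hiout v hS
      rw [hGout v hS]
      simp only [ind, n1, n2, if_false] at a1 ⊢
      omega
  let φ : V → V := fun v => if pend v then o v else if inS c0 c1 r v ∧ 0 < deg mi v then z0 else v
  have hφout : ∀ v, ¬ inS c0 c1 r v → φ v = v := by
    intro v hv
    simp only [φ]
    rw [if_neg (fun h => hv h.1), if_neg (fun h => hv h.1)]
  have hφin : ∀ v, inS c0 c1 r v → 0 < deg mi v → φ v = z0 := by
    intro v hv h
    simp only [φ]
    rw [if_neg (fun h' => by have := h'.2.2.2; omega), if_pos ⟨hv, h⟩]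
  have hφ : ∀ e, 0 < mo e → ∀ v, (src e = v ∨ dst e = v) → Conn m' (φ v) v := by
    intro e he v hv
    rw [hmo, Finsupp.filter_apply] at he
    split_ifs at he with h
    swap
    · omega
    have np : ¬ pend v := by
      rcases hv with hv | hv
      · exact hv ▸ h.2.1
      · exact hv ▸ h.2.2
    simp only [φ]
    rw [if_neg np]
    split_ifs with h2
    · refine (G3 v h2.1 ?_).mono hG
      have a1 := h.1
      have a2 := h2.1
      have := d1_src_dst e
      rcases hv with hv | hv <;> simp only [inner] at a1 <;> rw [hv] at this a1 <;>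
        unfold d1 inS black at * <;> omega
    · exact Conn.refl _ _
  have htr : ∀ v, Conn m 0 v → Conn m' 0 (φ v) := by
    intro v hv
    have := Conn.transfer (m' := m') φ (fun e he => ?_) hv
    · rwa [hφout 0 h0S] at this
    by_cases h : inner e
    · have h2 : 0 < mi e := by rw [hmi, Finsupp.filter_apply, if_pos h]; exact he
      rw [hφin _ h.1 (lt_of_lt_of_le h2 (le_deg_src mi e)),
        hφin _ h.2 (lt_of_lt_of_le h2 (le_deg_dst mi e))]
      exact Conn.refl _ _
    by_cases p1 : pend (src e)
    · have hd : dst e = o (src e) := by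
        rcases (hpe e _ h p1 (Or.inl rfl)).2 with h3 | h3
        · exact h3.2
        · have := d1_src_dst e
          rw [h3.1, d1_self] at this; omega
      rw [hφout (dst e) (fun h' => h ⟨p1.1, h'⟩), hd]
      simp only [φ]; rw [if_pos p1]; exact Conn.refl _ _
    by_cases p2 : pend (dst e)
    · have hd : src e = o (dst e) := by
        rcases (hpe e _ h p2 (Or.inr rfl)).2 with h3 | h3
        · have := d1_src_dst e
          rw [h3.1, d1_self] at this; omega
        · exact h3.2
      rw [hφout (src e) (fun h' => h ⟨h', p2.1⟩)]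
      conv_lhs => rw [hd]
      simp only [φ]; rw [if_pos p2]; exact Conn.refl _ _
    · have h1 : 0 < mo e := by rw [hmo, Finsupp.filter_apply, if_pos ⟨h, p1, p2⟩]; exact he
      have h2 : 0 < m' e := by simp only [hm', Finsupp.add_apply]; omega
      exact ((hφ e h1 _ (Or.inl rfl)).trans (conn_edge h2)).trans (hφ e h1 _ (Or.inr rfl)).symm
  have hmid : ∀ i j, c0 < i → i < c1 → r < j → j < r + 4 → deg mi (i, j) = deg m (i, j) := by
    intro i j a1 a2 a3 a4
    rw [hmi]
    apply deg_filter_of
    intro e he
    have := d1_src_dst e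
    rcases he with he | he <;> simp only [inner, inS] <;> rw [he] at this ⊢ <;>
      unfold d1 at this <;> simp only at this ⊢ <;> omega
  have hz : Conn m' 0 z0 := by
    have hS : inS c0 c1 r (c0 + 1, r + 2) := by simp only [inS]; omega
    have hb : black (c0 + 1, r + 2) := by simp only [black]; omega
    have := htr _ (hXc _ ((hX _ hS).2 hb))
    rwa [hφin _ hS (by
      rw [hmid _ _ (by omega) (by omega) (by omega) (by omega)]
      have := (hblk _ hS hb).1; omega)] at this
  have hle : lv y' X ≤ sz m' := by
    refine lv_le_multi hpar' (fun v hv => ?_) (fun e he => ?_)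
    · by_cases hS : inS c0 c1 r v
      · exact hz.trans ((G3 v hS (Or.inl ((hX v hS).1 hv))).mono hG)
      · have := htr v (hXc v hv)
        rwa [hφout v hS] at this
    · by_cases h1 : 0 < mo e
      · have h2 : 0 < m e := by rw [hm]; simp only [Finsupp.add_apply]; omega
        exact (htr _ (hc e h2)).trans (hφ e h1 _ (Or.inl rfl))
      · have h2 : 0 < G e := by simp only [hm', Finsupp.add_apply] at he; omega
        exact hz.trans ((G1 e h2).2.2.mono hG)
  have hsz' := sz_le_of_black m m' {(c0, r + 1), (c0, r + 3), (c1, r + 1), (c1, r + 3)} 4 (by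
    rintro ⟨i, j⟩ hb
    rw [hm', deg_add]
    have a1 := hdeg (i, j)
    by_cases hS : inS c0 c1 r (i, j)
    swap
    · rw [hGout _ hS]; omega
    by_cases hend : i = c0 ∨ i = c1
    · rw [if_pos]
      · have := G5 _ hS hb; omega
      · simp only [inS, black] at hS hb
        simp only [Finset.mem_insert, Finset.mem_singleton, Prod.mk.injEq]; omega
    have b1 : c0 < i ∧ i < c1 := by simp only [inS] at hS; omega
    have a2 := G4 _ hS hb b1.1 b1.2
    have a3 : ind y' (i, j) = 0 := by
      simp only [ind, hy', Prod.mk.injEq]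
      simp only [black] at hb
      rw [if_neg (by omega)]
    simp only [a3, add_zero] at a2
    obtain ⟨a4, a5⟩ := hblk _ hS hb
    by_cases hp : pend (i, j)
    · have : deg mo (i, j) = 0 := by
        rw [hmo]
        apply deg_filter_zero
        rintro e (he | he) h
        · exact h.2.1 (he ▸ hp)
        · exact h.2.2 (he ▸ hp)
      omega
    · have a6 : deg mp (i, j) = 0 := by
        rw [hmp]
        apply deg_filter_zero
        rintro e (he | he) ⟨h2, h3 | h3⟩
        · exact hp (he ▸ h3)
        · exact h2 ⟨he ▸ hS, h3.1⟩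
        · exact h2 ⟨h3.1, he ▸ hS⟩
        · exact hp (he ▸ h3)
      have a7 : 0 < deg mi (i, j) := by
        by_cases hj : j = r ∨ j = r + 4
        · by_contra h; exact hp ⟨hS, hb, hj, by omega⟩
        · simp only [inS] at hS
          rw [hmid i j b1.1 b1.2 (by omega) (by omega)]; omega
      omega)
  have : ({(c0, r + 1), (c0, r + 3), (c1, r + 1), (c1, r + 3)} : Finset V).card ≤ 4 :=
    Finset.card_le_four
  omega

end Pool.Agent.Lamp79
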