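import Pool.Agent.Lib.MP_14152d_al.Mob

/-! States of the lamplighter, and moves along which the level stays almost constant. -/

namespace Pool.Agent.Lamp79

abbrev St := V × Finset V

def Step (s t : St) : Prop := d1 s.1 t.1 = 1 ∧ ∀ v, v ≠ s.1 → v ≠ t.1 → (v ∈ s.2 ↔ v ∈ t.2)

noncomputable def L (s : St) : ℕ := lv s.1 s.2

lemma Step.symm {s t : St} (h : Step s t) : Step t s :=
  ⟨by rw [d1_comm]; exact h.1, fun v a b => (h.2 v b a).symm⟩

lemma Step.le {s t : St} (h : Step s t) : L t ≤ L s + 1 := by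
  have h1 : t.2 ⊆ insert t.1 (insert s.1 s.2) := by
    intro v hv
    by_cases a : v = t.1
    · simp [a]
    by_cases b : v = s.1
    · simp [b]
    · simp [(h.2 v b a).2 hv]
  have h2 := lv_mono t.1 h1
  rw [lv_insert_self] at h2
  have h3 := lv_move s.1 t.1 (insert s.1 s.2)
  rw [lv_insert_self, h.1] at h3
  unfold L; omega

lemma Step.ne {s t : St} (h : Step s t) : L s ≠ L t := by
  have h1 := lv_parity s.1 s.2
  have h2 := lv_parity t.1 t.2
  have h3 := h.1
  unfold L; unfold d1 at h3; omega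

def Con (W : St → Prop) : St → St → Prop :=
  Relation.ReflTransGen fun a b => Step a b ∧ W a ∧ W b

lemma Con.refl (W : St → Prop) (s : St) : Con W s s := Relation.ReflTransGen.refl

lemma Con.trans {W : St → Prop} {s t u : St} (h : Con W s t) (h' : Con W t u) : Con W s u :=
  Relation.ReflTransGen.trans h h'

lemma Con.single {W : St → Prop} {s t : St} (h : Step s t) (hs : W s) (ht : W t) : Con W s t :=
  Relation.ReflTransGen.single ⟨h, hs, ht⟩

lemma Con.symm {W : St → Prop} {s t : St} (h : Con W s t) : Con W t s := by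
  induction h with
  | refl => exact Con.refl _ _
  | tail _ hl ih => exact (Con.single hl.1.symm hl.2.2 hl.2.1).trans ih

lemma Con.mono {W W' : St → Prop} (hW : ∀ s, W s → W' s) {s t : St} (h : Con W s t) : Con W' s t := by
  induction h with
  | refl => exact Con.refl _ _
  | tail _ hl ih => exact ih.trans (Con.single hl.1 (hW _ hl.2.1) (hW _ hl.2.2))

lemma Con.map {W W' : St → Prop} (f : St → St) (hf : ∀ a b, Step a b → Step (f a) (f b))
    (hW : ∀ s, W s → W' (f s)) {s t : St} (h : Con W s t) : Con W' (f s) (f t) := by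
  induction h with
  | refl => exact Con.refl _ _
  | tail _ hl ih => exact ih.trans (Con.single (hf _ _ hl.1) (hW _ hl.2.1) (hW _ hl.2.2))

def Near (C : ℕ) (s t : St) : Prop := Con (fun u => L u ≤ L s + C ∧ L s ≤ L u + C) s t

lemma Near.bound {C : ℕ} {s t : St} (h : Near C s t) : L t ≤ L s + C ∧ L s ≤ L t + C := by
  rcases Relation.ReflTransGen.cases_tail h with h | ⟨w, -, h⟩
  · rw [h]; omega
  · exact h.2.2

lemma Near.refl (C : ℕ) (s : St) : Near C s s := Con.refl _ _

lemma Near.mono {C C' : ℕ} (hC : C ≤ C') {s t : St} (h : Near C s t) : Near C' s t :=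
  Con.mono (fun u hu => by omega) h

lemma Near.trans {C C' : ℕ} {s t u : St} (h : Near C s t) (h' : Near C' t u) : Near (C + C') s u := by
  have := h.bound
  exact Con.trans (Con.mono (fun w hw => by omega) h) (Con.mono (fun w hw => by omega) h')

lemma Near.symm {C : ℕ} {s t : St} (h : Near C s t) : Near (2 * C) t s := by
  have := h.bound
  exact Con.mono (fun w hw => by omega) (Con.symm h)

lemma Step.near {s t : St} (h : Step s t) : Near 1 s t :=
  Con.single h (by omega) ⟨h.le, h.symm.le⟩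

lemma near_move (u v : V) (X : Finset V) : Near (d1 u v) (u, X) (v, X) := by
  generalize hk : d1 u v = k
  induction k generalizing v with
  | zero => rw [← eq_of_d1 hk]; exact Near.refl _ _
  | succ k ih =>
    obtain ⟨w, hw, hwv⟩ := exists_closer hk
    exact (ih w hw).trans (Step.near ⟨hwv, fun _ _ _ => Iff.rfl⟩)

lemma near_toggle (u : V) (X X' : Finset V) (h : ∀ v, v ≠ u → (v ∈ X ↔ v ∈ X')) :
    Near 2 (u, X) (u, X') := by
  have h1 : d1 u (u.1 + 1, u.2) = 1 := by simp [d1]
  have a : Step (u, X) ((u.1 + 1, u.2), X') := ⟨h1, fun v a _ => h v a⟩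
  have b : Step ((u.1 + 1, u.2), X') (u, X') := ⟨by rw [d1_comm]; exact h1, fun _ _ _ => Iff.rfl⟩
  exact a.near.trans b.near

lemma near_finset (u : V) (D : ℕ) (T : Finset V) (hT : ∀ v ∈ T, d1 u v ≤ D) (X X' : Finset V)
    (h : ∀ v, v ∉ T → (v ∈ X ↔ v ∈ X')) : Near (T.card * (2 * D + 2)) (u, X) (u, X') := by
  induction T using Finset.induction_on generalizing X with
  | empty =>
    have : X = X' := by ext v; exact h v (by simp)
    rw [this]; exact Near.refl _ _
  | insert w T hw ih =>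
    let X1 : Finset V := if w ∈ X' then insert w X else X.erase w
    have h1 : ∀ v, v ≠ w → (v ∈ X ↔ v ∈ X1) := by
      intro v hv; simp only [X1]; split_ifs <;> simp [hv]
    have h2 : ∀ v, v ∉ T → (v ∈ X1 ↔ v ∈ X') := by
      intro v hv
      by_cases hvw : v = w
      · subst hvw; simp only [X1]; split_ifs with h3 <;> simp [h3]
      · rw [← h1 v hvw]; exact h v (by simp [hv, hvw])
    have hd := hT w (by simp)
    have a := ((near_move u w X).trans (near_toggle w X X1 h1)).trans (near_move w u X1)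
    have b := ih (fun v hv => hT v (Finset.mem_insert_of_mem hv)) X1 h2
    refine (a.trans b).mono ?_
    rw [Finset.card_insert_of_notMem hw, d1_comm w u]
    nlinarith

lemma near_local (u : V) (D : ℕ) (X X' : Finset V) (h : ∀ v, D < d1 u v → (v ∈ X ↔ v ∈ X')) :
    Near ((2 * D + 1) * (2 * D + 1) * (2 * D + 2)) (u, X) (u, X') := by
  let T : Finset V := ((Finset.Icc (u.1 - D) (u.1 + D)) ×ˢ (Finset.Icc (u.2 - D) (u.2 + D))).filter
    fun v => d1 u v ≤ D
  have h1 : T.card ≤ (2 * D + 1) * (2 * D + 1) := by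
    refine (Finset.card_filter_le _ _).trans ?_
    rw [Finset.card_product, Int.card_Icc, Int.card_Icc]
    apply Nat.mul_le_mul <;> omega
  refine (near_finset u D T (fun v hv => (Finset.mem_filter.1 hv).2) X X' fun v hv => h v ?_).mono
    (Nat.mul_le_mul_right _ h1)
  by_contra h2
  apply hv
  simp only [T, Finset.mem_filter, Finset.mem_product, Finset.mem_Icc]
  unfold d1 at *; omega

lemma near_line (a r : ℤ) (X : Finset V) (C : ℕ) (n : ℕ)
    (h : ∀ j : ℕ, j ≤ n → lv (a + j, r) X ≤ lv (a, r) X + C ∧ lv (a, r) X ≤ lv (a + j, r) X + C) :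
    Near C ((a, r), X) ((a + n, r), X) := by
  induction n with
  | zero => simpa using Near.refl C ((a, r), X)
  | succ n ih =>
    refine Con.trans (ih fun j hj => h j (by omega)) (Con.single ⟨?_, fun _ _ _ => Iff.rfl⟩
      (h n (by omega)) (h (n + 1) le_rfl))
    simp [d1]

lemma near_horiz (x0 x1 y0 : ℤ) (hx : x0 ≤ x1) (X : Finset V)
    (hX : ∀ v : V, x0 ≤ v.1 → v.1 ≤ x1 + 1 → y0 ≤ v.2 → v.2 ≤ y0 + 9 → (v ∈ X ↔ black v)) :
    Near 37 ((x0, y0), X) ((x1, y0), X) := by
  obtain ⟨r, hr1, hr2, hr3⟩ : ∃ r, y0 ≤ r ∧ r ≤ y0 + 5 ∧ (0 < r ∨ r + 4 < 0) := by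
    by_cases h : y0 ≤ 0 ∧ 0 ≤ y0 + 4
    · exact ⟨y0 + 5, by omega, by omega, by omega⟩
    · exact ⟨y0, by omega, by omega, by omega⟩
  obtain ⟨c0, a1, a2, a3⟩ : ∃ c0, x0 ≤ c0 ∧ c0 ≤ x0 + 1 ∧ (c0 + r) % 2 = 1 := by
    by_cases h : (x0 + r) % 2 = 1
    · exact ⟨x0, by omega, by omega, h⟩
    · exact ⟨x0 + 1, by omega, by omega, by omega⟩
  obtain ⟨c1, b1, b2, b3⟩ : ∃ c1, x1 ≤ c1 ∧ c1 ≤ x1 + 1 ∧ (c1 + r) % 2 = 1 := by
    by_cases h : (x1 + r) % 2 = 1
    · exact ⟨x1, by omega, by omega, h⟩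
    · exact ⟨x1 + 1, by omega, by omega, by omega⟩
  have hS : ∀ v, inS c0 c1 r v → (v ∈ X ↔ black v) := by
    intro v hv; unfold inS at hv; apply hX <;> omega
  have h01 : c0 ≤ c1 := by omega
  have hl := near_line c0 (r + 4) X 17 (c1 - c0).toNat (fun j hj => by
    by_cases h : (c0 + j + r) % 2 = 1
    · have e1 := lv_strip c0 c1 r a3 b3 hr3 X hS c0 (c0 + j) (by omega) (by omega)
      have e2 := lv_strip c0 c1 r a3 b3 hr3 X hS (c0 + j) c0 (by omega) (by omega)
      omega
    · have e1 := lv_strip c0 c1 r a3 b3 hr3 X hS c0 (c0 + j - 1) (by omega) (by omega)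
      have e2 := lv_strip c0 c1 r a3 b3 hr3 X hS (c0 + j - 1) c0 (by omega) (by omega)
      have e3 := lv_move (c0 + j - 1, r + 4) (c0 + j, r + 4) X
      have e4 := lv_move (c0 + j, r + 4) (c0 + j - 1, r + 4) X
      have e5 : d1 (c0 + j - 1, r + 4) (c0 + j, r + 4) = 1 := by simp [d1]
      have e6 : d1 (c0 + j, r + 4) (c0 + j - 1, r + 4) = 1 := by simp [d1]
      omega)
  rw [show c0 + ((c1 - c0).toNat : ℤ) = c1 by omega] at hl
  refine (((near_move (x0, y0) (c0, r + 4) X).trans hl).trans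
    (near_move (c1, r + 4) (x1, y0) X)).mono ?_
  unfold d1; simp only; omega

def sw (s : St) : St := (s.1.swap, s.2.image Prod.swap)

lemma mem_swap (X : Finset V) (v : V) : v ∈ X.image Prod.swap ↔ v.swap ∈ X := by
  rw [Finset.mem_image]
  constructor
  · rintro ⟨u, hu, rfl⟩; simpa using hu
  · intro h; exact ⟨v.swap, h, by simp⟩

lemma L_sw (s : St) : L (sw s) = L s := lv_swap _ _

lemma Step.sw {s t : St} (h : Step s t) : Step (sw s) (sw t) := by
  refine ⟨?_, fun v a b => ?_⟩
  · have := h.1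
    unfold d1 at *; simp only [Lamp79.sw, Prod.fst_swap, Prod.snd_swap]; omega
  · simp only [Lamp79.sw, mem_swap] at a b ⊢
    exact h.2 _ (fun h => a (by rw [← h]; simp)) (fun h => b (by rw [← h]; simp))

lemma Near.sw {C : ℕ} {s t : St} (h : Near C s t) : Near C (sw s) (sw t) := by
  unfold Near at *
  exact Con.map Lamp79.sw (fun _ _ h => h.sw) (fun u hu => by simpa only [L_sw] using hu) h

lemma near_vert (x0 y0 y1 : ℤ) (hy : y0 ≤ y1) (X : Finset V)
    (hX : ∀ v : V, y0 ≤ v.2 → v.2 ≤ y1 + 1 → x0 ≤ v.1 → v.1 ≤ x0 + 9 → (v ∈ X ↔ black v)) :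
    Near 37 ((x0, y0), X) ((x0, y1), X) := by
  have := (near_horiz y0 y1 x0 hy (X.image Prod.swap) (fun v a b c d => by
    rw [mem_swap, hX v.swap a b c d]
    simp only [black, Prod.fst_swap, Prod.snd_swap, add_comm])).sw
  simpa [sw, Finset.image_image] using this

/-- the side of a block -/
@[irreducible] def bb : ℕ := 65536

lemma bb_val : bb = 65536 := by unfold bb; rfl

def blk (v : V) : V := (v.1 / 65536, v.2 / 65536)

def corner (q : V) : V := (65536 * q.1, 65536 * q.2)

def HalfLit (X : Finset V) (q : V) : Prop := ∀ v, blk v = q → (v ∈ X ↔ black v)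

def Route (p q u : V) : Prop :=
  (u.1 = p.1 ∧ p.2 ≤ u.2 ∧ u.2 ≤ q.2) ∨ (u.2 = q.2 ∧ p.1 ≤ u.1 ∧ u.1 ≤ q.1)

def Close (p q : V) : Prop := p.1 ≤ q.1 + 1 ∧ q.1 ≤ p.1 + 1 ∧ p.2 ≤ q.2 + 1 ∧ q.2 ≤ p.2 + 1

lemma near_route (p q : V) (h1 : p.1 ≤ q.1) (h2 : p.2 ≤ q.2) (X : Finset V)
    (hX : ∀ u, Route p q u → HalfLit X u) : Near 74 (corner p, X) (corner q, X) := by
  have a := near_vert (65536 * p.1) (65536 * p.2) (65536 * q.2) (by omega) X (fun v a b c d =>
    hX (blk v) (Or.inl (by simp only [blk]; omega)) v rfl)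
  have b := near_horiz (65536 * p.1) (65536 * q.1) (65536 * q.2) (by omega) X (fun v a b c d =>
    hX (blk v) (Or.inr (by simp only [blk]; omega)) v rfl)
  exact a.trans b

lemma d1_corner {v q : V} (h : Close (blk v) q) : d1 (corner q) v ≤ 4 * bb := by
  rw [bb_val]
  unfold Close blk corner d1 at *
  simp only at *
  omega

/-- the basic move of the ballast -/
def DevNear (C : ℕ) : Prop := ∀ (y p q : V) (X X' : Finset V), Close (blk y) p →
  (q = p ∨ (p.1 ≤ q.1 ∧ p.2 ≤ q.2 ∧ ∀ u, Route p q u → HalfLit X u ∧ HalfLit X' u)) →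
  (∀ v, ¬ Close (blk v) q → (v ∈ X ↔ v ∈ X')) → Near C (y, X) (y, X')

theorem exists_devNear : ∃ C, 1 ≤ C ∧ DevNear C := by
  refine ⟨4 * bb + 74 + (2 * (4 * bb) + 1) * (2 * (4 * bb) + 1) * (2 * (4 * bb) + 2) + 2 * 74
    + 4 * bb, by omega, fun y p q X X' hy hq hX => ?_⟩
  have a : Near (4 * bb) (y, X) (corner p, X) :=
    (near_move y (corner p) X).mono (by rw [d1_comm]; exact d1_corner hy)
  have e : Near (4 * bb) (corner p, X') (y, X') := (near_move (corner p) y X').mono (d1_corner hy)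
  have c := near_local (corner q) (4 * bb) X X' fun v hv => hX v fun h => by
    have := d1_corner h; omega
  have b : Near 74 (corner p, X) (corner q, X) := by
    rcases hq with rfl | hq
    · exact Near.refl _ _
    · exact near_route p q hq.1 hq.2.1 X fun u hu => (hq.2.2 u hu).1
  have d : Near (2 * 74) (corner q, X') (corner p, X') := by
    rcases hq with rfl | hq
    · exact Near.refl _ _
    · exact (near_route p q hq.1 hq.2.1 X' fun u hu => (hq.2.2 u hu).2).symm
  exact (((a.trans b).trans c).trans d).trans e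

end Pool.Agent.Lamp79
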