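import Pool.Agent.Lib.MP_14152d_al.Capacity

/-! Two predecessors of a state are joined inside a window of bounded width below it. -/

namespace Pool.Agent.Lamp79

section
variable {C D m1 r M : ℕ}

def Lev (M D : ℕ) (s : St) (m : ℕ) : Prop := L s + m ≤ M ∧ M ≤ L s + m + D

def Lt (m1 : ℕ) (A : Finset V) (y : V) (m : ℕ) : Prop :=
  (A.filter fun v => InBox (blk y) (nb m1 m) (blk v)).card ≤ 15 * bb * (nb m1 m * nb m1 m) + 3

lemma close_self (p : V) : Close p p := by unfold Close; omega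

lemma close_of_d1 {y y' : V} (h : d1 y y' = 1) : Close (blk y) (blk y') := by
  unfold d1 Close blk at *; simp only; omega

lemma up_of (hA : Arith C D m1 r) {y : V} {X : Finset V} {m : ℕ} (h : Lev M D (y, X) m)
    (hm : m1 ≤ m) : (lv y X : ℤ) + (C * (2 * sg m + 3) : ℕ) ≤ ((M : ℤ) - 1 - C) - C := by
  have h1 := hA.up m hm
  have h2 := h.1
  simp only [L] at h2
  omega

lemma down_of (hA : Arith C D m1 r) {y p : V} {X X0 : Finset V} {m n : ℕ} (h : Lev M D (y, X) m)
    (hn : m1 ≤ n) (hmn : m ≤ n + 1) (hf : Free X0 p (nb m1 n))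
    (h0 : lv y X ≤ lv y X0 + 2 * rd (sg m)) :
    ((M : ℤ) - r + C) + C + (C * (2 * sg m + 3) : ℕ)
      ≤ lv y (dev X0 (pre (fp p (nb m1 n)) (nb m1 n * nb m1 n))) := by
  have h1 := hA.down m n hn hmn
  have h2 := h.2
  have h3 := gain y p (nb m1 n) X0 hf
  simp only [L] at h2
  omega

lemma readd' {A X : Finset V} {y y' : V} {m m' : ℕ} (hX : X ⊆ A) (hc : Close (blk y) (blk y'))
    (hL : Lt m1 A y' m') (hm : m' ≤ m + 1) :
    lv y X ≤ lv y (cut X (blk y') (nb m1 m')) + rd (sg m) := by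
  have := readd y (blk y') (nb m1 m') X hc
    ((Finset.card_le_card (Finset.filter_subset_filter _ hX)).trans hL)
  have := rd_mono (nb_le (m1 := m1) hm)
  omega

lemma valid_cut (hA : Arith C D m1 r) {A X : Finset V} {y : V} {m : ℕ} (h : Lev M D (y, X) m)
    (hm : m1 ≤ m) (hX : X ⊆ A) (hL : Lt m1 A y m) :
    Valid C ((M : ℤ) - r + C) ((M : ℤ) - 1 - C) (C * (2 * sg m + 3)) y
      (cut X (blk y) (nb m1 m)) (blk y) (nb m1 m) :=
  valid_between (close_self _) (up_of hA h hm) (down_of hA h hm (by omega) (free_cut _ _ _)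
    (by have := readd' (m := m) hX (close_self (blk y)) hL (by omega); omega))
    (Finset.Subset.refl _) (cut_subset _ _ _) (free_cut _ _ _)

lemma tlen_le {y y' e : V} {m m' : ℕ} (hc : Close (blk y) (blk y')) (hm : m' ≤ m + 1)
    (he : InBox (blk y') (nb m1 m') e) :
    ((blk y).1 - 1 ≤ e.1 ∧ (blk y).2 - 1 ≤ e.2) ∧
      C * tlen ((blk y).1 - 1, (blk y).2 - 1) e ≤ C * (2 * sg m + 3) := by
  have := nb_le (m1 := m1) hm
  unfold Close InBox at *
  refine ⟨by omega, Nat.mul_le_mul_left _ ?_⟩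
  unfold tlen
  simp only
  omega

lemma gap_of (hA : Arith C D m1 r) : ((M : ℤ) - r + C) + 3 * C ≤ (M : ℤ) - 1 - C := by
  have := hA.gap; omega

lemma dstep (hC : DevNear C) (hC1 : 1 ≤ C) (hA : Arith C D m1 r) {A X X' : Finset V} {y y' : V}
    {m m' : ℕ} (hs : Step (y, X) (y', X')) (h : Lev M D (y, X) m) (h' : Lev M D (y', X') m')
    (hm : m1 ≤ m) (hm' : m1 ≤ m') (h1 : m ≤ m' + 1) (h2 : m' ≤ m + 1) (hX : X ⊆ A) (hX' : X' ⊆ A)
    (hL : Lt m1 A y m) (hL' : Lt m1 A y' m') :
    Lk C ((M : ℤ) - r + C) ((M : ℤ) - 1 - C) y (cut X (blk y) (nb m1 m)) (blk y) (nb m1 m)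
      y' (cut X' (blk y') (nb m1 m')) (blk y') (nb m1 m') := by
  have gap := gap_of (M := M) hA
  have hc : Close (blk y) (blk y') := close_of_d1 hs.1
  set p := blk y with hp
  set p' := blk y' with hp'
  set N := nb m1 m with hN
  set N' := nb m1 m' with hN'
  set X0 := cut (cut X p N) p' N' with hX0
  have hq : Close (blk y) (p.1 - 1, p.2 - 1) := by simp only [Close, ← hp]; omega
  have r1 := readd' (m := m) hX (close_self (blk y)) hL (by omega)
  have r2 := readd' (m := m) ((cut_subset X p N).trans hX) hc hL' h2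
  have r3 : lv y X ≤ lv y X0 + 2 * rd (sg m) := by
    simp only [← hp, ← hN, ← hp', ← hN', ← hX0] at r1 r2; omega
  have f0 : Free X0 p N := fun v hv => (mem_cut.1 (mem_cut.1 hv).1).2
  have f0' : Free X0 p' N' := free_cut _ _ _
  have up := up_of hA h hm
  have d0 := down_of hA h hm (by omega) f0 r3
  have d0' := down_of hA h hm' h1 f0' r3
  have s0 : X0 ⊆ X := (cut_subset _ _ _).trans (cut_subset _ _ _)
  have s1 : X0 ⊆ cut X p' N' := fun v hv =>
    mem_cut.2 ⟨(mem_cut.1 (mem_cut.1 hv).1).1, (mem_cut.1 hv).2⟩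
  have v1 := valid_between (close_self p) up d0 (Finset.Subset.refl _) s0 f0
  have v2 := valid_between hc up d0' (Finset.Subset.refl _) s0 f0'
  have v3 := valid_between hc up d0' s1 (cut_subset _ _ _) (free_cut X p' N')
  have v4 := valid_cut hA h' hm' hX' hL'
  have kA := lk_multi hC gap (close_self p) hq up d0 (pre (fp p' N') (N' * N'))
    (fun e he => by
      have := tlen_le (C := C) hc h2 (mem_full.1 he)
      exact ⟨this.1.1, this.1.2, this.2⟩)
    (cut X p N) X0 (cut_subset _ _ _) (cut_subset _ _ _) (free_cut _ _ _) (Finset.Subset.refl _) s0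
    f0 (fun v hv => by
      rw [mem_full] at hv
      rw [hX0, mem_cut (X := cut X p N)]; simp [hv])
  have kB := lk_hop hC gap v1 v2
  have kC := lk_multi hC gap hc hq up d0' (pre (fp p N) (N * N))
    (fun e he => by
      have := tlen_le (C := C) (m := m) (close_self (blk y)) (by omega) (mem_full.1 he)
      exact ⟨this.1.1, this.1.2, this.2⟩)
    X0 (cut X p' N') (Finset.Subset.refl _) s0 f0' s1 (cut_subset _ _ _) (free_cut _ _ _)
    (fun v hv => by
      rw [mem_full] at hv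
      rw [hX0, mem_cut, mem_cut, mem_cut]; simp [hv])
  have kD := lk_step hC hC1 gap (v3.weaken (Nat.zero_le _)) (v4.weaken (Nat.zero_le _))
    ⟨hs.1, fun v a b => by
      have := hs.2 v a b
      simp only [mem_cut] at this ⊢
      rw [this]⟩
  exact Lk.trans hC gap v3 (Lk.trans hC gap v2 (Lk.trans hC gap v1 kA kB) kC) kD

/-- `s` is a state in the window that represents the state `t` of depth `m` -/
def Rep (C m1 r M : ℕ) (t : St) (m : ℕ) (s : St) : Prop :=
  (m ≤ m1 ∧ s = t) ∨ (m1 < m ∧ ∃ a ≤ nb m1 m * nb m1 m,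
    s = Dv t.1 (cut t.2 (blk t.1) (nb m1 m)) (blk t.1) (nb m1 m) a ∧
      Band ((M : ℤ) - r + C) ((M : ℤ) - 1 - C) s)

lemma Rep.dev (hA : Arith C D m1 r) {t s : St} {m : ℕ} (h : Rep C m1 r M t m s) (hl : Lev M D t m)
    (hm : m1 ≤ m) : ∃ a ≤ nb m1 m * nb m1 m,
    s = Dv t.1 (cut t.2 (blk t.1) (nb m1 m)) (blk t.1) (nb m1 m) a ∧
      Band ((M : ℤ) - r + C) ((M : ℤ) - 1 - C) s := by
  rcases h with ⟨h1, rfl⟩ | h
  · refine ⟨0, by omega, ?_, ?_⟩
    · simp only [Dv, pre_zero, dev_empty, nb, h1, if_true, cut_zero]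
    · have := hA.raw
      have := hA.up m hm
      unfold Lev at hl
      unfold Band; omega
  · exact h.2

lemma exists_rep (hC : DevNear C) (hA : Arith C D m1 r) {A : Finset V} {t : St} {m : ℕ}
    (hl : Lev M D t m) (hX : t.2 ⊆ A) (hL : Lt m1 A t.1 m) : ∃ s, Rep C m1 r M t m s := by
  by_cases h : m ≤ m1
  · exact ⟨t, Or.inl ⟨h, rfl⟩⟩
  · obtain ⟨a, ha, hb⟩ := (valid_cut hA (y := t.1) (X := t.2) hl (by omega) hX hL).exists_band hC
      (gap_of hA)
    exact ⟨_, Or.inr ⟨by omega, a, ha, rfl, by unfold Band at *; omega⟩⟩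

lemma con_of_lk {y p y' p' : V} {X X' : Finset V} {N N' a a' : ℕ} {s s' : St}
    (h : Lk C ((M : ℤ) - r + C) ((M : ℤ) - 1 - C) y X p N y' X' p' N') (ha : a ≤ N * N)
    (ha' : a' ≤ N' * N') (hs : s = Dv y X p N a ∧ Band ((M : ℤ) - r + C) ((M : ℤ) - 1 - C) s)
    (hs' : s' = Dv y' X' p' N' a' ∧ Band ((M : ℤ) - r + C) ((M : ℤ) - 1 - C) s') :
    Con (Band ((M : ℤ) - r) ((M : ℤ) - 1)) s s' := by
  obtain ⟨rfl, b1⟩ := hs
  obtain ⟨rfl, b2⟩ := hs'
  exact Con.mono (fun u hu => by unfold Band at *; omega) (h a ha a' ha' b1 b2)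

lemma rep_step (hC : DevNear C) (hC1 : 1 ≤ C) (hA : Arith C D m1 r) {A : Finset V} {t t' s s' : St}
    {m m' : ℕ} (hs : Step t t') (h : Lev M D t m) (h' : Lev M D t' m') (p1 : 1 ≤ m) (p2 : 1 ≤ m')
    (h1 : m ≤ m' + 1) (h2 : m' ≤ m + 1) (hX : t.2 ⊆ A) (hX' : t'.2 ⊆ A)
    (hL : Lt m1 A t.1 m) (hL' : Lt m1 A t'.1 m') (hr : Rep C m1 r M t m s)
    (hr' : Rep C m1 r M t' m' s') : Con (Band ((M : ℤ) - r) ((M : ℤ) - 1)) s s' := by
  by_cases hm : m ≤ m1 ∧ m' ≤ m1
  · have e1 : s = t := by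
      rcases hr with h | h
      · exact h.2
      · omega
    have e2 : s' = t' := by
      rcases hr' with h | h
      · exact h.2
      · omega
    have := hA.raw
    rw [e1, e2]
    unfold Lev at h h'
    exact Con.single hs (by unfold Band; omega) (by unfold Band; omega)
  · obtain ⟨a, ha, k1⟩ := hr.dev hA h (by omega)
    obtain ⟨a', ha', k2⟩ := hr'.dev hA h' (by omega)
    exact con_of_lk (dstep hC hC1 hA (y := t.1) (X := t.2) (y' := t'.1) (X' := t'.2) hs h h'
      (by omega) (by omega) h1 h2 hX hX' hL hL') ha ha' k1 k2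

def rem (R : Finset V) (s : St) : St := (s.1, s.2 \ R)

lemma Step.rem {s t : St} (h : Step s t) (R : Finset V) : Step (rem R s) (rem R t) :=
  ⟨h.1, fun v a b => by
    simp only [Lamp79.rem, Finset.mem_sdiff] at a b ⊢
    rw [h.2 v a b]⟩

lemma rem_empty (s : St) : rem ∅ s = s := by simp [rem]

structure IsPath (x : V) (A B : Finset V) (M : ℕ) (G : ℕ → St) (μ : ℕ → ℕ) (K : ℕ) : Prop where
  step : ∀ i < K, Step (G i) (G (i + 1))
  sub : ∀ i ≤ K, (G i).2 ⊆ B
  lev : ∀ i ≤ K, L (G i) + μ i ≤ M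
  low : ∀ i ≤ K, ∀ R, lv x (A \ R) ≤ L (rem R (G i)) + μ i
  pos : ∀ i ≤ K, 1 ≤ μ i
  lip : ∀ i < K, μ i ≤ μ (i + 1) + 1 ∧ μ (i + 1) ≤ μ i + 1
  start : μ 0 = 1
  stop : μ K = 1

lemma IsPath.rev {x : V} {A B : Finset V} {G : ℕ → St} {μ : ℕ → ℕ} {K : ℕ}
    (h : IsPath x A B M G μ K) : IsPath x A B M (fun i => G (K - i)) (fun i => μ (K - i)) K where
  step i hi := by
    have := (h.step (K - (i + 1)) (by omega)).symm
    rwa [show K - (i + 1) + 1 = K - i by omega] at this
  sub i _ := h.sub _ (by omega)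
  lev i _ := h.lev _ (by omega)
  low i _ := h.low _ (by omega)
  pos i _ := h.pos _ (by omega)
  lip i hi := by
    have := h.lip (K - (i + 1)) (by omega)
    rw [show K - (i + 1) + 1 = K - i by omega] at this
    omega
  start := by simpa using h.stop
  stop := by simpa using h.start

lemma IsPath.lev_rem {x : V} {A B : Finset V} {G : ℕ → St} {μ : ℕ → ℕ} {K : ℕ}
    (h : IsPath x A B M G μ K) {R : Finset V} (hR : M ≤ lv x (A \ R) + D) {i : ℕ} (hi : i ≤ K) :
    Lev M D (rem R (G i)) (μ i) := by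
  have h1 := h.lev i hi
  have h2 := h.low i hi R
  have h3 : L (rem R (G i)) ≤ L (G i) := lv_mono _ Finset.sdiff_subset
  unfold Lev; omega

lemma IsPath.chain (hC : DevNear C) (hC1 : 1 ≤ C) (hA : Arith C D m1 r) {x : V} {A B : Finset V}
    {G : ℕ → St} {μ : ℕ → ℕ} {K : ℕ} (h : IsPath x A B M G μ K) {R : Finset V}
    (hR : M ≤ lv x (A \ R) + D) : ∀ i ≤ K, (∀ j ≤ i, Lt m1 B (G j).1 (μ j)) →
      ∀ s, Rep C m1 r M (rem R (G i)) (μ i) s →
        Con (Band ((M : ℤ) - r) ((M : ℤ) - 1)) (rem R (G 0)) s := by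
  intro i
  induction i with
  | zero =>
    intro _ _ s hs
    have := hA.pos
    have := h.start
    rcases hs with hs | hs
    · rw [hs.2]; exact Con.refl _ _
    · omega
  | succ i ih =>
    intro hi hL s hs
    have sub : ∀ j ≤ K, (rem R (G j)).2 ⊆ B := fun j hj => Finset.sdiff_subset.trans (h.sub j hj)
    obtain ⟨s0, h0⟩ := exists_rep hC hA (h.lev_rem hR (show i ≤ K by omega)) (sub i (by omega))
      (hL i (by omega))
    exact (ih (by omega) (fun j hj => hL j (by omega)) s0 h0).trans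
      (rep_step hC hC1 hA ((h.step i (by omega)).rem R) (h.lev_rem hR (by omega)) (h.lev_rem hR hi)
        (h.pos i (by omega)) (h.pos _ hi) (h.lip i (by omega)).1 (h.lip i (by omega)).2
        (sub i (by omega)) (sub _ hi) (hL i (by omega)) (hL _ le_rfl) h0 hs)

lemma lt_of_light {A B : Finset V} (hB : (B \ A).card ≤ 3) {y : V} {m : ℕ}
    (h : ∀ e, InBox (blk y) (nb m1 m) e → ¬ Heavy A e) : Lt m1 B y m := by
  have h1 := light_count A _ _ h
  have h2 : (B.filter fun v => InBox (blk y) (nb m1 m) (blk v))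
      ⊆ (A.filter fun v => InBox (blk y) (nb m1 m) (blk v)) ∪ (B \ A) := by
    intro v hv
    simp only [Finset.mem_union, Finset.mem_filter, Finset.mem_sdiff] at hv ⊢
    tauto
  have h3 := (Finset.card_le_card h2).trans (Finset.card_union_le _ _)
  unfold Lt; omega

lemma IsPath.clear (hC : DevNear C) (hC1 : 1 ≤ C) (hA : Arith C D m1 r) {x : V} {A B : Finset V}
    (hB : (B \ A).card ≤ 3) {G : ℕ → St} {μ : ℕ → ℕ} {K : ℕ} (h : IsPath x A B M G μ K)
    (bad : ∃ i, i ≤ K ∧ ∃ e, InBox (blk (G i).1) (nb m1 (μ i)) e ∧ Heavy A e) :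
    ∃ e, Heavy A e ∧ ∀ R R' : Finset V, M ≤ lv x (A \ R) + D → M ≤ lv x (A \ R') + D →
      (∀ v, blk v ≠ e → (v ∈ R ↔ v ∈ R')) →
      Con (Band ((M : ℤ) - r) ((M : ℤ) - 1)) (rem R (G 0)) (rem R' (G 0)) := by
  classical
  obtain ⟨i0, ⟨hK, e, he, hh⟩, hmin⟩ : ∃ i0, (i0 ≤ K ∧ ∃ e, InBox (blk (G i0).1) (nb m1 (μ i0)) e ∧
      Heavy A e) ∧ ∀ i < i0, ¬ (i ≤ K ∧ ∃ e, InBox (blk (G i).1) (nb m1 (μ i)) e ∧ Heavy A e) :=
    ⟨Nat.find bad, Nat.find_spec bad, fun i hi => Nat.find_min bad hi⟩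
  have hbig : m1 < μ i0 := by
    by_contra h1
    simp only [nb, show μ i0 ≤ m1 by omega, if_true, InBox] at he
    omega
  obtain ⟨j, rfl⟩ : ∃ j, i0 = j + 1 := by
    rcases i0 with _ | j
    · have := hA.pos
      have := h.start
      omega
    · exact ⟨j, rfl⟩
  have light : ∀ i ≤ j, Lt m1 B (G i).1 (μ i) := fun i hi => lt_of_light hB fun e' h1 h2 =>
    hmin i (by omega) ⟨by omega, e', h1, h2⟩
  refine ⟨e, hh, fun R R' hR hR' hRR => ?_⟩
  have lip := h.lip j (by omega)
  have sub : ∀ R, (rem R (G j)).2 ⊆ B := fun R => Finset.sdiff_subset.trans (h.sub j (by omega))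
  have l1 := h.lev_rem hR (show j ≤ K by omega)
  have l2 := h.lev_rem hR' (show j ≤ K by omega)
  obtain ⟨s, hs⟩ := exists_rep hC hA l1 (sub R) (light j le_rfl)
  obtain ⟨s', hs'⟩ := exists_rep hC hA l2 (sub R') (light j le_rfl)
  obtain ⟨a, ha, k1⟩ := hs.dev hA l1 (by omega)
  obtain ⟨a', ha', k2⟩ := hs'.dev hA l2 (by omega)
  have v1 := valid_cut hA (y := (G j).1) (X := (G j).2 \ R) l1 (by omega) (sub R) (light j le_rfl)
  have v2 := valid_cut hA (y := (G j).1) (X := (G j).2 \ R') l2 (by omega) (sub R') (light j le_rfl)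
  have tl := tlen_le (C := C) (close_of_d1 (h.step j (by omega)).1) lip.2 he
  have k := lk_toggle hC (gap_of hA) v1 v2 (q := ((blk (G j).1).1 - 1, (blk (G j).1).2 - 1))
    (by simp only [Close]; omega) tl.1.1 tl.1.2 tl.2 (fun v hv => by
      simp only [mem_cut, Finset.mem_sdiff, hRR v hv])
  exact ((h.chain hC hC1 hA hR j (by omega) light s hs).trans (con_of_lk k ha ha' k1 k2)).trans
    (h.chain hC hC1 hA hR' j (by omega) light s' hs').symm

end

lemma descent_one {s : St} {n : ℕ} (h : L s = n + 1) :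
    ∃ t, Step s t ∧ t.2 ⊆ s.2 ∧ L t = n ∧ (n = 0 → t = (0, ∅)) := by
  obtain ⟨y, X⟩ := s
  obtain ⟨S, hS, hX⟩ := lv_spec y X
  simp only [L] at h
  rw [h] at hS
  cases hS with
  | @step u _ _ S0 h0 hd =>
    have st : Step (y, X) (u, (X ∩ S0).erase u) := by
      refine ⟨by rw [d1_comm]; exact hd, fun v a b => ?_⟩
      simp only [Finset.mem_erase, Finset.mem_inter] at a b ⊢
      refine ⟨fun hv => ⟨b, hv, ?_⟩, fun hv => hv.2.1⟩
      rcases Finset.mem_insert.1 (hX hv) with h1 | h1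
      · exact absurd h1 a
      · exact h1
    have h1 : lv u ((X ∩ S0).erase u) ≤ n :=
      lv_le h0 ((Finset.erase_subset _ _).trans Finset.inter_subset_right)
    have h2 := st.symm.le
    refine ⟨_, st, (Finset.erase_subset _ _).trans Finset.inter_subset_left, ?_, ?_⟩
    · simp only [L] at h2 ⊢; omega
    · rintro rfl
      cases h0 with
      | nil =>
        refine Prod.ext rfl ?_
        ext v
        simp only [Finset.mem_erase, Finset.mem_inter, Finset.mem_singleton]
        tauto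

lemma descent (n : ℕ) : ∀ s : St, L s = n + 1 → ∃ α : ℕ → St, α 0 = s ∧ α (n + 1) = (0, ∅) ∧
    (∀ t ≤ n, Step (α t) (α (t + 1))) ∧ ∀ t ≤ n + 1, (α t).2 ⊆ s.2 ∧ L (α t) + t ≤ n + 1 := by
  induction n with
  | zero =>
    intro s hs
    obtain ⟨t, h1, h2, h3, h4⟩ := descent_one hs
    refine ⟨fun i => if i = 0 then s else t, by simp, by simp [h4 rfl], fun i hi => ?_,
      fun i hi => ?_⟩
    · have : i = 0 := by omega
      subst this; simpa using h1
    · by_cases h : i = 0
      · subst h; simp [hs]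
      · simp only [h, if_false]; exact ⟨h2, by omega⟩
  | succ n ih =>
    intro s hs
    obtain ⟨t, h1, h2, h3, -⟩ := descent_one hs
    obtain ⟨α, a1, a2, a3, a4⟩ := ih t h3
    refine ⟨fun i => if i = 0 then s else α (i - 1), by simp, by simpa using a2, fun i hi => ?_,
      fun i hi => ?_⟩
    · by_cases h : i = 0
      · subst h; simpa [a1] using h1
      · have := a3 (i - 1) (by omega)
        rw [show i - 1 + 1 = i by omega] at this
        simpa [h] using this
    · by_cases h : i = 0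
      · subst h; simp [hs]
      · simp only [h, if_false]
        have := a4 (i - 1) (by omega)
        exact ⟨this.1.trans h2, by omega⟩

lemma low_descent {c : St} {α : ℕ → St} {n : ℕ} (h0 : Step c (α 0))
    (h : ∀ t ≤ n, Step (α t) (α (t + 1))) (R : Finset V) :
    ∀ t ≤ n + 1, L (rem R c) ≤ L (rem R (α t)) + (t + 1) := by
  intro t
  induction t with
  | zero => intro _; exact (h0.rem R).symm.le
  | succ t ih =>
    intro ht
    have := ih (by omega)
    have := ((h t (by omega)).rem R).symm.le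
    omega

lemma exists_path {c a b : St} {n : ℕ} (ha : Step c a) (hb : Step c b) (la : L a = n + 1)
    (lb : L b = n + 1) : ∃ G μ K, G 0 = a ∧ G K = b ∧
      IsPath c.1 c.2 (insert c.1 (insert a.1 (insert b.1 c.2))) (n + 2) G μ K := by
  obtain ⟨α, a1, a2, a3, a4⟩ := descent n a la
  obtain ⟨β, b1, b2, b3, b4⟩ := descent n b lb
  have sa : a.2 ⊆ insert c.1 (insert a.1 (insert b.1 c.2)) := by
    intro v hv
    have := ha.2 v
    simp only [Finset.mem_insert]; tauto
  have sb : b.2 ⊆ insert c.1 (insert a.1 (insert b.1 c.2)) := by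
    intro v hv
    have := hb.2 v
    simp only [Finset.mem_insert]; tauto
  refine ⟨fun i => if i ≤ n + 1 then α i else β (2 * (n + 1) - i),
    fun i => if i ≤ n + 1 then i + 1 else 2 * (n + 1) - i + 1, 2 * (n + 1), by simp [a1],
    by simp only; rw [if_neg (by omega)]; simp [b1], ?_, ?_, ?_, ?_, ?_, ?_, by simp, ?_⟩
  · intro i hi
    by_cases h1 : i + 1 ≤ n + 1
    · simp only [h1, show i ≤ n + 1 by omega, if_true]; exact a3 i (by omega)
    · have h2 := (b3 (2 * (n + 1) - (i + 1)) (by omega)).symm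
      rw [show 2 * (n + 1) - (i + 1) + 1 = 2 * (n + 1) - i by omega] at h2
      simp only [h1, if_false]
      split_ifs with h3
      · have : i = n + 1 := by omega
        rw [this, a2, ← b2]
        rw [this, show 2 * (n + 1) - (n + 1) = n + 1 by omega] at h2
        exact h2
      · exact h2
  · intro i hi
    split_ifs with h
    · exact (a4 i h).1.trans sa
    · exact (b4 _ (by omega)).1.trans sb
  · intro i hi
    split_ifs with h
    · have := (a4 i h).2; omega
    · have := (b4 (2 * (n + 1) - i) (by omega)).2; omega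
  · intro i hi R
    split_ifs with h
    · exact low_descent (a1 ▸ ha) a3 R i h
    · exact low_descent (b1 ▸ hb) b3 R _ (by omega)
  · intro i _; split_ifs <;> omega
  · intro i _; split_ifs <;> omega
  · rw [if_neg (by omega)]; omega

lemma card_block (A : Finset V) (e : V) : (A.filter fun v => blk v = e).card ≤ bb * bb := by
  have h1 : (A.filter fun v => blk v = e) ⊆ cells e :=
    fun v hv => mem_cells.2 (Finset.mem_filter.1 hv).2
  refine (Finset.card_le_card h1).trans ?_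
  rw [cells, Finset.card_product, Int.card_Ico, Int.card_Ico]
  simp

theorem peak : ∃ r : ℕ, ∀ c a b : St, Step c a → Step c b → L a + 1 = L c → L b + 1 = L c →
    2 ≤ L c → Con (Band ((L c : ℤ) - r) ((L c : ℤ) - 1)) a b := by
  classical
  obtain ⟨C, hC1, hC⟩ := exists_devNear
  obtain ⟨m1, r, hA⟩ := exists_arith C (2 * (2 * bb) * (bb * bb + bb * bb))
  refine ⟨r, fun c a b ha hb la lb h2 => ?_⟩
  obtain ⟨n, hn⟩ : ∃ n, L c = n + 2 := ⟨L c - 2, by omega⟩
  obtain ⟨G, μ, K, g0, gK, hP⟩ := exists_path (n := n) ha hb (by omega) (by omega)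
  rw [← hn] at hP
  obtain ⟨x, A⟩ := c
  simp only at hP
  set M := L (x, A) with hM
  have hB : (insert x (insert a.1 (insert b.1 A)) \ A).card ≤ 3 := by
    refine (Finset.card_le_card (t := {x, a.1, b.1}) fun v hv => ?_).trans Finset.card_le_three
    simp only [Finset.mem_sdiff, Finset.mem_insert, Finset.mem_singleton] at hv ⊢
    tauto
  have adm0 : M ≤ lv x (A \ ∅) + 2 * (2 * bb) * (bb * bb + bb * bb) := by
    rw [Finset.sdiff_empty]; exact Nat.le_add_right _ _
  by_cases bad : ∃ i, i ≤ K ∧ ∃ e, InBox (blk (G i).1) (nb m1 (μ i)) e ∧ Heavy A e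
  swap
  · have := hP.chain hC hC1 hA adm0 K le_rfl (fun j hj => lt_of_light hB fun e h1 h2 =>
      bad ⟨j, hj, e, h1, h2⟩) (rem ∅ (G K)) (Or.inl ⟨by rw [hP.stop]; exact hA.pos, rfl⟩)
    rwa [rem_empty, rem_empty, g0, gK] at this
  obtain ⟨e1, hv1, k1⟩ := hP.clear hC hC1 hA hB bad
  obtain ⟨e2, hv2, k2⟩ := hP.rev.clear hC hC1 hA hB (by
    obtain ⟨i, hi, h⟩ := bad
    exact ⟨K - i, by omega, by simpa only [show K - (K - i) = i by omega] using h⟩)
  simp only [Nat.sub_zero, gK] at k2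
  rw [g0] at k1
  have hne : ∀ e, ∃ p, Heavy A e → p ∈ A ∧ blk p = e := by
    intro e
    by_cases h : Heavy A e
    · have : 0 < (A.filter fun v => blk v = e).card := by
        have := bb_val
        unfold Heavy at h; omega
      obtain ⟨p, hp⟩ := Finset.card_pos.1 this
      exact ⟨p, fun _ => Finset.mem_filter.1 hp⟩
    · exact ⟨0, fun h' => absurd h' h⟩
  choose pk hpk using hne
  let R : V → Finset V := fun e => (A.filter fun v => blk v = e).erase (pk e)
  have memR : ∀ e v, v ∈ R e ↔ v ≠ pk e ∧ v ∈ A ∧ blk v = e := by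
    intro e v; simp only [R, Finset.mem_erase, Finset.mem_filter]
  have cardR : ∀ e, (R e).card ≤ bb * bb := fun e =>
    (Finset.card_erase_le).trans (card_block A e)
  have adm : ∀ e e', Heavy A e → Heavy A e' →
      M ≤ lv x (A \ (R e ∪ R e')) + 2 * (2 * bb) * (bb * bb + bb * bb) := by
    intro e e' h h'
    have h1 := lv_union_near x (A \ (R e ∪ R e')) (R e ∪ R e') (2 * bb) (fun v hv => by
      have key : ∀ f, Heavy A f → v ∈ R f →
          ∃ u, (u ∈ A \ (R e ∪ R e') ∨ u = x) ∧ d1 u v ≤ 2 * bb := by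
        intro f hf hv
        obtain ⟨p1, p2⟩ := hpk f hf
        refine ⟨pk f, Or.inl ?_, ?_⟩
        · simp only [Finset.mem_sdiff, Finset.mem_union, memR]
          refine ⟨p1, ?_⟩
          rintro (h3 | h3)
          · exact h3.1 (by rw [← h3.2.2, p2])
          · exact h3.1 (by rw [← h3.2.2, p2])
        · have p3 := ((memR f v).1 hv).2.2
          rw [← p2] at p3
          rw [bb_val]
          simp only [blk, Prod.mk.injEq] at p3
          unfold d1; omega
      rcases Finset.mem_union.1 hv with hv | hv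
      · exact key e h hv
      · exact key e' h' hv)
    have h3 : lv x A ≤ lv x (A \ (R e ∪ R e') ∪ (R e ∪ R e')) :=
      lv_mono x (by rw [Finset.sdiff_union_self_eq_union]; exact Finset.subset_union_left)
    have h4 : (R e ∪ R e').card ≤ bb * bb + bb * bb :=
      (Finset.card_union_le _ _).trans (Nat.add_le_add (cardR e) (cardR e'))
    have h5 := Nat.mul_le_mul_left (2 * (2 * bb)) h4
    simp only [hM, L]; omega
  have adm1 : ∀ e, Heavy A e → M ≤ lv x (A \ R e) + 2 * (2 * bb) * (bb * bb + bb * bb) := by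
    intro e h; simpa only [Finset.union_self] using adm e e h h
  have link : ∀ (e : V) (Q : Finset V), Heavy A e → R e ⊆ Q →
      M ≤ lv x (A \ Q) + 2 * (2 * bb) * (bb * bb + bb * bb) →
      Con (Band ((M : ℤ) - r) ((M : ℤ) - 1)) (rem Q a) (rem Q b) := by
    intro e Q h hQ hadm
    obtain ⟨p1, p2⟩ := hpk e h
    have h1 := heavy_drop x e (pk e) A (A \ Q) h p1 p2 (fun v hv => by
      rw [Finset.mem_sdiff] at hv
      by_cases h3 : v = pk e
      · exact Or.inr h3
      · exact Or.inl ⟨hv.1, fun h4 => hv.2 (hQ ((memR e v).2 ⟨h3, hv.1, h4⟩))⟩)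
    have l1 := hP.lev_rem hadm (Nat.zero_le K)
    have l2 := hP.lev_rem hadm (le_refl K)
    rw [g0, hP.start] at l1
    rw [gK, hP.stop] at l2
    have := hA.raw
    have := hA.pos
    have w0 : Band ((M : ℤ) - r) ((M : ℤ) - 1) (rem Q (x, A)) := by
      simp only [Band, L, rem, hM] at hadm ⊢; omega
    unfold Lev at l1 l2
    exact (Con.single (ha.rem Q).symm (by unfold Band; omega) w0).trans
      (Con.single (hb.rem Q) w0 (by unfold Band; omega))
  have s1 := k1 ∅ (R e1) adm0 (adm1 e1 hv1) (fun v hv => by simp [memR, hv])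
  have s2 := link e1 (R e1) hv1 (Finset.Subset.refl _) (adm1 e1 hv1)
  have s3 := k2 (R e1) (R e1 ∪ R e2) (adm1 e1 hv1) (adm e1 e2 hv1 hv2)
    (fun v hv => by simp [memR, hv])
  have s4 := link e1 (R e1 ∪ R e2) hv1 Finset.subset_union_left (adm e1 e2 hv1 hv2)
  have s5 := k1 (R e2) (R e1 ∪ R e2) (adm1 e2 hv2) (adm e1 e2 hv1 hv2)
    (fun v hv => by simp [memR, hv])
  have s6 := link e2 (R e2) hv2 (Finset.Subset.refl _) (adm1 e2 hv2)
  have s7 := k2 ∅ (R e2) adm0 (adm1 e2 hv2) (fun v hv => by simp [memR, hv])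
  rw [rem_empty] at s1 s7
  exact (((((s1.trans s2).trans s3).trans s4.symm).trans s5.symm).trans s6).trans s7.symm

end Pool.Agent.Lamp79
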