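import Pool.Agent.Lib.MP_14152d_al.Peak

/-! Word length, pushing peaks down, and the behaviour at infinity. -/

namespace Pool.Agent.Lamp79

inductive SP : ℕ → St → Prop
  | zero : SP 0 (0, ∅)
  | step {n : ℕ} {s t : St} : SP n s → Step s t → SP (n + 1) t

lemma SP.le {n : ℕ} {s : St} (h : SP n s) : L s ≤ n := by
  induction h with
  | zero => exact lv_le Tr.nil (Finset.empty_subset _)
  | step _ hs ih => have := hs.le; omega

lemma SP.parity {n : ℕ} {s : St} (h : SP n s) : ((n : ℤ) + s.1.1 + s.1.2) % 2 = 0 := by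
  induction h with
  | zero => simp
  | step _ hs ih => have := hs.1; unfold d1 at this; push_cast; omega

lemma sp_of_pos (n : ℕ) : ∀ s : St, L s = n + 1 → SP (n + 1) s := by
  induction n with
  | zero =>
    intro s hs
    obtain ⟨t, h1, -, -, h4⟩ := descent_one hs
    exact SP.step (h4 rfl ▸ SP.zero) h1.symm
  | succ n ih =>
    intro s hs
    obtain ⟨t, h1, -, h3, -⟩ := descent_one hs
    exact SP.step (ih t h3) h1.symm

lemma sp_of_zero {s : St} (h : L s = 0) : SP 2 s := by
  obtain ⟨y, X⟩ := s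
  obtain ⟨S, hS, hX⟩ := lv_spec y X
  simp only [L] at h
  rw [h] at hS
  cases hS with
  | nil =>
    have a : Step (0, ∅) ((1, 0), ∅) := ⟨by simp [d1], fun _ _ _ => Iff.rfl⟩
    have b : Step ((1, 0), ∅) (0, X) := ⟨by simp [d1], fun v _ h2 => by
      simp only [Finset.notMem_empty, false_iff]
      exact fun hv => h2 (Finset.mem_singleton.1 (hX hv))⟩
    exact SP.step (SP.step SP.zero a) b

/-- word length -/
noncomputable def wl (s : St) : ℕ := sInf {n | SP n s}

lemma wl_le {n : ℕ} {s : St} (h : SP n s) : wl s ≤ n := Nat.sInf_le h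

lemma wl_spec (s : St) : SP (wl s) s := by
  have : {n | SP n s}.Nonempty := by
    rcases h : L s with _ | n
    · exact ⟨2, sp_of_zero h⟩
    · exact ⟨n + 1, sp_of_pos n s h⟩
  exact Nat.sInf_mem this

lemma L_le_wl (s : St) : L s ≤ wl s := (wl_spec s).le

lemma wl_eq {s : St} (h : 1 ≤ L s) : wl s = L s := by
  obtain ⟨n, hn⟩ : ∃ n, L s = n + 1 := ⟨L s - 1, by omega⟩
  have := wl_le (sp_of_pos n s hn)
  have := L_le_wl s
  omega

lemma wl_le_add (s : St) : wl s ≤ L s + 2 := by
  rcases Nat.eq_zero_or_pos (L s) with h | h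
  · have := wl_le (sp_of_zero h); omega
  · rw [wl_eq h]; omega

lemma Step.wl_le {s t : St} (h : Step s t) : wl t ≤ wl s + 1 :=
  Lamp79.wl_le (SP.step (wl_spec s) h)

lemma Step.wl_ne {s t : St} (h : Step s t) : wl s ≠ wl t := by
  have h1 := (wl_spec s).parity
  have h2 := (wl_spec t).parity
  have h3 := h.1
  unfold d1 at h3; omega

def Ann (n N : ℕ) (s : St) : Prop := n ≤ wl s ∧ wl s ≤ N

theorem push : ∃ r : ℕ, 2 ≤ r ∧ ∀ (n : ℕ) (g h : St), wl g ≤ n + r → wl h ≤ n + r →
    Con (fun s => n ≤ wl s) g h → Con (Ann n (n + r)) g h := by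
  obtain ⟨r, hr⟩ := peak
  refine ⟨r + 3, by omega, fun n g h hg hh hc => ?_⟩
  have one : ∀ N, n + (r + 3) ≤ N → Con (Ann n (N + 1)) g h → Con (Ann n N) g h := by
    intro N hN hc
    have key : ∀ u, Con (Ann n (N + 1)) g u → (wl u ≤ N → Con (Ann n N) g u) ∧
        (wl u = N + 1 → ∀ a, Step u a → wl a = N → Con (Ann n N) g a) := by
      intro u hu
      induction hu with
      | refl => exact ⟨fun _ => Con.refl _ _, fun h => by omega⟩
      | @tail u v _ hl ih =>
        obtain ⟨st, w1, w2⟩ := hl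
        have e1 := st.wl_le
        have e2 := st.symm.wl_le
        have e3 := st.wl_ne
        unfold Ann at w1 w2
        by_cases h1 : wl u ≤ N
        · refine ⟨fun h2 => (ih.1 h1).trans (Con.single st ⟨w1.1, h1⟩ ⟨w2.1, h2⟩),
            fun h2 a ha h3 => (ih.1 h1).trans ?_⟩
          have l1 := wl_le_add u
          have l2 := wl_le_add v
          have l3 := wl_le_add a
          have l4 := wl_eq (s := u) (by omega)
          have l5 := wl_eq (s := v) (by omega)
          have l6 := wl_eq (s := a) (by omega)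
          refine Con.mono (fun s hs => ?_) (hr v u a st.symm ha (by omega) (by omega) (by omega))
          unfold Band at hs
          have := wl_eq (s := s) (by omega)
          unfold Ann; omega
        · exact ⟨fun _ => ih.2 (by omega) v st (by omega), fun h2 => by omega⟩
    exact (key h hc).1 (by omega)
  have fin : ∃ k, Con (Ann n (n + (r + 3) + k)) g h := by
    clear one hh
    induction hc with
    | refl => exact ⟨0, Con.refl _ _⟩
    | @tail u v _ hl ih =>
      obtain ⟨k, hk⟩ := ih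
      refine ⟨k + wl u + wl v, (Con.mono (fun s hs => ?_) hk).trans
        (Con.single hl.1 ⟨hl.2.1, by omega⟩ ⟨hl.2.2, by omega⟩)⟩
      unfold Ann at *; omega
  obtain ⟨k, hk⟩ := fin
  induction k with
  | zero => exact hk
  | succ k ih => exact ih (one _ (by omega) hk)

lemma con_move (p u v : V) (X : Finset V) (hp : p ∈ X) : Con (fun s => p ∈ s.2) (u, X) (v, X) := by
  generalize hk : d1 u v = k
  induction k generalizing v with
  | zero => rw [← eq_of_d1 hk]; exact Con.refl _ _
  | succ k ih =>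
    obtain ⟨w, hw, hwv⟩ := exists_closer hk
    exact (ih w hw).trans (Con.single ⟨hwv, fun _ _ _ => Iff.rfl⟩ hp hp)

lemma con_keep (p : V) (s t : St) (hs : p ∈ s.2) (ht : p ∈ t.2) : Con (fun s => p ∈ s.2) s t := by
  obtain ⟨u, X⟩ := s
  obtain ⟨u', X'⟩ := t
  have key : ∀ (T X : Finset V), p ∈ X → (∀ v, v ∉ T → (v ∈ X ↔ v ∈ X')) →
      Con (fun s => p ∈ s.2) (u, X) (u', X') := by
    intro T
    induction T using Finset.induction_on with
    | empty =>
      intro X hX h
      have : X = X' := by ext v; exact h v (by simp)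
      rw [this]; exact con_move p u u' X' ht
    | insert w T hw ih =>
      intro X hX h
      let X1 : Finset V := if w ∈ X' then insert w X else X.erase w
      have h1 : ∀ v, v ≠ w → (v ∈ X ↔ v ∈ X1) := by
        intro v hv; simp only [X1]; split_ifs <;> simp [hv]
      have h2 : ∀ v, v ∉ T → (v ∈ X1 ↔ v ∈ X') := by
        intro v hv
        by_cases hvw : v = w
        · subst hvw; simp only [X1]; split_ifs with h3 <;> simp [h3]
        · rw [← h1 v hvw]; exact h v (by simp [hv, hvw])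
      have h3 : p ∈ X1 := by
        by_cases hpw : p = w
        · rw [h2 p (hpw ▸ hw)]; exact ht
        · exact (h1 p hpw).1 hX
      have st : Step (w, X) ((w.1 + 1, w.2), X1) := ⟨by simp [d1], fun v a _ => h1 v a⟩
      exact (((con_move p u w X hX).trans (Con.single st hX h3)).trans
        (con_move p _ u X1 h3)).trans (ih X1 h3 h2)
  exact key (X ∪ X') X hs fun v hv => by
    simp only [Finset.mem_union, not_or] at hv; simp [hv.1, hv.2]

/-- a base point of the `n`-th sphere -/
def base (n : ℕ) : St := (((n : ℤ), 0), {((n : ℤ), 0)})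

lemma con_far {n : ℕ} {p : V} (hp : n ≤ d1 0 p) (s t : St) (hs : p ∈ s.2) (ht : p ∈ t.2) :
    Con (fun s => n ≤ wl s) s t :=
  Con.mono (fun u hu => hp.trans ((d1_le_lv_of_mem hu).trans (L_le_wl u))) (con_keep p s t hs ht)

lemma d1_base (n : ℕ) : d1 0 ((n : ℤ), 0) = n := by simp [d1]

lemma con_base_of_lamp {n : ℕ} {s : St} {p : V} (hp : n ≤ d1 0 p) (hs : p ∈ s.2) :
    Con (fun s => n ≤ wl s) s (base n) :=
  (con_far hp s (0, {p, ((n : ℤ), 0)}) hs (by simp)).trans
    (con_far (d1_base n).ge _ _ (by simp) (by simp [base]))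

lemma con_base_of_cursor {n : ℕ} {s : St} (hs : n ≤ d1 0 s.1) :
    Con (fun s => n ≤ wl s) s (base n) := by
  obtain ⟨x', h1, h2⟩ : ∃ x', d1 s.1 x' = 1 ∧ n ≤ d1 0 x' := by
    by_cases h : 0 ≤ s.1.1
    · exact ⟨(s.1.1 + 1, s.1.2), by simp [d1], by
        simp only [d1, Prod.fst_zero, Prod.snd_zero] at hs ⊢; omega⟩
    · exact ⟨(s.1.1 - 1, s.1.2), by simp [d1], by
        simp only [d1, Prod.fst_zero, Prod.snd_zero] at hs ⊢; omega⟩
  have st : Step s (x', insert x' s.2) := ⟨h1, fun v _ b => by simp only at b; simp [b]⟩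
  exact (Con.single st (hs.trans ((d1_le_lv _ _).trans (L_le_wl s)))
    (h2.trans ((d1_le_lv _ _).trans (L_le_wl (x', insert x' s.2))))).trans
    (con_base_of_lamp h2 (by simp))

lemma con_base_of_infinite {n : ℕ} {g : St} (h : {u | Con (fun s => n ≤ wl s) g u}.Infinite) :
    Con (fun s => n ≤ wl s) g (base n) := by
  let B : Finset V := Finset.Icc (-(n : ℤ)) n ×ˢ Finset.Icc (-(n : ℤ)) n
  have hB : ∀ v, v ∉ B → n ≤ d1 0 v := by
    intro v hv
    simp only [B, Finset.mem_product, Finset.mem_Icc] at hv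
    simp only [d1, Prod.fst_zero, Prod.snd_zero]; omega
  obtain ⟨u, hu, hu'⟩ := h.exists_notMem_finset (B ×ˢ B.powerset)
  refine Con.trans hu ?_
  by_cases h1 : u.1 ∈ B
  · have h2 : ¬ u.2 ⊆ B := fun h2 => hu' (Finset.mem_product.2 ⟨h1, Finset.mem_powerset.2 h2⟩)
    obtain ⟨p, hp, hp'⟩ := Finset.not_subset.1 h2
    exact con_base_of_lamp (hB p hp') hp
  · exact con_base_of_cursor (hB _ h1)

lemma wl_base (n : ℕ) : n ≤ wl (base n) ∧ wl (base n) ≤ n + 2 := by
  have h1 := d1_le_lv ((n : ℤ), 0) {((n : ℤ), 0)}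
  obtain ⟨S, hS⟩ := exists_tr 0 ((n : ℤ), 0)
  have h2 := lv_le (X := {((n : ℤ), 0)}) hS (by simpa using hS.end_mem)
  have h3 := L_le_wl (base n)
  have h4 := wl_le_add (base n)
  rw [d1_base] at h1 h2
  simp only [L, base] at h3 h4 ⊢
  omega

lemma infinite_base (n : ℕ) : {u | Con (fun s => n ≤ wl s) (base n) u}.Infinite :=
  Set.infinite_of_injective_forall_mem (f := fun v : V => ((v, {((n : ℤ), 0)}) : St))
    (fun _ _ h => (Prod.ext_iff.1 h).1)
    fun v => con_far (d1_base n).ge _ _ (by simp [base]) (by simp)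

lemma Con.strengthen {W : St → Prop} {g h : St} (hc : Con W g h) :
    Con (fun u => W u ∧ Con W g u) g h := by
  induction hc with
  | refl => exact Con.refl _ _
  | tail h1 hl ih =>
    exact ih.trans (Con.single hl.1 ⟨hl.2.1, h1⟩ ⟨hl.2.2, Relation.ReflTransGen.tail h1 hl⟩)

/-- the thick sphere, in terms of states -/
def Sph (n r : ℕ) (g : St) : Prop :=
  wl g ≤ n + r ∧ n ≤ wl g ∧ {u | Con (fun s => n ≤ wl s) g u}.Infinite

theorem sph_connected : ∃ r : ℕ, ∀ n : ℕ, Sph n r (base n) ∧
    ∀ g h, Sph n r g → Sph n r h → Con (Sph n r) g h := by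
  obtain ⟨r, h2, hr⟩ := push
  refine ⟨r, fun n => ⟨⟨by have := wl_base n; omega, (wl_base n).1, infinite_base n⟩,
    fun g h hg hh => ?_⟩⟩
  have h1 := hr n g h hg.1 hh.1
    ((con_base_of_infinite hg.2.2).trans (con_base_of_infinite hh.2.2).symm)
  refine Con.mono (fun u hu => ⟨hu.1.2, hu.1.1, hg.2.2.mono fun w hw => ?_⟩) h1.strengthen
  exact Con.trans (Con.mono (fun s hs => hs.1) hu.2).symm hw

end Pool.Agent.Lamp79
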