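import Pool.Agent.Lib.MP_14152d_al.Surgery

/-! Mobility in a half-lit strip of five rows. -/

namespace Pool.Agent.Lamp79
open Finsupp

lemma exists_carry (a : ℤ) (init : ℕ) (hi : init ≤ 1) (f : ℤ → ℕ) :
    ∃ c : ℤ → ℕ, c a = init ∧ (∀ i, c i ≤ 1) ∧ ∀ i, a < i → c i = (c (i - 1) + f i) % 2 := by
  refine ⟨fun i => (init + ∑ j ∈ Finset.Ioc a i, f j) % 2, by simp; omega, fun i => by simp only; omega,
    fun i hi => ?_⟩
  have : Finset.Ioc a i = insert i (Finset.Ioc a (i - 1)) := by
    ext j; simp only [Finset.mem_Ioc, Finset.mem_insert]; omega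
  simp only
  rw [this, Finset.sum_insert (by simp)]
  omega

def inS (c0 c1 r : ℤ) (v : V) : Prop := c0 ≤ v.1 ∧ v.1 ≤ c1 ∧ r ≤ v.2 ∧ v.2 ≤ r + 4

/-- multiplicity of the horizontal edges in a boundary row -/
def hm (r : ℤ) (c : ℤ → ℕ) (i : ℤ) : ℕ :=
  if (i + r) % 2 = 1 then (if c i = 1 then 1 else if c (i + 1) = 0 then 2 else 0) else c i

lemma hm_par {r : ℤ} {c : ℤ → ℕ} (hc : ∀ i, c i ≤ 1) (i : ℤ) : hm r c i % 2 = c i := by
  have := hc i
  unfold hm; split_ifs <;> omega

lemma hm_black {r : ℤ} {c : ℤ → ℕ} (hc : ∀ i, c i ≤ 1) {i : ℤ} (hi : (i + r) % 2 = 0) :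
    hm r c (i - 1) + hm r c i + (c i + c (i - 1)) % 2 = 2 := by
  have h1 := hc i
  have h2 := hc (i - 1)
  unfold hm
  rw [if_pos (by omega), if_neg (show ¬ (i + r) % 2 = 1 by omega), sub_add_cancel]
  split_ifs <;> omega

lemma exists_backbone (c0 c1 r : ℤ) (h01 : c0 < c1) (h0 : (c0 + r) % 2 = 1) (h1 : (c1 + r) % 2 = 1)
    (π : V → ℕ) (hπ : ∀ i j, c0 < i → i < c1 → r < j → j < r + 4 → π (i, j) % 2 = 0) :
    ∃ G : E →₀ ℕ,
      (∀ e, 0 < G e → inS c0 c1 r (src e) ∧ inS c0 c1 r (dst e) ∧ Conn G (c0, r + 2) (src e)) ∧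
      (∀ v, inS c0 c1 r v → v ≠ (c1, r + 4) → (deg G v + π v) % 2 = 0) ∧
      (∀ v, inS c0 c1 r v → (black v ∨ (v.1 + r) % 2 = 1) → Conn G (c0, r + 2) v) ∧
      (∀ v, inS c0 c1 r v → black v → c0 < v.1 → v.1 < c1 → deg G v + π v % 2 ≤ 2) ∧
      (∀ v, inS c0 c1 r v → black v → deg G v ≤ 4) := by
  obtain ⟨cb, cb0, cb1, cb2⟩ := exists_carry c0 0 (by omega)
    (fun i => π (i, r) + if (i + r) % 2 = 1 then 1 else 0)
  obtain ⟨e0, e00, e01, e02⟩ := exists_carry r ((π (c0, r) + 1) % 2) (by omega)
    (fun j => π (c0, j) + if j = r + 2 then 1 else 0)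
  obtain ⟨e1, e10, e11, e12⟩ := exists_carry r (cb c1) (cb1 _)
    (fun j => π (c1, j) + if j = r + 2 then 1 else 0)
  obtain ⟨ct, ct0, ct1, ct2⟩ := exists_carry c0 ((π (c0, r + 4) + 1 + e0 (r + 3)) % 2) (by omega)
    (fun i => π (i, r + 4) + if (i + r) % 2 = 1 then 1 else 0)
  let gh : ℤ → ℤ → ℕ := fun i j => if c0 ≤ i ∧ i < c1 then
    (if j = r + 2 then 1 else if j = r then hm r cb i else if j = r + 4 then hm r ct i else 0) else 0
  let ex : ℤ → ℤ → ℕ := fun i j => if i = c0 then e0 j else if i = c1 then e1 j else 0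
  let gv : ℤ → ℤ → ℕ := fun i j =>
    if c0 ≤ i ∧ i ≤ c1 ∧ (i + r) % 2 = 1 ∧ r ≤ j ∧ j ≤ r + 3 then 1 + ex i j else 0
  have gh_out : ∀ i j, ¬ (c0 ≤ i ∧ i < c1) → gh i j = 0 := fun i j h => if_neg h
  have gh_row : ∀ i j, j ≠ r → j ≠ r + 2 → j ≠ r + 4 → gh i j = 0 := by
    intro i j a b c; simp only [gh, a, b, c, if_false, ite_self]
  have gh_mid : ∀ i, c0 ≤ i → i < c1 → gh i (r + 2) = 1 := by
    intro i a b; simp only [gh, a, b, and_self, if_true]
  have gh_bot : ∀ i, c0 ≤ i → i < c1 → gh i r = hm r cb i := by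
    intro i a b
    simp only [gh, a, b, and_self, if_true]
    rw [if_neg (by omega)]
  have gh_top : ∀ i, c0 ≤ i → i < c1 → gh i (r + 4) = hm r ct i := by
    intro i a b
    simp only [gh, a, b, and_self, if_true]
    rw [if_neg (by omega), if_neg (by omega)]
  have gv_out : ∀ i j, ¬ (c0 ≤ i ∧ i ≤ c1 ∧ (i + r) % 2 = 1 ∧ r ≤ j ∧ j ≤ r + 3) → gv i j = 0 :=
    fun i j h => if_neg h
  have gv_in : ∀ i j, (c0 ≤ i ∧ i ≤ c1 ∧ (i + r) % 2 = 1 ∧ r ≤ j ∧ j ≤ r + 3) →
      gv i j = 1 + ex i j := fun i j h => if_pos h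
  have ex0 : ∀ j, ex c0 j = e0 j := fun j => if_pos rfl
  have ex1 : ∀ j, ex c1 j = e1 j := fun j => by
    simp only [ex]; rw [if_neg (by omega), if_pos trivial]
  have exi : ∀ i j, i ≠ c0 → i ≠ c1 → ex i j = 0 := fun i j a b => by
    simp only [ex, a, b, if_false]
  have exle : ∀ i j, ex i j ≤ 1 := fun i j => by
    have := e01 j; have := e11 j
    simp only [ex]; split_ifs <;> omega
  let g : E → ℕ := fun e => if e.2 then gv e.1.1 e.1.2 else gh e.1.1 e.1.2
  have hg : ∀ e, g e ≠ 0 → inS c0 c1 r (src e) ∧ inS c0 c1 r (dst e) := by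
    rintro ⟨⟨i, j⟩, b⟩ h
    cases b
    · simp only [g, Bool.false_eq_true, if_false] at h
      have a1 : c0 ≤ i ∧ i < c1 := by by_contra h'; exact h (gh_out i j h')
      have a2 : j = r ∨ j = r + 2 ∨ j = r + 4 := by
        by_contra h'; push Not at h'; exact h (gh_row i j h'.1 h'.2.1 h'.2.2)
      simp only [inS, src, dst, Bool.false_eq_true, if_false]; omega
    · simp only [g, if_true] at h
      have a1 : c0 ≤ i ∧ i ≤ c1 ∧ (i + r) % 2 = 1 ∧ r ≤ j ∧ j ≤ r + 3 := by
        by_contra h'; exact h (gv_out i j h')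
      simp only [inS, src, dst, if_true]; omega
  let G : E →₀ ℕ := Finsupp.onFinset
    ((Finset.Icc c0 c1 ×ˢ Finset.Icc r (r + 4)) ×ˢ Finset.univ) g (by
      intro e he
      have := (hg e he).1
      simp only [Finset.mem_product, Finset.mem_Icc, Finset.mem_univ, and_true]
      simp only [inS, src] at this
      tauto)
  have Gh : ∀ i j, G ((i, j), false) = gh i j := fun i j => rfl
  have Gv : ∀ i j, G ((i, j), true) = gv i j := fun i j => rfl
  have Gdeg : ∀ i j, deg G (i, j) = gh i j + gh (i - 1) j + gv i j + gv i (j - 1) :=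
    fun i j => rfl
  have cmid : ∀ i, c0 ≤ i → i ≤ c1 → Conn G (c0, r + 2) (i, r + 2) := by
    intro i a b
    have := conn_horiz (m := G) (a := c0) (b := r + 2) (n := (c1 - c0).toNat) (fun j hj => by
      rw [Gh, gh_mid _ (by omega) (by omega)]; omega) (i - c0).toNat (by omega)
    rwa [show c0 + ((i - c0).toNat : ℤ) = i by omega] at this
  have ccol : ∀ i j, c0 ≤ i → i ≤ c1 → (i + r) % 2 = 1 → r ≤ j → j ≤ r + 4 →
      Conn G (c0, r + 2) (i, j) := by
    intro i j a b c d e
    have key := conn_vert (m := G) (a := i) (b := r) (n := 4) (fun j hj => by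
      rw [Gv, gv_in _ _ (by omega)]; omega)
    have k1 := key 2 (by omega)
    have k2 := key (j - r).toNat (by omega)
    rw [show r + ((j - r).toNat : ℤ) = j by omega] at k2
    exact ((cmid i a b).trans (by simpa using k1.symm)).trans k2
  have cblack : ∀ i j, inS c0 c1 r (i, j) → (black (i, j) ∨ (i + r) % 2 = 1) →
      Conn G (c0, r + 2) (i, j) := by
    intro i j hv hb
    simp only [inS, black] at hv hb
    by_cases hA : (i + r) % 2 = 1
    · exact ccol i j hv.1 hv.2.1 hA hv.2.2.1 hv.2.2.2
    by_cases hj : j = r + 2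
    · rw [hj]; exact cmid i hv.1 hv.2.1
    have hi0 : c0 < i := by omega
    have hi1 : i < c1 := by omega
    have hpos : 0 < gh (i - 1) j ∨ 0 < gh i j := by
      have hj' : j = r ∨ j = r + 4 := by omega
      rcases hj' with rfl | rfl
      · rw [gh_bot _ (by omega) (by omega), gh_bot _ (by omega) (by omega)]
        have := hm_black (r := j) cb1 (i := i) (by omega)
        omega
      · rw [gh_top _ (by omega) (by omega), gh_top _ (by omega) (by omega)]
        have := hm_black (r := r) ct1 (i := i) (by omega)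
        omega
    rcases hpos with h | h
    · have := conn_edge (m := G) (e := ((i - 1, j), false)) (by rw [Gh]; exact h)
      simp only [src, dst, Bool.false_eq_true, if_false, sub_add_cancel] at this
      exact (ccol (i - 1) j (by omega) (by omega) (by omega) hv.2.2.1 hv.2.2.2).trans this
    · have := conn_edge (m := G) (e := ((i, j), false)) (by rw [Gh]; exact h)
      simp only [src, dst, Bool.false_eq_true, if_false] at this
      exact (ccol (i + 1) j (by omega) (by omega) (by omega) hv.2.2.1 hv.2.2.2).trans this.symm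
  refine ⟨G, fun e he => ?_, ?_, ?_, ?_, ?_⟩
  · have h2 := hg e (by change G e ≠ 0; omega)
    refine ⟨h2.1, h2.2, ?_⟩
    obtain ⟨⟨i, j⟩, b⟩ := e
    refine cblack i j h2.1 ?_
    cases b
    · rw [Gh] at he
      have a2 : j = r ∨ j = r + 2 ∨ j = r + 4 := by
        by_contra h'; push Not at h'; have := gh_row i j h'.1 h'.2.1 h'.2.2; omega
      simp only [black]; omega
    · rw [Gv] at he
      right
      by_contra h'
      have := gv_out i j (fun h => h' h.2.2.1); omega
  · rintro ⟨i, j⟩ hv hne
    simp only [inS] at hv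
    rw [Gdeg]
    have hj : j = r ∨ j = r + 1 ∨ j = r + 2 ∨ j = r + 3 ∨ j = r + 4 := by omega
    have q1 := e02 (r + 1) (by omega)
    have q2 := e02 (r + 2) (by omega)
    have q3 := e02 (r + 3) (by omega)
    have s1 := e12 (r + 1) (by omega)
    have s2 := e12 (r + 2) (by omega)
    have s3 := e12 (r + 3) (by omega)
    simp only [show r + 1 - 1 = r by ring, show r + 2 - 1 = r + 1 by ring,
      show r + 3 - 1 = r + 2 by ring, show ¬ r + 1 = r + 2 by omega, show ¬ r + 3 = r + 2 by omega,
      if_false, if_true] at q1 q2 q3 s1 s2 s3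
    by_cases hc0 : i = c0
    · subst hc0
      rw [gh_out (i - 1) j (by omega)]
      rcases hj with rfl | rfl | rfl | rfl | rfl
      · rw [gh_bot _ le_rfl h01, gv_in _ _ (by omega), gv_out _ _ (by omega), ex0]
        have := hm_par (r := j) cb1 i; omega
      · rw [gh_row _ _ (by omega) (by omega) (by omega), gv_in _ _ (by omega),
          gv_in _ _ (by omega), ex0, ex0, show r + 1 - 1 = r by ring]
        omega
      · rw [gh_mid _ le_rfl h01, gv_in _ _ (by omega), gv_in _ _ (by omega), ex0, ex0,
          show r + 2 - 1 = r + 1 by ring]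
        omega
      · rw [gh_row _ _ (by omega) (by omega) (by omega), gv_in _ _ (by omega),
          gv_in _ _ (by omega), ex0, ex0, show r + 3 - 1 = r + 2 by ring]
        omega
      · rw [gh_top _ le_rfl h01, gv_out _ _ (by omega), gv_in _ _ (by omega), ex0,
          show r + 4 - 1 = r + 3 by ring]
        have := hm_par (r := r) ct1 i; omega
    by_cases hc1 : i = c1
    · subst hc1
      rw [gh_out i j (by omega)]
      rcases hj with rfl | rfl | rfl | rfl | rfl
      · rw [gh_bot _ (by omega) (by omega), gv_in _ _ (by omega), gv_out _ _ (by omega), ex1]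
        have := hm_par (r := j) cb1 (i - 1)
        have := cb2 i h01
        simp only [h1, if_true] at this
        omega
      · rw [gh_row _ _ (by omega) (by omega) (by omega), gv_in _ _ (by omega),
          gv_in _ _ (by omega), ex1, ex1, show r + 1 - 1 = r by ring]
        omega
      · rw [gh_mid _ (by omega) (by omega), gv_in _ _ (by omega), gv_in _ _ (by omega), ex1, ex1,
          show r + 2 - 1 = r + 1 by ring]
        omega
      · rw [gh_row _ _ (by omega) (by omega) (by omega), gv_in _ _ (by omega),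
          gv_in _ _ (by omega), ex1, ex1, show r + 3 - 1 = r + 2 by ring]
        omega
      · exact absurd rfl hne
    have hi0 : c0 < i := by omega
    have hi1 : i < c1 := by omega
    have t1 := cb2 i hi0
    have t2 := ct2 i hi0
    have t3 := hm_par (r := r) cb1 i
    have t4 := hm_par (r := r) cb1 (i - 1)
    have t5 := hm_par (r := r) ct1 i
    have t6 := hm_par (r := r) ct1 (i - 1)
    by_cases hA : (i + r) % 2 = 1
    · simp only [hA, if_true] at t1 t2
      rcases hj with rfl | rfl | rfl | rfl | rfl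
      · rw [gh_bot _ (by omega) hi1, gh_bot _ (by omega) (by omega), gv_in _ _ (by omega),
          gv_out _ _ (by omega), exi _ _ hc0 hc1]
        omega
      · rw [gh_row _ _ (by omega) (by omega) (by omega), gh_row _ _ (by omega) (by omega) (by omega),
          gv_in _ _ (by omega), gv_in _ _ (by omega), exi _ _ hc0 hc1, exi _ _ hc0 hc1]
        have := hπ i (r + 1) hi0 hi1 (by omega) (by omega); omega
      · rw [gh_mid _ (by omega) hi1, gh_mid _ (by omega) (by omega),
          gv_in _ _ (by omega), gv_in _ _ (by omega), exi _ _ hc0 hc1, exi _ _ hc0 hc1]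
        have := hπ i (r + 2) hi0 hi1 (by omega) (by omega); omega
      · rw [gh_row _ _ (by omega) (by omega) (by omega), gh_row _ _ (by omega) (by omega) (by omega),
          gv_in _ _ (by omega), gv_in _ _ (by omega), exi _ _ hc0 hc1, exi _ _ hc0 hc1]
        have := hπ i (r + 3) hi0 hi1 (by omega) (by omega); omega
      · rw [gh_top _ (by omega) hi1, gh_top _ (by omega) (by omega), gv_out _ _ (by omega),
          gv_in _ _ (by omega), exi _ _ hc0 hc1]
        omega
    · simp only [hA, if_false] at t1 t2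
      rw [gv_out i j (by omega), gv_out i (j - 1) (by omega)]
      rcases hj with rfl | rfl | rfl | rfl | rfl
      · rw [gh_bot _ (by omega) hi1, gh_bot _ (by omega) (by omega)]; omega
      · rw [gh_row _ _ (by omega) (by omega) (by omega), gh_row _ _ (by omega) (by omega) (by omega)]
        have := hπ i (r + 1) hi0 hi1 (by omega) (by omega); omega
      · rw [gh_mid _ (by omega) hi1, gh_mid _ (by omega) (by omega)]
        have := hπ i (r + 2) hi0 hi1 (by omega) (by omega); omega
      · rw [gh_row _ _ (by omega) (by omega) (by omega), gh_row _ _ (by omega) (by omega) (by omega)]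
        have := hπ i (r + 3) hi0 hi1 (by omega) (by omega); omega
      · rw [gh_top _ (by omega) hi1, gh_top _ (by omega) (by omega)]; omega
  · rintro ⟨i, j⟩ hv hb
    exact cblack i j hv hb
  · rintro ⟨i, j⟩ hv hb hi0 hi1
    simp only [inS, black] at hv hb hi0 hi1
    rw [Gdeg]
    by_cases hA : (i + r) % 2 = 1
    · rw [gh_row _ _ (by omega) (by omega) (by omega), gh_row _ _ (by omega) (by omega) (by omega),
        gv_in _ _ (by omega), gv_in _ _ (by omega), exi _ _ (by omega) (by omega),
        exi _ _ (by omega) (by omega)]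
      have := hπ i j hi0 hi1 (by omega) (by omega); omega
    · rw [gv_out i j (by omega), gv_out i (j - 1) (by omega)]
      have hj : j = r ∨ j = r + 2 ∨ j = r + 4 := by omega
      have t1 := cb2 i hi0
      have t2 := ct2 i hi0
      simp only [hA, if_false] at t1 t2
      rcases hj with rfl | rfl | rfl
      · rw [gh_bot _ (by omega) hi1, gh_bot _ (by omega) (by omega)]
        have := hm_black (r := j) cb1 (i := i) (by omega)
        omega
      · rw [gh_mid _ (by omega) hi1, gh_mid _ (by omega) (by omega)]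
        have := hπ i (r + 2) hi0 hi1 (by omega) (by omega); omega
      · rw [gh_top _ (by omega) hi1, gh_top _ (by omega) (by omega)]
        have := hm_black (r := r) ct1 (i := i) (by omega)
        omega
  · rintro ⟨i, j⟩ hv hb
    simp only [inS, black] at hv hb
    rw [Gdeg]
    by_cases hA : (i + r) % 2 = 1
    · rw [gh_row _ _ (by omega) (by omega) (by omega), gh_row _ _ (by omega) (by omega) (by omega),
        gv_in _ _ (by omega), gv_in _ _ (by omega)]
      have := exle i j; have := exle i (j - 1); omega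
    · rw [gv_out i j (by omega), gv_out i (j - 1) (by omega)]
      have hj : j = r ∨ j = r + 2 ∨ j = r + 4 := by omega
      rcases hj with rfl | rfl | rfl
      · rw [gh_bot _ (by omega) (by omega), gh_bot _ (by omega) (by omega)]
        have := hm_black (r := j) cb1 (i := i) (by omega)
        omega
      · rw [gh_mid _ (by omega) (by omega), gh_mid _ (by omega) (by omega)]; omega
      · rw [gh_top _ (by omega) (by omega), gh_top _ (by omega) (by omega)]
        have := hm_black (r := r) ct1 (i := i) (by omega)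
        omega

end Pool.Agent.Lamp79
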