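import Pool.Agent.Lib.MP_14152d_al.Graph

/-! Box surgery: removing the part of a walk inside a box. -/

namespace Pool.Agent.Lamp79
open Finsupp

lemma exists_edge_of_deg {m : E →₀ ℕ} {v : V} (h : 0 < deg m v) :
    ∃ e, 0 < m e ∧ (src e = v ∨ dst e = v) := by
  obtain ⟨x, y⟩ := v
  unfold deg at h
  simp only at h
  by_cases h1 : 0 < m ((x, y), false)
  · exact ⟨_, h1, Or.inl rfl⟩
  by_cases h2 : 0 < m ((x - 1, y), false)
  · exact ⟨_, h2, Or.inr (by simp [dst])⟩
  by_cases h3 : 0 < m ((x, y), true)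
  · exact ⟨_, h3, Or.inl rfl⟩
  · exact ⟨((x, y - 1), true), by omega, Or.inr (by simp [dst])⟩

lemma deg_filter_of {m : E →₀ ℕ} (p : E → Prop) [DecidablePred p] {v : V}
    (h : ∀ e, (src e = v ∨ dst e = v) → p e) : deg (m.filter p) v = deg m v := by
  obtain ⟨x, y⟩ := v
  simp only [deg, Finsupp.filter_apply]
  rw [if_pos (h _ (Or.inl rfl)), if_pos (h _ (Or.inr (by simp [dst]))), if_pos (h _ (Or.inl rfl)),
    if_pos (h _ (Or.inr (by simp [dst])))]

noncomputable def vline (a b : ℤ) (n : ℕ) : E →₀ ℕ :=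
  ∑ j ∈ Finset.range n, single ((a, b + j), true) 1

noncomputable def hline (a b : ℤ) (n : ℕ) : E →₀ ℕ :=
  ∑ j ∈ Finset.range n, single ((a + j, b), false) 1

lemma sz_vline (a b : ℤ) (n : ℕ) : sz (vline a b n) = n := by
  induction n with
  | zero => simp [vline, sz_zero]
  | succ n ih => unfold vline at *; rw [Finset.sum_range_succ, sz_add, ih, sz_single]

lemma sz_hline (a b : ℤ) (n : ℕ) : sz (hline a b n) = n := by
  induction n with
  | zero => simp [hline, sz_zero]
  | succ n ih => unfold hline at *; rw [Finset.sum_range_succ, sz_add, ih, sz_single]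

lemma vline_pos {a b : ℤ} {n : ℕ} {e : E} :
    0 < vline a b n e ↔ ∃ j < n, e = ((a, b + j), true) := by
  induction n with
  | zero => simp [vline]
  | succ n ih =>
    unfold vline at *
    rw [Finset.sum_range_succ, Finsupp.add_apply, Finsupp.single_apply]
    constructor
    · intro h
      split_ifs at h with h1
      · exact ⟨n, by omega, h1.symm⟩
      · obtain ⟨j, hj, h2⟩ := ih.1 (by omega)
        exact ⟨j, by omega, h2⟩
    · rintro ⟨j, hj, h2⟩
      by_cases hjn : j = n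
      · subst hjn; rw [if_pos h2.symm]; omega
      · have := ih.2 ⟨j, by omega, h2⟩; omega

lemma hline_pos {a b : ℤ} {n : ℕ} {e : E} :
    0 < hline a b n e ↔ ∃ j < n, e = ((a + j, b), false) := by
  induction n with
  | zero => simp [hline]
  | succ n ih =>
    unfold hline at *
    rw [Finset.sum_range_succ, Finsupp.add_apply, Finsupp.single_apply]
    constructor
    · intro h
      split_ifs at h with h1
      · exact ⟨n, by omega, h1.symm⟩
      · obtain ⟨j, hj, h2⟩ := ih.1 (by omega)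
        exact ⟨j, by omega, h2⟩
    · rintro ⟨j, hj, h2⟩
      by_cases hjn : j = n
      · subst hjn; rw [if_pos h2.symm]; omega
      · have := ih.2 ⟨j, by omega, h2⟩; omega

lemma conn_vert {m : E →₀ ℕ} {a b : ℤ} {n : ℕ} (h : ∀ j < n, 0 < m ((a, b + j), true)) :
    ∀ j ≤ n, Conn m (a, b) (a, b + j) := by
  intro j hj
  induction j with
  | zero => simpa using Conn.refl m (a, b)
  | succ j ih =>
    refine (ih (by omega)).trans ?_
    have := conn_edge (h j (by omega))
    simpa [src, dst, add_assoc] using this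

lemma conn_horiz {m : E →₀ ℕ} {a b : ℤ} {n : ℕ} (h : ∀ j < n, 0 < m ((a + j, b), false)) :
    ∀ j ≤ n, Conn m (a, b) (a + j, b) := by
  intro j hj
  induction j with
  | zero => simpa using Conn.refl m (a, b)
  | succ j ih =>
    refine (ih (by omega)).trans ?_
    have := conn_edge (h j (by omega))
    simpa [src, dst, add_assoc] using this

/-- the open box -/
def inE (x0 y0 : ℤ) (k : ℕ) (v : V) : Prop :=
  x0 ≤ v.1 ∧ v.1 < x0 + k ∧ y0 ≤ v.2 ∧ v.2 < y0 + k

/-- the box with its outer ring -/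
def inB (x0 y0 : ℤ) (k : ℕ) (v : V) : Prop :=
  x0 - 1 ≤ v.1 ∧ v.1 ≤ x0 + k ∧ y0 - 1 ≤ v.2 ∧ v.2 ≤ y0 + k

lemma exists_frame (x0 y0 : ℤ) (k : ℕ) (r1 r2 r3 : ℤ) : ∃ Y : E →₀ ℕ, sz Y ≤ 7 * (k + 1) ∧
    (∀ e, 0 < Y e → inB x0 y0 k (src e) ∧ inB x0 y0 k (dst e) ∧ Conn Y (x0 - 1, y0 - 1) (src e)) ∧
    ∀ v, inB x0 y0 k v → (¬ inE x0 y0 k v ∨ v.2 = r1 ∨ v.2 = r2 ∨ v.2 = r3) →
      Conn Y (x0 - 1, y0 - 1) v := by
  let cl : ℤ → ℤ := fun r => if y0 - 1 ≤ r ∧ r ≤ y0 + k then r else y0 - 1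
  have hcl : ∀ r, y0 - 1 ≤ cl r ∧ cl r ≤ y0 + k := by
    intro r; simp only [cl]; split_ifs <;> omega
  have hcl' : ∀ r, y0 - 1 ≤ r → r ≤ y0 + k → cl r = r := by
    intro r h1 h2; simp only [cl]; rw [if_pos ⟨h1, h2⟩]
  let Y : E →₀ ℕ := vline (x0 - 1) (y0 - 1) (k + 1) + vline (x0 + k) (y0 - 1) (k + 1)
    + hline (x0 - 1) (y0 - 1) (k + 1) + hline (x0 - 1) (y0 + k) (k + 1)
    + hline (x0 - 1) (cl r1) (k + 1) + hline (x0 - 1) (cl r2) (k + 1)
    + hline (x0 - 1) (cl r3) (k + 1)
  have hleft : ∀ b, y0 - 1 ≤ b → b ≤ y0 + k → Conn Y (x0 - 1, y0 - 1) (x0 - 1, b) := by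
    intro b h1 h2
    have := conn_vert (m := Y) (a := x0 - 1) (b := y0 - 1) (n := k + 1) (fun j hj => by
      have := vline_pos.2 ⟨j, hj, (rfl : (((x0 - 1, y0 - 1 + j), true) : E) = _)⟩
      simp only [Y, Finsupp.add_apply]; omega) (b - (y0 - 1)).toNat (by omega)
    rwa [show y0 - 1 + ((b - (y0 - 1)).toNat : ℤ) = b by omega] at this
  have hrow : ∀ r, (r = y0 - 1 ∨ r = y0 + k ∨ r = cl r1 ∨ r = cl r2 ∨ r = cl r3) →
      ∀ a, x0 - 1 ≤ a → a ≤ x0 + k → Conn Y (x0 - 1, y0 - 1) (a, r) := by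
    intro r hr a h1 h2
    have hr' : y0 - 1 ≤ r ∧ r ≤ y0 + k := by
      rcases hr with h | h | h | h | h
      · omega
      · omega
      all_goals rw [h]; exact hcl _
    refine (hleft r hr'.1 hr'.2).trans ?_
    have := conn_horiz (m := Y) (a := x0 - 1) (b := r) (n := k + 1) (fun j hj => by
      have := hline_pos.2 ⟨j, hj, (rfl : (((x0 - 1 + j, r), false) : E) = _)⟩
      simp only [Y, Finsupp.add_apply]
      rcases hr with h | h | h | h | h <;> rw [h] at this ⊢ <;> omega) (a - (x0 - 1)).toNat (by omega)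
    rwa [show x0 - 1 + ((a - (x0 - 1)).toNat : ℤ) = a by omega] at this
  have hright : ∀ b, y0 - 1 ≤ b → b ≤ y0 + k → Conn Y (x0 - 1, y0 - 1) (x0 + k, b) := by
    intro b h1 h2
    refine (hrow (y0 - 1) (Or.inl rfl) (x0 + k) (by omega) le_rfl).trans ?_
    have := conn_vert (m := Y) (a := x0 + k) (b := y0 - 1) (n := k + 1) (fun j hj => by
      have := vline_pos.2 ⟨j, hj, (rfl : (((x0 + k, y0 - 1 + j), true) : E) = _)⟩
      simp only [Y, Finsupp.add_apply]; omega) (b - (y0 - 1)).toNat (by omega)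
    rwa [show y0 - 1 + ((b - (y0 - 1)).toNat : ℤ) = b by omega] at this
  refine ⟨Y, ?_, ?_, ?_⟩
  · simp only [Y, sz_add, sz_vline, sz_hline]; omega
  · intro e he
    have hv : ∀ a, (a = x0 - 1 ∨ a = x0 + k) → 0 < vline a (y0 - 1) (k + 1) e →
        inB x0 y0 k (src e) ∧ inB x0 y0 k (dst e) ∧ Conn Y (x0 - 1, y0 - 1) (src e) := by
      intro a ha h
      obtain ⟨j, hj, rfl⟩ := vline_pos.1 h
      refine ⟨?_, ?_, ?_⟩
      · simp only [inB, src]; omega
      · simp only [inB, dst, if_true]; omega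
      · rcases ha with rfl | rfl
        · exact hleft _ (by omega) (by omega)
        · exact hright _ (by omega) (by omega)
    have hh : ∀ r, (r = y0 - 1 ∨ r = y0 + k ∨ r = cl r1 ∨ r = cl r2 ∨ r = cl r3) →
        0 < hline (x0 - 1) r (k + 1) e →
        inB x0 y0 k (src e) ∧ inB x0 y0 k (dst e) ∧ Conn Y (x0 - 1, y0 - 1) (src e) := by
      intro r hr h
      obtain ⟨j, hj, rfl⟩ := hline_pos.1 h
      have hr' : y0 - 1 ≤ r ∧ r ≤ y0 + k := by
        rcases hr with h | h | h | h | h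
        · omega
        · omega
        all_goals rw [h]; exact hcl _
      refine ⟨?_, ?_, hrow r hr _ (by omega) (by omega)⟩
      · simp only [inB, src]; omega
      · simp only [inB, dst, Bool.false_eq_true, if_false]; omega
    simp only [Y, Finsupp.add_apply] at he
    by_cases h1 : 0 < vline (x0 - 1) (y0 - 1) (k + 1) e
    · exact hv _ (Or.inl rfl) h1
    by_cases h2 : 0 < vline (x0 + k) (y0 - 1) (k + 1) e
    · exact hv _ (Or.inr rfl) h2
    by_cases h3 : 0 < hline (x0 - 1) (y0 - 1) (k + 1) e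
    · exact hh _ (by simp) h3
    by_cases h4 : 0 < hline (x0 - 1) (y0 + k) (k + 1) e
    · exact hh _ (by simp) h4
    by_cases h5 : 0 < hline (x0 - 1) (cl r1) (k + 1) e
    · exact hh _ (by simp) h5
    by_cases h6 : 0 < hline (x0 - 1) (cl r2) (k + 1) e
    · exact hh _ (by simp) h6
    · exact hh (cl r3) (by simp) (by omega)
  · rintro ⟨a, b⟩ hv h
    simp only [inB, inE] at hv h
    by_cases h1 : a = x0 - 1
    · rw [h1]; exact hleft b hv.2.2.1 hv.2.2.2
    by_cases h2 : a = x0 + k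
    · rw [h2]; exact hright b hv.2.2.1 hv.2.2.2
    refine hrow b ?_ a hv.1 hv.2.1
    rcases h with h | h | h | h
    · omega
    · exact Or.inr (Or.inr (Or.inl (by rw [← h, hcl' b hv.2.2.1 hv.2.2.2])))
    · exact Or.inr (Or.inr (Or.inr (Or.inl (by rw [← h, hcl' b hv.2.2.1 hv.2.2.2]))))
    · exact Or.inr (Or.inr (Or.inr (Or.inr (by rw [← h, hcl' b hv.2.2.1 hv.2.2.2]))))

lemma not_inE_of_adj {x0 y0 : ℤ} {k : ℕ} {u v : V} (h : d1 u v = 1) (hv : ¬ inB x0 y0 k v) :
    ¬ inE x0 y0 k u := by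
  unfold d1 inB inE at *; omega

open Classical in
theorem surgery (x0 y0 : ℤ) (k : ℕ) (y : V) (X X' : Finset V) (p q : V) (hp : inB x0 y0 k p)
    (hq : q ∈ X) (hqB : inB x0 y0 k q)
    (hX' : ∀ v ∈ X', (v ∈ X ∧ ¬ inE x0 y0 k v) ∨ v = p) :
    ∃ m : E →₀ ℕ, Par m 0 y ∧ (∀ v ∈ X, Conn m 0 v) ∧
      lv y X' + sz (m.filter fun e => inB x0 y0 k (src e) ∧ inB x0 y0 k (dst e))
        ≤ lv y X + 14 * (k + 1) := by
  obtain ⟨m, hsz, hpar, hX, hc⟩ := exists_multi y X
  refine ⟨m, hpar, hX, ?_⟩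
  obtain ⟨Y, hY1, hY2, hY3⟩ := exists_frame x0 y0 k p.2 0 y.2
  set z0 : V := (x0 - 1, y0 - 1) with hz0
  set mi := m.filter fun e => inB x0 y0 k (src e) ∧ inB x0 y0 k (dst e) with hmi
  set mo := m.filter fun e => ¬ (inB x0 y0 k (src e) ∧ inB x0 y0 k (dst e)) with hmo
  have hm : mi + mo = m := Finsupp.filter_add_filter_not m _
  set J : Finset V := ((Finset.Icc (x0 - 1) (x0 + k)) ×ˢ (Finset.Icc (y0 - 1) (y0 + k))).filter
    fun v => (deg mo v + deg Y v + ind 0 v + ind y v) % 2 = 1 with hJ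
  have hJmem : ∀ v, v ∈ J ↔ inB x0 y0 k v ∧ (deg mo v + deg Y v + ind 0 v + ind y v) % 2 = 1 := by
    intro v
    simp only [hJ, Finset.mem_filter, Finset.mem_product, Finset.mem_Icc, inB, and_assoc]
  have hring : ∀ e, 0 < mo e → ∀ v, (src e = v ∨ dst e = v) → inB x0 y0 k v → Conn Y z0 v := by
    intro e he v hv hB
    rw [hmo, Finsupp.filter_apply] at he
    split_ifs at he with h
    · omega
    · refine hY3 v hB (Or.inl ?_)
      rcases hv with hv | hv
      · subst hv
        exact not_inE_of_adj (d1_src_dst e) fun h' => h ⟨hB, h'⟩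
      · subst hv
        exact not_inE_of_adj (by rw [d1_comm]; exact d1_src_dst e) fun h' => h ⟨h', hB⟩
  obtain ⟨c, hc1, hc2⟩ := join (Y := Y) (z := z0) J (by
    intro v hv
    obtain ⟨hB, hodd⟩ := (hJmem v).1 hv
    by_cases h1 : 0 < deg mo v
    · obtain ⟨e, he, hv⟩ := exists_edge_of_deg h1
      exact hring e he v hv hB
    by_cases h2 : 0 < deg Y v
    · obtain ⟨e, he, hv⟩ := exists_edge_of_deg h2
      rcases hv with hv | hv
      · rw [← hv]; exact (hY2 e he).2.2
      · rw [← hv]; exact (hY2 e he).2.2.trans (conn_edge he)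
    by_cases h3 : v = 0
    · exact hY3 v hB (Or.inr (Or.inr (Or.inl (by rw [h3]; rfl))))
    by_cases h4 : v = y
    · exact hY3 v hB (Or.inr (Or.inr (Or.inr (by rw [h4]))))
    · simp only [ind, h3, h4, if_false] at hodd; omega)
  set m' : E →₀ ℕ := mo + Y + c with hm'
  have hYm : ∀ e, 0 < Y e → 0 < m' e := by
    intro e he; simp only [hm', Finsupp.add_apply]; omega
  have hpar' : Par m' 0 y := by
    apply handshake (z := z0)
    intro v hv
    have h1 := hc2 v hv
    rw [hm', deg_add, deg_add]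
    by_cases hB : inB x0 y0 k v
    · by_cases hvJ : v ∈ J
      · have := ((hJmem v).1 hvJ).2
        rw [if_pos hvJ] at h1; omega
      · have : ¬ (deg mo v + deg Y v + ind 0 v + ind y v) % 2 = 1 := fun h => hvJ ((hJmem v).2 ⟨hB, h⟩)
        rw [if_neg hvJ] at h1; omega
    · rw [if_neg (fun h => hB ((hJmem v).1 h).1)] at h1
      have h2 : deg mo v = deg m v := by
        rw [hmo]
        apply deg_filter_of
        rintro e (he | he) h
        · exact hB (he ▸ h.1)
        · exact hB (he ▸ h.2)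
      have h3 : deg Y v = 0 := by
        by_contra h3
        obtain ⟨e, he, hv⟩ := exists_edge_of_deg (Nat.pos_of_ne_zero h3)
        rcases hv with hv | hv
        · exact hB (hv ▸ (hY2 e he).1)
        · exact hB (hv ▸ (hY2 e he).2.1)
      have := hpar v
      omega
  let φ : V → V := fun v => if inB x0 y0 k v then z0 else v
  have hφ : ∀ e, 0 < mo e → ∀ v, (src e = v ∨ dst e = v) → Conn m' (φ v) v := by
    intro e he v hv
    simp only [φ]
    split_ifs with h
    · exact (hring e he v hv h).mono hYm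
    · exact Conn.refl _ _
  have htr : ∀ v, Conn m 0 v → Conn m' (φ 0) (φ v) := by
    intro v hv
    refine Conn.transfer φ (fun e he => ?_) hv
    by_cases h : inB x0 y0 k (src e) ∧ inB x0 y0 k (dst e)
    · simp only [φ, h.1, h.2, if_true]; exact Conn.refl _ _
    · have h1 : 0 < mo e := by rw [hmo, Finsupp.filter_apply, if_pos h]; exact he
      have h2 : 0 < m' e := by simp only [hm', Finsupp.add_apply]; omega
      exact ((hφ e h1 _ (Or.inl rfl)).trans (conn_edge h2)).trans (hφ e h1 _ (Or.inr rfl)).symm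
  have h0 : Conn m' 0 (φ 0) := by
    simp only [φ]
    split_ifs with h
    · exact ((hY3 0 h (Or.inr (Or.inr (Or.inl rfl)))).mono hYm).symm
    · exact Conn.refl _ _
  have hz : Conn m' 0 z0 := by
    have := h0.trans (htr q (hX q hq))
    simpa only [φ, hqB, if_true] using this
  have hle : lv y X' ≤ sz m' := by
    refine lv_le_multi hpar' (fun v hv => ?_) (fun e he => ?_)
    · rcases hX' v hv with ⟨h1, h2⟩ | h1
      · by_cases hB : inB x0 y0 k v
        · exact hz.trans ((hY3 v hB (Or.inl h2)).mono hYm)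
        · have := h0.trans (htr v (hX v h1))
          simpa only [φ, hB, if_false] using this
      · rw [h1]; exact hz.trans ((hY3 p hp (Or.inr (Or.inl rfl))).mono hYm)
    · by_cases h1 : 0 < mo e
      · have h2 : 0 < m e := by rw [← hm, Finsupp.add_apply]; omega
        exact (h0.trans (htr _ (hc e h2))).trans (hφ e h1 _ (Or.inl rfl))
      · have h2 : 0 < Y e := by
          have := hc1 e
          simp only [hm', Finsupp.add_apply] at he; omega
        exact hz.trans ((hY2 e h2).2.2.mono hYm)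
  have h1 : sz c ≤ sz Y := sz_mono hc1
  have h2 : sz mi + sz mo = sz m := by rw [← sz_add, hm]
  rw [hm', sz_add, sz_add] at hle
  omega

lemma sum_deg_ge {m : E →₀ ℕ} {y : V} (hp : Par m 0 y) (S : Finset V) (hS : ∀ v ∈ S, Conn m 0 v) :
    2 * S.card ≤ ∑ v ∈ S, deg m v + 4 := by
  have h1 : ∑ v ∈ (S.erase 0).erase y, deg m v ≤ ∑ v ∈ S, deg m v :=
    Finset.sum_le_sum_of_subset ((Finset.erase_subset _ _).trans (Finset.erase_subset _ _))
  have h2 : ((S.erase 0).erase y).card • 2 ≤ ∑ v ∈ (S.erase 0).erase y, deg m v :=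
    Finset.card_nsmul_le_sum _ _ _ fun v hv => by
      have h3 := Finset.mem_erase.1 hv
      have h4 := Finset.mem_erase.1 h3.2
      exact two_le_deg hp (hS v h4.2) h4.1 h3.1
  have h3 := Finset.pred_card_le_card_erase (s := S) (a := 0)
  have h4 := Finset.pred_card_le_card_erase (s := S.erase 0) (a := y)
  simp only [smul_eq_mul] at h2
  omega

lemma sum_deg_le (m : E →₀ ℕ) (S : Finset V) (w : ℕ)
    (h : ∀ e, (if src e ∈ S then 1 else 0) + (if dst e ∈ S then 1 else 0) ≤ w) :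
    ∑ v ∈ S, deg m v ≤ w * sz m := by
  rw [sum_deg, sz, Finsupp.sum, Finsupp.sum, Finset.mul_sum]
  refine Finset.sum_le_sum fun e _ => ?_
  rw [mul_comm w]
  exact Nat.mul_le_mul_left _ (h e)

open Classical in
lemma deg_inner {m : E →₀ ℕ} {x0 y0 : ℤ} {k : ℕ} {v : V} (hv : inE x0 y0 k v) :
    deg (m.filter fun e => inB x0 y0 k (src e) ∧ inB x0 y0 k (dst e)) v = deg m v := by
  apply deg_filter_of
  intro e he
  have := d1_src_dst e
  rcases he with he | he <;> rw [he] at this ⊢ <;> unfold d1 inB inE at * <;> omega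

/-- removing many lamps from a box, keeping one point, shortens the tour -/
theorem lv_heavy (x0 y0 : ℤ) (k : ℕ) (y : V) (X X' S : Finset V) (p : V) (hp : inE x0 y0 k p)
    (hpX : p ∈ X) (hX' : ∀ v ∈ X', (v ∈ X ∧ ¬ inE x0 y0 k v) ∨ v = p)
    (hS : ∀ v ∈ S, v ∈ X ∧ inE x0 y0 k v) : lv y X' + S.card ≤ lv y X + 14 * (k + 1) + 2 := by
  classical
  have hpB : inB x0 y0 k p := by unfold inB inE at *; omega
  obtain ⟨m, h1, h2, h3⟩ := surgery x0 y0 k y X X' p p hpB hpX hpB hX'
  have h4 := sum_deg_ge h1 S fun v hv => h2 v (hS v hv).1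
  have h5 := sum_deg_le (m.filter fun e => inB x0 y0 k (src e) ∧ inB x0 y0 k (dst e)) S 2
    (fun e => by split_ifs <;> omega)
  rw [Finset.sum_congr rfl fun v hv => deg_inner (hS v hv).2] at h5
  omega

def black (v : V) : Prop := (v.1 + v.2) % 2 = 0

instance : DecidablePred black := fun v => by unfold black; infer_instance

/-- lighting black points of an empty box lengthens the tour -/
theorem lv_gain (x0 y0 : ℤ) (k : ℕ) (y : V) (X X' S : Finset V)
    (hX' : ∀ v ∈ X', v ∈ X ∧ ¬ inE x0 y0 k v)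
    (hS : ∀ v ∈ S, v ∈ X ∧ inE x0 y0 k v ∧ black v) :
    lv y X' + 2 * S.card ≤ lv y X + 14 * (k + 1) + 4 := by
  classical
  rcases S.eq_empty_or_nonempty with rfl | ⟨p, hp⟩
  · have := lv_mono y (show X' ⊆ X from fun v hv => (hX' v hv).1)
    simp only [Finset.card_empty]; omega
  have hpB : inB x0 y0 k p := by
    have := (hS p hp).2.1
    unfold inB inE at *; omega
  obtain ⟨m, h1, h2, h3⟩ := surgery x0 y0 k y X X' p p hpB (hS p hp).1 hpB
    fun v hv => Or.inl (hX' v hv)
  have h4 := sum_deg_ge h1 S fun v hv => h2 v (hS v hv).1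
  have h5 := sum_deg_le (m.filter fun e => inB x0 y0 k (src e) ∧ inB x0 y0 k (dst e)) S 1
    (fun e => by
      have := d1_src_dst e
      split_ifs with a b
      · have h6 := (hS _ a).2.2
        have h7 := (hS _ b).2.2
        unfold black d1 at *; omega
      all_goals omega)
  rw [Finset.sum_congr rfl fun v hv => deg_inner (hS v hv).2.1] at h5
  omega

end Pool.Agent.Lamp79
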