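import Mathlib

/-! Lattice walks in the plane and the travelling salesman length `lv`. -/

namespace Pool.Agent.Lamp79

abbrev V := ℤ × ℤ

/-- taxicab distance -/
def d1 (u v : V) : ℕ := (u.1 - v.1).natAbs + (u.2 - v.2).natAbs

lemma d1_comm (u v : V) : d1 u v = d1 v u := by unfold d1; omega
lemma d1_self (u : V) : d1 u u = 0 := by unfold d1; omega
lemma d1_tri (u v w : V) : d1 u w ≤ d1 u v + d1 v w := by unfold d1; omega
lemma eq_of_d1 {u v : V} (h : d1 u v = 0) : u = v := by
  unfold d1 at h; apply Prod.ext <;> omega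

/-- `Tr s t n S`: a lattice walk from `s` to `t` with `n` steps whose set of visited points is `S` -/
inductive Tr (s : V) : V → ℕ → Finset V → Prop
  | nil : Tr s s 0 {s}
  | step {u v : V} {n : ℕ} {S : Finset V} : Tr s u n S → d1 u v = 1 → Tr s v (n + 1) (insert v S)

lemma Tr.start_mem {s t : V} {n : ℕ} {S : Finset V} (h : Tr s t n S) : s ∈ S := by
  induction h with
  | nil => simp
  | step _ _ ih => exact Finset.mem_insert_of_mem ih

lemma Tr.end_mem {s t : V} {n : ℕ} {S : Finset V} (h : Tr s t n S) : t ∈ S := by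
  cases h with
  | nil => simp
  | step _ _ => simp

lemma Tr.trans {s u t : V} {n m : ℕ} {S S' : Finset V} (h : Tr s u n S) (h' : Tr u t m S') :
    Tr s t (n + m) (S ∪ S') := by
  induction h' with
  | nil =>
    have : S ∪ {u} = S := by
      apply Finset.union_eq_left.2; simpa using h.end_mem
    rw [this]; exact h
  | @step a b k T _ hab ih =>
    have : S ∪ insert b T = insert b (S ∪ T) := by simp
    rw [this, ← add_assoc]; exact Tr.step ih hab

lemma Tr.split {s t : V} {n : ℕ} {S : Finset V} (h : Tr s t n S) {u : V} (hu : u ∈ S) :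
    ∃ n1 n2 S1 S2, Tr s u n1 S1 ∧ Tr u t n2 S2 ∧ n1 + n2 = n ∧ S1 ∪ S2 = S := by
  induction h with
  | nil =>
    have : u = s := by simpa using hu
    subst this
    exact ⟨0, 0, {u}, {u}, Tr.nil, Tr.nil, rfl, by simp⟩
  | @step a b k T hT hab ih =>
    by_cases hub : u = b
    · subst hub
      refine ⟨k + 1, 0, insert u T, {u}, Tr.step hT hab, Tr.nil, rfl, ?_⟩
      apply Finset.union_eq_left.2; simp
    · have hu' : u ∈ T := by
        rcases Finset.mem_insert.1 hu with h | h
        · exact absurd h hub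
        · exact h
      obtain ⟨n1, n2, S1, S2, h1, h2, h3, h4⟩ := ih hu'
      refine ⟨n1, n2 + 1, S1, insert b S2, h1, Tr.step h2 hab, by omega, ?_⟩
      rw [← h4]; simp

lemma exists_closer {u v : V} {k : ℕ} (h : d1 u v = k + 1) : ∃ w, d1 u w = k ∧ d1 w v = 1 := by
  obtain ⟨u1, u2⟩ := u
  obtain ⟨v1, v2⟩ := v
  unfold d1 at *
  simp only at *
  rcases lt_trichotomy u1 v1 with h1 | h1 | h1
  · exact ⟨(v1 - 1, v2), by simp only; omega, by simp only; omega⟩
  · rcases lt_trichotomy u2 v2 with h2 | h2 | h2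
    · exact ⟨(v1, v2 - 1), by simp only; omega, by simp only; omega⟩
    · omega
    · exact ⟨(v1, v2 + 1), by simp only; omega, by simp only; omega⟩
  · exact ⟨(v1 + 1, v2), by simp only; omega, by simp only; omega⟩

lemma exists_tr (u v : V) : ∃ S, Tr u v (d1 u v) S := by
  generalize hk : d1 u v = k
  induction k generalizing v with
  | zero => rw [← eq_of_d1 hk]; exact ⟨_, Tr.nil⟩
  | succ k ih =>
    obtain ⟨w, hw, hwv⟩ := exists_closer hk
    obtain ⟨S, hS⟩ := ih w hw
    exact ⟨_, Tr.step hS hwv⟩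

lemma Tr.insert_pt {s t : V} {n : ℕ} {S : Finset V} (h : Tr s t n S) {u : V} (hu : u ∈ S) (v : V) :
    ∃ S', Tr s t (n + 2 * d1 u v) S' ∧ insert v S ⊆ S' := by
  obtain ⟨n1, n2, S1, S2, h1, h2, h3, h4⟩ := h.split hu
  obtain ⟨T1, hT1⟩ := exists_tr u v
  obtain ⟨T2, hT2⟩ := exists_tr v u
  have := ((h1.trans hT1).trans hT2).trans h2
  refine ⟨_, by rw [show n + 2 * d1 u v = n1 + d1 u v + d1 v u + n2 by rw [d1_comm v u]; omega]; exact this, ?_⟩
  intro z hz
  rcases Finset.mem_insert.1 hz with rfl | hz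
  · simp [hT1.end_mem]
  · rw [← h4] at hz
    rcases Finset.mem_union.1 hz with hz | hz <;> simp [hz]

lemma exists_cover (y : V) (X : Finset V) : ∃ n S, Tr 0 y n S ∧ X ⊆ S := by
  induction X using Finset.induction_on with
  | empty => obtain ⟨S, hS⟩ := exists_tr 0 y; exact ⟨_, S, hS, by simp⟩
  | insert v X _ ih =>
    obtain ⟨n, S, h, hX⟩ := ih
    obtain ⟨S', h', hS'⟩ := h.insert_pt h.end_mem v
    exact ⟨_, S', h', (Finset.insert_subset_insert v hX).trans hS'⟩

/-- the least length of a walk from the origin to `y` that visits `X` -/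
noncomputable def lv (y : V) (X : Finset V) : ℕ := sInf {n | ∃ S, Tr 0 y n S ∧ X ⊆ S}

lemma lv_spec (y : V) (X : Finset V) : ∃ S, Tr 0 y (lv y X) S ∧ X ⊆ S := by
  have : {n | ∃ S, Tr 0 y n S ∧ X ⊆ S}.Nonempty := by
    obtain ⟨n, S, h⟩ := exists_cover y X
    exact ⟨n, S, h⟩
  exact Nat.sInf_mem this

lemma lv_le {y : V} {X S : Finset V} {n : ℕ} (h : Tr 0 y n S) (hX : X ⊆ S) : lv y X ≤ n :=
  Nat.sInf_le ⟨S, h, hX⟩

lemma lv_mono (y : V) {X X' : Finset V} (h : X ⊆ X') : lv y X ≤ lv y X' := by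
  obtain ⟨S, hS, hX⟩ := lv_spec y X'
  exact lv_le hS (h.trans hX)

lemma lv_move (u v : V) (X : Finset V) : lv v X ≤ lv u X + d1 u v := by
  obtain ⟨S, hS, hX⟩ := lv_spec u X
  obtain ⟨T, hT⟩ := exists_tr u v
  exact lv_le (hS.trans hT) (hX.trans Finset.subset_union_left)

lemma lv_insert_self (y : V) (X : Finset V) : lv y (insert y X) = lv y X := by
  apply le_antisymm
  · obtain ⟨S, hS, hX⟩ := lv_spec y X
    exact lv_le hS (Finset.insert_subset hS.end_mem hX)
  · exact lv_mono y (Finset.subset_insert _ _)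

lemma lv_insert {y u : V} {X : Finset V} (hu : u ∈ X ∨ u = y) (v : V) :
    lv y (insert v X) ≤ lv y X + 2 * d1 u v := by
  obtain ⟨S, hS, hX⟩ := lv_spec y X
  have hu' : u ∈ S := by
    rcases hu with h | h
    · exact hX h
    · rw [h]; exact hS.end_mem
  obtain ⟨S', h', hS'⟩ := hS.insert_pt hu' v
  exact lv_le h' ((Finset.insert_subset_insert v hX).trans hS')

/-- inserting a set of points each of which is close to a point of `X` or to `y` -/
lemma lv_union_near (y : V) (X P : Finset V) (D : ℕ)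
    (h : ∀ v ∈ P, ∃ u, (u ∈ X ∨ u = y) ∧ d1 u v ≤ D) : lv y (X ∪ P) ≤ lv y X + 2 * D * P.card := by
  induction P using Finset.induction_on with
  | empty => simp
  | insert v P hv ih =>
    obtain ⟨u, hu, hd⟩ := h v (by simp)
    have ih' := ih (fun w hw => h w (Finset.mem_insert_of_mem hw))
    have h1 : lv y (insert v (X ∪ P)) ≤ lv y (X ∪ P) + 2 * d1 u v :=
      lv_insert (hu.imp_left (fun h => Finset.mem_union_left _ h)) v
    rw [Finset.union_insert, Finset.card_insert_of_notMem hv]
    nlinarith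

/-- inserting a chain of points -/
lemma lv_union_chain (y : V) (X : Finset V) (p : ℕ → V) (D : ℕ) (n : ℕ)
    (h : ∀ i < n, ∃ u, (u ∈ X ∨ u = y ∨ ∃ j < i, u = p j) ∧ d1 u (p i) ≤ D) :
    lv y (X ∪ (Finset.range n).image p) ≤ lv y X + 2 * D * n := by
  induction n with
  | zero => simp
  | succ n ih =>
    have ih' := ih (fun i hi => h i (by omega))
    obtain ⟨u, hu, hd⟩ := h n (by omega)
    have hu' : u ∈ X ∪ (Finset.range n).image p ∨ u = y := by
      rcases hu with hu | hu | ⟨j, hj, hu⟩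
      · exact Or.inl (Finset.mem_union_left _ hu)
      · exact Or.inr hu
      · exact Or.inl (Finset.mem_union_right _ (Finset.mem_image.2 ⟨j, Finset.mem_range.2 hj, hu.symm⟩))
    have h1 := lv_insert hu' (p n)
    rw [Finset.range_add_one, Finset.image_insert, Finset.union_insert]
    nlinarith

lemma Tr.parity {s t : V} {n : ℕ} {S : Finset V} (h : Tr s t n S) :
    ((n : ℤ) + s.1 + s.2 + t.1 + t.2) % 2 = 0 := by
  induction h with
  | nil => omega
  | step _ hab ih => unfold d1 at hab; push_cast; omega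

lemma lv_parity (y : V) (X : Finset V) : ((lv y X : ℤ) + y.1 + y.2) % 2 = 0 := by
  obtain ⟨S, hS, -⟩ := lv_spec y X
  have := hS.parity
  simpa using this

lemma Tr.d1_le {s t : V} {n : ℕ} {S : Finset V} (h : Tr s t n S) : ∀ v ∈ S, d1 s v ≤ n := by
  induction h with
  | nil => intro v hv; rw [Finset.mem_singleton.1 hv, d1_self]
  | @step a b k T hT hab ih =>
    intro v hv
    rcases Finset.mem_insert.1 hv with rfl | hv
    · have := ih a hT.end_mem
      have := d1_tri s a v
      omega
    · have := ih v hv; omega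

lemma d1_le_lv_of_mem {y v : V} {X : Finset V} (hv : v ∈ X) : d1 0 v ≤ lv y X := by
  obtain ⟨S, hS, hX⟩ := lv_spec y X
  exact hS.d1_le v (hX hv)

lemma d1_le_lv (y : V) (X : Finset V) : d1 0 y ≤ lv y X := by
  obtain ⟨S, hS, -⟩ := lv_spec y X
  exact hS.d1_le y hS.end_mem

lemma Tr.swap {s t : V} {n : ℕ} {S : Finset V} (h : Tr s t n S) :
    Tr s.swap t.swap n (S.image Prod.swap) := by
  induction h with
  | nil => simpa using Tr.nil
  | @step a b k T _ hab ih =>
    rw [Finset.image_insert]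
    refine Tr.step ih ?_
    unfold d1 at *; simp only [Prod.fst_swap, Prod.snd_swap]; omega

lemma lv_swap_le (y : V) (X : Finset V) : lv y.swap (X.image Prod.swap) ≤ lv y X := by
  obtain ⟨S, hS, hX⟩ := lv_spec y X
  exact lv_le (show Tr 0 y.swap _ _ from hS.swap) (Finset.image_subset_image hX)

lemma lv_swap (y : V) (X : Finset V) : lv y.swap (X.image Prod.swap) = lv y X := by
  apply le_antisymm (lv_swap_le y X)
  have := lv_swap_le y.swap (X.image Prod.swap)
  rw [Finset.image_image] at this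
  simpa using this

end Pool.Agent.Lamp79
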